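import Mathlib

/-! Facts on the alternating group on five letters with the outer involution. -/

set_option autoImplicit false

namespace Pool.Agent.W297.A5

open Equiv

abbrev T : Type := alternatingGroup (Fin 5)

/-- conjugation by the transposition `(0 1)` -/
def tau : T ≃* T := MulAut.conjNormal (swap (0 : Fin 5) 1)

theorem tau_coe (t : T) : ((tau t : T) : Perm (Fin 5)) = swap 0 1 * t.1 * swap 0 1 := by
  change ((MulAut.conjNormal (swap (0 : Fin 5) 1) t : T) : Perm (Fin 5)) = _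
  rw [MulAut.conjNormal_apply, swap_inv]

theorem tau_tau (t : T) : tau (tau t) = t := by
  apply Subtype.ext
  rw [tau_coe, tau_coe]
  have h : swap (0 : Fin 5) 1 * swap 0 1 = 1 := swap_mul_self 0 1
  calc swap 0 1 * (swap 0 1 * t.1 * swap 0 1) * swap 0 1
      = (swap 0 1 * swap 0 1) * t.1 * (swap 0 1 * swap 0 1) := by simp only [mul_assoc]
    _ = t.1 := by rw [h, one_mul, mul_one]

/-- an even permutation as an element of `T` -/
def ev (g : Perm (Fin 5)) (h : Perm.sign g = 1) : T := ⟨g, Perm.mem_alternatingGroup.mpr h⟩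

def x012 : T := ev (swap 0 1 * swap 1 2) (by decide +kernel)
def x013 : T := ev (swap 0 1 * swap 1 3) (by decide +kernel)
def x0134 : T := ev (swap 0 1 * swap 3 4) (by decide +kernel)

theorem sign_coe (t : T) : Perm.sign t.1 = 1 := Perm.mem_alternatingGroup.mp t.2

theorem tau_ne : ∃ t : T, tau t ≠ t := by
  refine ⟨x012, fun h => ?_⟩
  have h1 := congrArg Subtype.val h
  rw [tau_coe] at h1
  revert h1
  change ¬ (swap 0 1 * (swap (0 : Fin 5) 1 * swap 1 2) * swap 0 1 = swap 0 1 * swap 1 2)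
  decide +kernel

theorem noncomm : ∃ a b : T, a * b ≠ b * a := by
  refine ⟨x012, x013, fun h => ?_⟩
  have h1 := congrArg Subtype.val h
  revert h1
  change ¬ ((swap (0 : Fin 5) 1 * swap 1 2) * (swap 0 1 * swap 1 3) =
    (swap 0 1 * swap 1 3) * (swap 0 1 * swap 1 2))
  decide +kernel

/-- stabiliser of a point -/
def fx (p : Fin 5) : Subgroup T where
  carrier := {g | g.1 p = p}
  one_mem' := rfl
  mul_mem' := by
    intro a b ha hb
    change a.1 (b.1 p) = p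
    rw [show b.1 p = p from hb]
    exact ha
  inv_mem' := by
    intro a ha
    change (a.1)⁻¹ p = p
    rw [Perm.inv_eq_iff_eq]
    exact ha.symm

/-- stabiliser of the pair `{3, 4}` -/
def pr : Subgroup T where
  carrier := {g | ∀ i, (g.1 i = 3 ∨ g.1 i = 4) ↔ (i = 3 ∨ i = 4)}
  one_mem' := fun _ => Iff.rfl
  mul_mem' := by
    intro a b ha hb i
    exact (ha (b.1 i)).trans (hb i)
  inv_mem' := by
    intro a ha i
    have := ha ((a.1)⁻¹ i)
    change ((a.1)⁻¹ i = 3 ∨ (a.1)⁻¹ i = 4) ↔ _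
    have h1 : a.1 ((a.1)⁻¹ i) = i := a.1.apply_symm_apply i
    rw [h1] at this
    exact this.symm

theorem mem_fx {p : Fin 5} {g : T} : g ∈ fx p ↔ g.1 p = p := Iff.rfl
theorem mem_pr {g : T} : g ∈ pr ↔ ∀ i, (g.1 i = 3 ∨ g.1 i = 4) ↔ (i = 3 ∨ i = 4) := Iff.rfl

/-- invariance under `tau` -/
def Iv (D : Subgroup T) : Prop := ∀ t ∈ D, tau t ∈ D

theorem Iv_inf {D D' : Subgroup T} (h : Iv D) (h' : Iv D') : Iv (D ⊓ D') :=
  fun t ht => ⟨h t ht.1, h' t ht.2⟩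

theorem Iv_top : Iv ⊤ := fun _ _ => trivial

theorem Iv_fx2 : Iv (fx 2) := by
  intro t ht
  rw [mem_fx] at *
  rw [tau_coe]
  change swap 0 1 (t.1 (swap 0 1 2)) = 2
  rw [show swap (0 : Fin 5) 1 2 = 2 by decide, ht]
  decide

theorem Iv_fx4 : Iv (fx 4) := by
  intro t ht
  rw [mem_fx] at *
  rw [tau_coe]
  change swap 0 1 (t.1 (swap 0 1 4)) = 4
  rw [show swap (0 : Fin 5) 1 4 = 4 by decide, ht]
  decide

theorem Iv_pr : Iv pr := by
  intro t ht
  rw [mem_pr] at *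
  intro i
  rw [tau_coe]
  have h1 : ∀ j : Fin 5, (swap 0 1 j = 3 ∨ swap 0 1 j = 4) ↔ (j = 3 ∨ j = 4) := by decide
  change (swap 0 1 (t.1 (swap 0 1 i)) = 3 ∨ swap 0 1 (t.1 (swap 0 1 i)) = 4) ↔ _
  rw [h1, ht, h1]

theorem x013_fx2 : x013 ∈ fx 2 := by
  change (swap 0 1 * swap 1 3 : Perm (Fin 5)) 2 = 2
  decide +kernel
theorem x013_fx4 : x013 ∈ fx 4 := by
  change (swap 0 1 * swap 1 3 : Perm (Fin 5)) 4 = 4
  decide +kernel
theorem x013_pr : x013 ∉ pr := by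
  intro h
  have := (mem_pr.mp h 3).mpr (Or.inl rfl)
  revert this
  change ¬ ((swap 0 1 * swap 1 3 : Perm (Fin 5)) 3 = 3 ∨ (swap 0 1 * swap 1 3 : Perm (Fin 5)) 3 = 4)
  decide +kernel
theorem x012_fx4 : x012 ∈ fx 4 := by
  change (swap 0 1 * swap 1 2 : Perm (Fin 5)) 4 = 4
  decide +kernel
theorem x012_fx2 : x012 ∉ fx 2 := by
  change ¬ ((swap 0 1 * swap 1 2 : Perm (Fin 5)) 2 = 2)
  decide +kernel
theorem x012_pr : x012 ∈ pr := by
  change ∀ i, ((swap 0 1 * swap 1 2 : Perm (Fin 5)) i = 3 ∨ (swap 0 1 * swap 1 2 : Perm (Fin 5)) i = 4) ↔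
    (i = 3 ∨ i = 4)
  decide +kernel
theorem x0134_fx2 : x0134 ∈ fx 2 := by
  change (swap 0 1 * swap 3 4 : Perm (Fin 5)) 2 = 2
  decide +kernel
theorem x0134_fx4 : x0134 ∉ fx 4 := by
  change ¬ ((swap 0 1 * swap 3 4 : Perm (Fin 5)) 4 = 4)
  decide +kernel
theorem x0134_pr : x0134 ∈ pr := by
  change ∀ i, ((swap 0 1 * swap 3 4 : Perm (Fin 5)) i = 3 ∨ (swap 0 1 * swap 3 4 : Perm (Fin 5)) i = 4) ↔
    (i = 3 ∨ i = 4)
  decide +kernel

theorem x012_ne : x012 ≠ 1 := fun h => x012_fx2 (h ▸ one_mem _)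
theorem x0134_ne : x0134 ≠ 1 := fun h => x0134_fx4 (h ▸ one_mem _)
theorem x013_ne : x013 ≠ 1 := fun h => x013_pr (h ▸ one_mem _)

theorem ne_bot_of {D : Subgroup T} {x : T} (hx : x ∈ D) (h1 : x ≠ 1) : D ≠ ⊥ := by
  rintro rfl
  exact h1 (Subgroup.mem_bot.mp hx)

theorem ne_of {D D' : Subgroup T} {x : T} (hx : x ∈ D) (h1 : x ∉ D') : D ≠ D' := by
  rintro rfl
  exact h1 hx

theorem ne_top_of {D : Subgroup T} {x : T} (hx : x ∉ D) : D ≠ ⊤ := by
  rintro rfl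
  exact hx trivial

/-- the minimal group `A_3` on `0, 1, 3` -/
def D5 : Subgroup T := fx 2 ⊓ fx 4

theorem D5_elems : ∀ g : Perm (Fin 5), Perm.sign g = 1 → g 2 = 2 → g 4 = 4 →
    g = 1 ∨ g = swap 0 1 * swap 1 3 ∨ g = (swap 0 1 * swap 1 3) * (swap 0 1 * swap 1 3) := by
  decide +kernel

theorem D5_cube : ((swap (0 : Fin 5) 1 * swap 1 3) * (swap 0 1 * swap 1 3)) *
    ((swap 0 1 * swap 1 3) * (swap 0 1 * swap 1 3)) = swap 0 1 * swap 1 3 := by
  decide +kernel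

theorem D5_min {D : Subgroup T} (h : D ≤ D5) (hD : D ≠ ⊥) : D = D5 := by
  have key : ∀ g ∈ D5, g = 1 ∨ g = x013 ∨ g = x013 * x013 := by
    intro g hg
    rcases D5_elems g.1 (sign_coe g) hg.1 hg.2 with h | h | h
    · left; exact Subtype.ext h
    · right; left; exact Subtype.ext h
    · right; right; exact Subtype.ext h
  obtain ⟨g, hg, hg1⟩ : ∃ g ∈ D, g ≠ 1 := by
    by_contra hno
    apply hD
    rw [eq_bot_iff]
    intro g hg
    rw [Subgroup.mem_bot]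
    by_contra h1
    exact hno ⟨g, hg, h1⟩
  have hx : x013 ∈ D := by
    rcases key g (h hg) with h1 | h1 | h1
    · exact absurd h1 hg1
    · rwa [h1] at hg
    · have h2 : g * g = x013 := by
        rw [h1]
        exact Subtype.ext D5_cube
      rw [← h2]
      exact mul_mem hg hg
  apply le_antisymm h
  intro k hk
  rcases key k hk with h1 | h1 | h1
  · rw [h1]; exact one_mem D
  · rw [h1]; exact hx
  · rw [h1]; exact mul_mem hx hx

theorem trans2 : ∀ y y' : Fin 5, y ≠ 2 → y' ≠ 2 →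
    ∃ c : Perm (Fin 5), Perm.sign c = 1 ∧ c 2 = 2 ∧ c y = y' := by decide +kernel

theorem trans24 : ∀ y y' : Fin 5, y ≠ 2 → y ≠ 4 → y' ≠ 2 → y' ≠ 4 →
    ∃ c : Perm (Fin 5), Perm.sign c = 1 ∧ c 2 = 2 ∧ c 4 = 4 ∧ c y = y' := by decide +kernel

theorem fx2_max {D : Subgroup T} (h : fx 2 ≤ D) (hD : D ≠ ⊤) : D = fx 2 := by
  by_contra hne
  obtain ⟨g, hg, hg1⟩ : ∃ g ∈ D, g ∉ fx 2 := by
    by_contra hno
    apply hne
    apply le_antisymm _ h
    intro g hg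
    by_contra h1
    exact hno ⟨g, hg, h1⟩
  apply hD
  rw [eq_top_iff]
  intro k _
  by_cases hk : k ∈ fx 2
  · exact h hk
  · obtain ⟨c, hc0, hc1, hc2⟩ := trans2 (g.1 2) (k.1 2) hg1 hk
    have hc : ev c hc0 ∈ D := h hc1
    have h1 : (ev c hc0 * g)⁻¹ * k ∈ D := by
      apply h
      change (c * g.1)⁻¹ (k.1 2) = 2
      rw [Perm.inv_eq_iff_eq]
      exact hc2.symm
    have h2 := mul_mem (mul_mem hc hg) h1
    rwa [mul_inv_cancel_left] at h2

theorem D5_cov {D : Subgroup T} (h : D5 ≤ D) (h' : D ≤ fx 2) : D = D5 ∨ D = fx 2 := by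
  by_cases hne : D = D5
  · exact Or.inl hne
  right
  obtain ⟨g, hg, hg1⟩ : ∃ g ∈ D, g ∉ D5 := by
    by_contra hno
    apply hne
    apply le_antisymm _ h
    intro g hg
    by_contra h1
    exact hno ⟨g, hg, h1⟩
  have hg2 : g.1 2 = 2 := h' hg
  have hg4 : g.1 4 ≠ 4 := fun h4 => hg1 ⟨hg2, h4⟩
  apply le_antisymm h'
  intro k hk
  have hk2 : k.1 2 = 2 := hk
  by_cases hk4 : k.1 4 = 4
  · exact h ⟨hk2, hk4⟩
  · have a1 : g.1 4 ≠ 2 := by
      intro h4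
      have := g.1.injective (h4.trans hg2.symm)
      exact absurd this (by decide)
    have a2 : k.1 4 ≠ 2 := by
      intro h4
      have := k.1.injective (h4.trans hk2.symm)
      exact absurd this (by decide)
    obtain ⟨c, hc0, hc1, hc2, hc3⟩ := trans24 (g.1 4) (k.1 4) a1 hg4 a2 hk4
    have hc : ev c hc0 ∈ D := h ⟨hc1, hc2⟩
    have h1 : (ev c hc0 * g)⁻¹ * k ∈ D := by
      apply h
      constructor
      · change (c * g.1)⁻¹ (k.1 2) = 2
        rw [Perm.inv_eq_iff_eq, hk2]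
        change 2 = c (g.1 2)
        rw [hg2, hc1]
      · change (c * g.1)⁻¹ (k.1 4) = 4
        rw [Perm.inv_eq_iff_eq]
        exact hc3.symm
    have h2 := mul_mem (mul_mem hc hg) h1
    rwa [mul_inv_cancel_left] at h2

open Classical in
/-- the symmetric cochain supported on the edge `D5 < fx 2` -/
noncomputable def cb (x y : Subgroup T) : ZMod 2 :=
  if (x = D5 ∧ y = fx 2) ∨ (x = fx 2 ∧ y = D5) then 1 else 0

theorem fx2_ne_D5 : fx 2 ≠ D5 := ne_of x0134_fx2 fun h => x0134_fx4 h.2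

theorem cb_symm (x y : Subgroup T) : cb x y = cb y x := by
  unfold cb
  congr 1
  apply propext
  constructor
  · rintro (h | h)
    · exact Or.inr ⟨h.2, h.1⟩
    · exact Or.inl ⟨h.2, h.1⟩
  · rintro (h | h)
    · exact Or.inr ⟨h.2, h.1⟩
    · exact Or.inl ⟨h.2, h.1⟩

theorem cb_zero {x y : Subgroup T} (h : ¬ ((x = D5 ∧ y = fx 2) ∨ (x = fx 2 ∧ y = D5))) :
    cb x y = 0 := if_neg h

/-- the third element of a chain with the special edge -/
theorem third {z : Subgroup T} (hz0 : z ≠ ⊥) (hz1 : z ≠ ⊤) (h5 : z ≤ D5 ∨ D5 ≤ z)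
    (h4 : z ≤ fx 2 ∨ fx 2 ≤ z) : z = D5 ∨ z = fx 2 := by
  rcases h5 with h5 | h5
  · exact Or.inl (D5_min h5 hz0)
  · rcases h4 with h4 | h4
    · exact D5_cov h5 h4
    · exact Or.inr (fx2_max h4 hz1)

open Classical in
theorem cb_val (x y : Subgroup T) (hx : x = D5 ∨ x = fx 2) (hy : y = D5 ∨ y = fx 2) :
    cb x y = if x = y then 0 else 1 := by
  have h := fx2_ne_D5
  have h' := h.symm
  rcases hx with rfl | rfl <;> rcases hy with rfl | rfl <;> simp [cb, h, h']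

theorem cb_coc {x y z : Subgroup T} (hx0 : x ≠ ⊥) (hx1 : x ≠ ⊤) (hy0 : y ≠ ⊥) (hy1 : y ≠ ⊤)
    (hz0 : z ≠ ⊥) (hz1 : z ≠ ⊤) (hxy : x ≤ y ∨ y ≤ x) (hxz : x ≤ z ∨ z ≤ x)
    (hyz : y ≤ z ∨ z ≤ y) : cb y z + cb x z + cb x y = 0 := by
  classical
  have key : ∀ a b c : Subgroup T, c ≠ ⊥ → c ≠ ⊤ → (a ≤ c ∨ c ≤ a) → (b ≤ c ∨ c ≤ b) →
      ((a = D5 ∧ b = fx 2) ∨ (a = fx 2 ∧ b = D5)) → (c = D5 ∨ c = fx 2) := by
    intro a b c hc0 hc1 hac hbc h
    rcases h with ⟨rfl, rfl⟩ | ⟨rfl, rfl⟩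
    · exact third hc0 hc1 hac.symm hbc.symm
    · exact third hc0 hc1 hbc.symm hac.symm
  have two : ∀ a b : Subgroup T, ((a = D5 ∧ b = fx 2) ∨ (a = fx 2 ∧ b = D5)) →
      (a = D5 ∨ a = fx 2) ∧ (b = D5 ∨ b = fx 2) := by
    rintro a b (⟨rfl, rfl⟩ | ⟨rfl, rfl⟩) <;> simp
  have fin : (x = D5 ∨ x = fx 2) → (y = D5 ∨ y = fx 2) → (z = D5 ∨ z = fx 2) →
      cb y z + cb x z + cb x y = 0 := by
    intro hx hy hz
    have h := fx2_ne_D5
    have h' := h.symm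
    rw [cb_val _ _ hy hz, cb_val _ _ hx hz, cb_val _ _ hx hy]
    have e : (1 : ZMod 2) + 1 = 0 := by decide
    rcases hx with rfl | rfl <;> rcases hy with rfl | rfl <;> rcases hz with rfl | rfl <;>
      simp [h, h', e]
  by_cases h1 : (x = D5 ∧ y = fx 2) ∨ (x = fx 2 ∧ y = D5)
  · exact fin (two _ _ h1).1 (two _ _ h1).2 (key x y z hz0 hz1 hxz hyz h1)
  · by_cases h2 : (x = D5 ∧ z = fx 2) ∨ (x = fx 2 ∧ z = D5)
    · exact fin (two _ _ h2).1 (key x z y hy0 hy1 hxy hyz.symm h2) (two _ _ h2).2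
    · by_cases h3 : (y = D5 ∧ z = fx 2) ∨ (y = fx 2 ∧ z = D5)
      · exact fin (key y z x hx0 hx1 hxy.symm hxz.symm h3) (two _ _ h3).1 (two _ _ h3).2
      · rw [cb_zero h1, cb_zero h2, cb_zero h3]
        rfl

end Pool.Agent.W297.A5
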