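import Pool.Agent.H904R2.Sphere

/-! Detection of simplicial cycles in singular homology, for order complexes realised as sets of
functions. -/

set_option autoImplicit false
set_option linter.unusedSectionVars false

namespace Pool.Agent.W297.Det

open Finsupp
open Pool.Agent.H904R2 (Ch IsCyc IsBdy)
open Pool.Agent.Helper922.HB.Sc hiding Ch

section rhoO

variable {X : Type} [TopologicalSpace X] (𝒞 : Set (Set X)) (O : Set X)

theorem DD_sub (k : ℕ) (z : Sing X k →₀ ℤ) (hz : z ∈ Finsupp.supported ℤ ℤ (smallSet {O} k)) :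
    DD 𝒞 k z ∈ Finsupp.supported ℤ ℤ (smallSet {O} (k + 1)) := by
  refine supported_map _ (DD 𝒞 k) _ ?_ z hz
  intro σ hσ
  rw [DD_single]
  apply Submodule.sum_mem
  intro i _
  exact TS_small {O} k _ (Sd_iter_small {O} k i _ (single_mem_supported' hσ))

theorem rho_sub (k : ℕ) (z : Sing X k →₀ ℤ) (hz : z ∈ Finsupp.supported ℤ ℤ (smallSet {O} k)) :
    rho 𝒞 k z ∈ Finsupp.supported ℤ ℤ (smallSet {O} k) := by
  cases k with
  | zero => exact hz
  | succ k =>
    rw [rho_succ]
    exact Submodule.sub_mem _ (Submodule.sub_mem _ hz (sbd_small {O} _ _ (DD_sub 𝒞 O _ z hz)))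
      (DD_sub 𝒞 O _ _ (sbd_small {O} _ _ hz))

end rhoO

variable {α : Type} [Finite α] [PartialOrder α] (P : α → Prop)

/-- the realisation of the order complex of `P` -/
def Rz : Set (α → ℝ) :=
  {f | (∀ L, 0 ≤ f L) ∧ (∀ L, f L ≠ 0 → P L) ∧ IsChain (· ≤ ·) {L : α | f L ≠ 0} ∧
    ∑ᶠ L, f L = 1}

/-- good tuples -/
def gd {n : ℕ} (t : Fin (n + 1) → α) : Prop := (∀ i, P (t i)) ∧ ∀ i j, t i ≤ t j ∨ t j ≤ t i

open Classical in
/-- the function of a point of the simplex on a tuple -/
noncomputable def sf {n : ℕ} (t : Fin (n + 1) → α) (s : Fin (n + 1) → ℝ) (L : α) : ℝ :=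
  ∑ i, s i * (if t i = L then 1 else 0)

variable {P}

theorem sf_ne {n : ℕ} {t : Fin (n + 1) → α} {s : Fin (n + 1) → ℝ} {L : α} (h : sf t s L ≠ 0) :
    ∃ i, t i = L := by
  by_contra hno
  apply h
  unfold sf
  apply Finset.sum_eq_zero
  intro i _
  rw [if_neg (fun he => hno ⟨i, he⟩), mul_zero]

theorem sf_mem {n : ℕ} {t : Fin (n + 1) → α} (ht : gd P t) (s : Dl n) : sf t s.1 ∈ Rz P := by
  classical
  refine ⟨?_, ?_, ?_, ?_⟩
  · intro L
    unfold sf
    apply Finset.sum_nonneg
    intro i _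
    apply mul_nonneg (s.2.1 i)
    split_ifs <;> norm_num
  · intro L hL
    obtain ⟨i, rfl⟩ := sf_ne hL
    exact ht.1 i
  · intro L hL L' hL' _
    obtain ⟨i, rfl⟩ := sf_ne hL
    obtain ⟨j, rfl⟩ := sf_ne hL'
    exact ht.2 i j
  · have : Fintype α := Fintype.ofFinite α
    rw [finsum_eq_sum_of_fintype]
    unfold sf
    rw [Finset.sum_comm]
    have h1 : ∀ i, ∑ L : α, s.1 i * (if t i = L then (1 : ℝ) else 0) = s.1 i := by
      intro i
      rw [Finset.sum_eq_single (t i)]
      · rw [if_pos rfl, mul_one]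
      · intro b _ hb
        rw [if_neg (Ne.symm hb), mul_zero]
      · intro h
        exact absurd (Finset.mem_univ _) h
    rw [Finset.sum_congr rfl fun i _ => h1 i]
    exact s.2.2

theorem continuous_sf {n : ℕ} (t : Fin (n + 1) → α) : Continuous (fun s : Dl n => sf t s.1) := by
  unfold sf
  refine continuous_pi fun L => continuous_finsetSum _ fun i _ => ?_
  exact ((continuous_apply i).comp continuous_subtype_val).mul continuous_const

/-- the affine simplex of a good tuple -/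
noncomputable def sx {n : ℕ} (t : Fin (n + 1) → α) (ht : gd P t) : Sing (Rz P) n :=
  ⟨fun s => ⟨sf t s.1, sf_mem ht s⟩, (continuous_sf t).subtype_mk _⟩

theorem gd_face {n : ℕ} {t : Fin (n + 2) → α} (ht : gd P t) (i : Fin (n + 2)) :
    gd P (tface α n i t) := ⟨fun j => ht.1 _, fun j k => ht.2 _ _⟩

theorem vert_sum {n : ℕ} (m : Fin (n + 1)) (g : Fin (n + 1) → ℝ) :
    ∑ k, (vert n m).1 k * g k = g m := by
  rw [Finset.sum_eq_single m]
  · rw [vert_self, one_mul]
  · intro b _ hb
    rw [vert_ne n m b hb, zero_mul]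
  · intro h
    exact absurd (Finset.mem_univ _) h

theorem sface_sx {n : ℕ} (t : Fin (n + 2) → α) (ht : gd P t) (i : Fin (n + 2)) :
    sface n i (sx t ht) = sx (tface α n i t) (gd_face ht i) := by
  rw [sface_eq]
  apply ContinuousMap.ext
  intro s
  apply Subtype.ext
  funext L
  change sf t (aff (fun j => vert (n + 1) (i.succAbove j)) s).1 L = sf (tface α n i t) s.1 L
  unfold sf
  rw [aff_coe]
  have h1 : ∀ k : Fin (n + 2), (∑ j, s.1 j • (vert (n + 1) (i.succAbove j)).1) k =
      ∑ j, s.1 j * (vert (n + 1) (i.succAbove j)).1 k := by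
    intro k
    rw [Finset.sum_apply]
    rfl
  simp only [h1, Finset.sum_mul]
  rw [Finset.sum_comm]
  refine Finset.sum_congr rfl fun j _ => ?_
  simp only [mul_assoc]
  rw [← Finset.mul_sum, vert_sum]
  rfl

variable (P) in
open Classical in
/-- the chain map to singular chains -/
noncomputable def A (n : ℕ) : ((Fin (n + 1) → α) →₀ ℤ) →ₗ[ℤ] Ch (Rz P) n :=
  Finsupp.linearCombination ℤ (fun t => if h : gd P t then single (sx t h) (1 : ℤ) else 0)

theorem A_single {n : ℕ} {t : Fin (n + 1) → α} (ht : gd P t) :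
    A P n (single t 1) = single (sx t ht) 1 := by
  classical
  rw [A, linearCombination_single, one_smul, dif_pos ht]

variable (P) in
/-- chains on good tuples -/
noncomputable abbrev gs (n : ℕ) : Submodule ℤ ((Fin (n + 1) → α) →₀ ℤ) :=
  Finsupp.supported ℤ ℤ {t | gd P t}

theorem tbd_gs {n : ℕ} {z : (Fin (n + 2) → α) →₀ ℤ} (hz : z ∈ gs P (n + 1)) :
    tbd α n z ∈ gs P n := by
  refine supported_map _ (tbd α n) _ ?_ z hz
  intro t ht
  rw [tbd_single]
  apply Submodule.sum_mem
  intro i _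
  apply Submodule.smul_mem
  exact single_mem_supported' (gd_face ht i)

theorem sbd_A {n : ℕ} {z : (Fin (n + 2) → α) →₀ ℤ} (hz : z ∈ gs P (n + 1)) :
    sbd (Rz P) n (A P (n + 1) z) = A P n (tbd α n z) := by
  have := supported_map {t : Fin (n + 2) → α | gd P t}
    ((sbd (Rz P) n).comp (A P (n + 1)) - (A P n).comp (tbd α n)) ⊥ (by
      intro t ht
      rw [LinearMap.sub_apply, LinearMap.comp_apply, LinearMap.comp_apply, A_single ht, sbd,
        bd_single, tbd_single, map_sum, Submodule.mem_bot, sub_eq_zero]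
      refine Finset.sum_congr rfl fun i _ => ?_
      rw [map_smul, A_single (gd_face ht i), sface_sx]) z hz
  rw [Submodule.mem_bot, LinearMap.sub_apply, sub_eq_zero] at this
  exact this

/-! ### vertices -/

variable (α) in
/-- the threshold -/
noncomputable def thr : ℝ := (Nat.card α : ℝ)⁻¹

theorem nonempty_of (f : Rz P) : Nonempty α := by
  by_contra h
  rw [not_nonempty_iff] at h
  have := f.2.2.2.2
  rw [finsum_of_isEmpty] at this
  exact zero_ne_one this

theorem thr_pos (f : Rz P) : 0 < thr α := by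
  have := nonempty_of f
  unfold thr
  have h : 0 < Nat.card α := Nat.card_pos
  positivity

theorem exists_big (f : Rz P) : ∃ L, thr α ≤ f.1 L := by
  have := nonempty_of f
  have : Fintype α := Fintype.ofFinite α
  have h1 : ∑ _L : α, thr α ≤ ∑ L : α, f.1 L := by
    have h2 := f.2.2.2.2
    rw [finsum_eq_sum_of_fintype] at h2
    rw [h2, Finset.sum_const, Finset.card_univ, nsmul_eq_mul, thr, Nat.card_eq_fintype_card]
    rw [mul_inv_cancel₀]
    have : 0 < Fintype.card α := Fintype.card_pos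
    positivity
  obtain ⟨L, _, hL⟩ := Finset.exists_le_of_sum_le Finset.univ_nonempty h1
  exact ⟨L, hL⟩

noncomputable def vv (f : Rz P) : α := (exists_big f).choose

theorem vv_spec (f : Rz P) : thr α ≤ f.1 (vv f) := (exists_big f).choose_spec

theorem vv_ne (f : Rz P) : f.1 (vv f) ≠ 0 := ((thr_pos f).trans_le (vv_spec f)).ne'

variable (P) in
/-- the cover by open stars -/
def Cv : Set (Set (Rz P)) :=
  {C | ∃ s : Set α, (∀ L ∈ s, P L) ∧ IsChain (· ≤ ·) s ∧ C = {y | ∀ L, L ∉ s → y.1 L < thr α}}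

theorem Cv_open : ∀ C ∈ Cv P, IsOpen C := by
  rintro C ⟨s, _, _, rfl⟩
  have : {y : Rz P | ∀ L, L ∉ s → y.1 L < thr α} =
      ⋂ L : α, ⋂ _ : L ∉ s, {y : Rz P | y.1 L < thr α} := by
    ext y
    simp only [Set.mem_ofPred_eq, Set.mem_iInter]
  rw [this]
  refine isOpen_iInter_of_finite fun L => isOpen_iInter_of_finite fun _ => ?_
  exact isOpen_lt ((continuous_apply L).comp continuous_subtype_val) continuous_const

theorem Cv_cover (y : Rz P) : ∃ C ∈ Cv P, y ∈ C := by
  refine ⟨_, ⟨{L | y.1 L ≠ 0}, y.2.2.1, y.2.2.2.1, rfl⟩, ?_⟩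
  intro L hL
  have : y.1 L = 0 := by
    by_contra h
    exact hL h
  rw [this]
  exact thr_pos y

variable (P) in
/-- the tuple of vertices of a singular simplex -/
noncomputable def vt (n : ℕ) : Ch (Rz P) n →ₗ[ℤ] ((Fin (n + 1) → α) →₀ ℤ) :=
  Finsupp.lmapDomain ℤ ℤ (fun σ i => vv (σ (vert n i)))

theorem vt_single (n : ℕ) (σ : Sing (Rz P) n) (a : ℤ) :
    vt P n (single σ a) = single (fun i => vv (σ (vert n i))) a := by
  simp [vt]

theorem vt_sbd (n : ℕ) (z : Ch (Rz P) (n + 1)) :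
    vt P n (sbd (Rz P) n z) = tbd α n (vt P (n + 1) z) := by
  have : (vt P n).comp (sbd (Rz P) n) = (tbd α n).comp (vt P (n + 1)) := by
    apply Finsupp.lhom_ext'
    intro σ
    apply LinearMap.ext_ring
    simp only [LinearMap.comp_apply, lsingle_apply]
    rw [vt_single, sbd, bd_single, tbd_single, map_sum]
    refine Finset.sum_congr rfl fun i _ => ?_
    rw [map_smul, vt_single]
    congr 2
    funext j
    rw [sface_eq, ContinuousMap.comp_apply, aff_vert]
    rfl
  exact LinearMap.congr_fun this z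

theorem vt_small {n : ℕ} {z : Ch (Rz P) n}
    (hz : z ∈ Finsupp.supported ℤ ℤ (smallSet (Cv P) n)) : vt P n z ∈ gs P n := by
  refine supported_map _ (vt P n) _ ?_ z hz
  rintro σ ⟨C, ⟨s, hs1, hs2, rfl⟩, hσ⟩
  rw [vt_single]
  apply single_mem_supported'
  have key : ∀ x, vv (σ x) ∈ s := by
    intro x
    by_contra h
    have h1 : (σ x).1 (vv (σ x)) < thr α := hσ ⟨x, rfl⟩ _ h
    exact absurd (vv_spec (σ x)) (not_le.mpr h1)
  refine ⟨fun i => hs1 _ (key _), fun i j => ?_⟩
  exact hs2.total (key _) (key _)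

/-- simplices with support in the range of a tuple -/
def OO {n : ℕ} (t : Fin (n + 1) → α) : Set (Rz P) := {y | ∀ L, y.1 L ≠ 0 → ∃ j, t j = L}

/-- tuples with entries in the range of `t` -/
def car {n : ℕ} (t : Fin (n + 1) → α) (m : ℕ) : Set (Fin (m + 1) → α) :=
  {t' | ∀ i, ∃ j, t j = t' i}

theorem vt_OO {n m : ℕ} (t : Fin (n + 1) → α) {z : Ch (Rz P) m}
    (hz : z ∈ Finsupp.supported ℤ ℤ (smallSet {OO t} m)) :
    vt P m z ∈ Finsupp.supported ℤ ℤ (car t m) := by
  refine supported_map _ (vt P m) _ ?_ z hz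
  rintro σ ⟨C, hC, hσ⟩
  rw [Set.mem_singleton_iff] at hC
  subst hC
  rw [vt_single]
  apply single_mem_supported'
  intro i
  exact hσ ⟨_, rfl⟩ _ (vv_ne _)

variable (P) in
/-- the comparison map -/
noncomputable def Th (n : ℕ) : ((Fin (n + 1) → α) →₀ ℤ) →ₗ[ℤ] ((Fin (n + 1) → α) →₀ ℤ) :=
  (vt P n).comp ((rho (Cv P) n).comp (A P n))

theorem Th_apply (n : ℕ) (z : (Fin (n + 1) → α) →₀ ℤ) :
    Th P n z = vt P n (rho (Cv P) n (A P n z)) := rfl

theorem Th_car {n : ℕ} {t : Fin (n + 1) → α} (ht : gd P t) :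
    Th P n (single t 1) ∈ Finsupp.supported ℤ ℤ (car t n) := by
  rw [Th_apply, A_single ht]
  apply vt_OO t
  apply rho_sub
  apply single_mem_supported'
  refine ⟨_, rfl, ?_⟩
  rintro _ ⟨x, rfl⟩ L hL
  exact sf_ne hL

theorem tbd_Th {n : ℕ} {z : (Fin (n + 2) → α) →₀ ℤ} (hz : z ∈ gs P (n + 1)) :
    tbd α n (Th P (n + 1) z) = Th P n (tbd α n z) := by
  rw [Th_apply, Th_apply, ← vt_sbd, sbd_rho, sbd_A hz]

theorem Th_zero {z : (Fin 1 → α) →₀ ℤ} (hz : z ∈ gs P 0) : Th P 0 z = z := by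
  have := supported_map {t : Fin 1 → α | gd P t} (Th P 0 - LinearMap.id) ⊥ (by
      intro t ht
      rw [LinearMap.sub_apply, LinearMap.id_apply, Th_apply, A_single ht]
      change vt P 0 (single (sx t ht) 1) - _ ∈ _
      rw [vt_single, Submodule.mem_bot, sub_eq_zero]
      congr 1
      funext i
      have h1 := vv_ne (sx t ht (vert 0 i))
      change sf t (vert 0 i).1 _ ≠ 0 at h1
      obtain ⟨j, hj⟩ := sf_ne h1
      rw [← hj]
      congr 1
      exact Subsingleton.elim _ _) z hz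
  rw [Submodule.mem_bot, LinearMap.sub_apply, sub_eq_zero] at this
  exact this

variable (P) in
/-- the homotopy -/
noncomputable def hh : ∀ n, ((Fin (n + 1) → α) →₀ ℤ) →ₗ[ℤ] ((Fin (n + 2) → α) →₀ ℤ)
  | 0 => 0
  | (n + 1) => Finsupp.linearCombination ℤ (fun t => tcone (n + 1) (t 0)
      (Th P (n + 1) (single t 1) - single t 1 - hh n (tbd α n (single t 1))))

theorem hh_succ (n : ℕ) (t : Fin (n + 2) → α) : hh P (n + 1) (single t 1) =
    tcone (n + 1) (t 0) (Th P (n + 1) (single t 1) - single t 1 -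
      hh P n (tbd α n (single t 1))) := by
  rw [hh, linearCombination_single, one_smul]

theorem hh_spec (n : ℕ) : ∀ z ∈ gs P (n + 1), tbd α (n + 1) (hh P (n + 1) z) =
    Th P (n + 1) z - z - hh P n (tbd α n z) := by
  have red : ∀ n, (∀ t : Fin (n + 2) → α, gd P t → tbd α n (Th P (n + 1) (single t 1) -
      single t 1 - hh P n (tbd α n (single t 1))) = 0) → ∀ z ∈ gs P (n + 1),
      tbd α (n + 1) (hh P (n + 1) z) = Th P (n + 1) z - z - hh P n (tbd α n z) := by
    intro n h z hz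
    have := supported_map {t : Fin (n + 2) → α | gd P t}
      ((tbd α (n + 1)).comp (hh P (n + 1)) - (Th P (n + 1) - LinearMap.id -
        (hh P n).comp (tbd α n))) ⊥ (by
        intro t ht
        simp only [LinearMap.sub_apply, LinearMap.comp_apply, LinearMap.id_apply]
        rw [hh_succ, tbd_tcone_succ, h t ht, map_zero, sub_zero, sub_self]
        exact Submodule.zero_mem _) z hz
    rw [Submodule.mem_bot] at this
    simp only [LinearMap.sub_apply, LinearMap.comp_apply, LinearMap.id_apply] at this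
    exact sub_eq_zero.mp this
  induction n with
  | zero =>
    apply red
    intro t ht
    have h1 : single t (1 : ℤ) ∈ gs P 1 := single_mem_supported' ht
    rw [map_sub, map_sub, tbd_Th h1, Th_zero (tbd_gs h1), sub_self, zero_sub]
    change - tbd α 0 ((0 : _ →ₗ[ℤ] _) _) = 0
    rw [LinearMap.zero_apply, map_zero, neg_zero]
  | succ n ih =>
    apply red
    intro t ht
    have h1 : single t (1 : ℤ) ∈ gs P (n + 2) := single_mem_supported' ht
    have h2 := tbd_gs h1
    rw [map_sub, map_sub, tbd_Th h1, ih _ h2, tbd_tbd, map_zero, sub_zero, sub_self]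

theorem hh_car (n : ℕ) : ∀ (t : Fin (n + 1) → α), gd P t → hh P n (single t 1) ∈
    Finsupp.supported ℤ ℤ (car t (n + 1)) := by
  induction n with
  | zero => intro t _; exact Submodule.zero_mem _
  | succ n ih =>
    intro t ht
    rw [hh_succ]
    have h1 : ∀ z ∈ Finsupp.supported ℤ ℤ (car t (n + 1)),
        tcone (n + 1) (t 0) z ∈ Finsupp.supported ℤ ℤ (car t (n + 2)) := by
      intro z hz
      refine supported_map _ (tcone (n + 1) (t 0)) _ ?_ z hz
      intro t' ht'
      rw [tcone_single]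
      apply single_mem_supported'
      intro i
      refine Fin.cases ?_ (fun j => ?_) i
      · exact ⟨0, rfl⟩
      · exact ht' j
    apply h1
    refine Submodule.sub_mem _ (Submodule.sub_mem _ (Th_car ht) ?_) ?_
    · apply single_mem_supported'
      intro i
      exact ⟨i, rfl⟩
    · rw [tbd_single, map_sum]
      apply Submodule.sum_mem
      intro i _
      rw [map_smul]
      apply Submodule.smul_mem
      refine Finsupp.supported_mono ?_ (ih _ (gd_face ht i))
      intro t' ht' k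
      obtain ⟨j, hj⟩ := ht' k
      exact ⟨_, hj⟩

theorem car_gd {n m : ℕ} {t : Fin (n + 1) → α} (ht : gd P t) {t' : Fin (m + 1) → α}
    (h : t' ∈ car t m) : gd P t' := by
  refine ⟨fun i => ?_, fun i j => ?_⟩
  · obtain ⟨k, hk⟩ := h i
    rw [← hk]
    exact ht.1 k
  · obtain ⟨k, hk⟩ := h i
    obtain ⟨l, hl⟩ := h j
    rw [← hk, ← hl]
    exact ht.2 k l

theorem hh_gs {n : ℕ} {z : (Fin (n + 1) → α) →₀ ℤ} (hz : z ∈ gs P n) :
    hh P n z ∈ gs P (n + 1) := by
  refine supported_map _ (hh P n) _ ?_ z hz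
  intro t ht
  exact Finsupp.supported_mono (fun t' ht' => car_gd ht ht') (hh_car n t ht)

/-- **detection** -/
theorem not_bdy {n : ℕ} {z : (Fin (n + 2) → α) →₀ ℤ} (hz : z ∈ gs P (n + 1))
    (hz0 : tbd α n z = 0) (c : (Fin (n + 2) → α) → ZMod 2)
    (hc : ∀ t : Fin (n + 3) → α, gd P t →
      Finsupp.linearCombination ℤ c (tbd α (n + 1) (single t 1)) = 0)
    (hcz : Finsupp.linearCombination ℤ c z ≠ 0) : ¬ IsBdy (n + 1) (A P (n + 1) z) := by
  rintro ⟨Y, hY⟩
  have hc' : ∀ w ∈ gs P (n + 2), Finsupp.linearCombination ℤ c (tbd α (n + 1) w) = 0 := by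
    intro w hw
    have := supported_map {t : Fin (n + 3) → α | gd P t}
      ((Finsupp.linearCombination ℤ c).comp (tbd α (n + 1))) ⊥ (by
        intro t ht
        rw [LinearMap.comp_apply, hc t ht]
        exact Submodule.zero_mem _) w hw
    simpa using this
  have h1 : Th P (n + 1) z = tbd α (n + 1) (vt P (n + 2) (rho (Cv P) (n + 2) Y)) := by
    rw [Th_apply, ← hY, ← vt_sbd, sbd_rho]
  have h2 : vt P (n + 2) (rho (Cv P) (n + 2) Y) ∈ gs P (n + 2) :=
    vt_small (rho_small (Cv P) Cv_open Cv_cover _ _)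
  have h3 := hh_spec n z hz
  rw [hz0, map_zero, sub_zero] at h3
  apply hcz
  have h4 : z = Th P (n + 1) z - tbd α (n + 1) (hh P (n + 1) z) := by
    rw [h3]; abel
  rw [h4, map_sub, hc' _ (hh_gs hz), h1, hc' _ h2, sub_zero]

/-- a torsion class -/
theorem torsion {n : ℕ} {z : (Fin (n + 2) → α) →₀ ℤ} (hz : z ∈ gs P (n + 1))
    {W : (Fin (n + 3) → α) →₀ ℤ} (hW : W ∈ gs P (n + 2)) (hz0 : tbd α n z = 0)
    (hzW : tbd α (n + 1) W = (2 : ℤ) • z) :
    IsCyc (n + 1) (A P (n + 1) z) ∧ IsBdy (n + 1) ((2 : ℤ) • A P (n + 1) z) := by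
  constructor
  · change sbd (Rz P) n _ = 0
    rw [sbd_A hz, hz0, map_zero]
  · refine ⟨A P (n + 2) W, ?_⟩
    rw [sbd_A hW, hzW, map_smul]

end Pool.Agent.W297.Det
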