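import Pool.Agent.W297.Tw

/-! The group: definitions. -/

set_option autoImplicit false
set_option linter.unusedSectionVars false

namespace Pool.Agent.W297

section defs

variable {V : Type} [Fintype V] [DecidableEq V]

abbrev Ix (V : Type) : Type := V × V × Bool
abbrev Xx (V : Type) : Type := Ix V → ZMod 2
abbrev UA (V : Type) : Type := V → Xx V → E4
abbrev UB (V : Type) : Type := Xx V → ZMod 2

def dd (i : Ix V) : Xx V := Pi.single i 1

theorem dd_inj {i j : Ix V} (h : dd i = dd j) : i = j := by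
  by_contra hne
  have := congrFun h i
  simp only [dd, Pi.single_eq_same] at this
  rw [Pi.single_eq_of_ne hne] at this
  exact one_ne_zero this

theorem xx_self (x : Xx V) : x + x = 0 := by
  funext i
  exact CharTwo.add_self_eq_zero _

theorem xx_add_eq_zero {x y : Xx V} (h : x + y = 0) : x = y := by
  have : x + y + y = y := by rw [h, zero_add]
  rwa [add_assoc, xx_self, add_zero] at this

open Classical in
noncomputable def betf (R : V → V → Prop) (u w : UA V) (x : Xx V) : ZMod 2 :=
  ∑ i : Ix V, if R i.1 i.2.1 then om (Cs i.2.2 (u i.1 (x + dd i))) (w i.2.1 (x + dd i)) else 0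

noncomputable def bet (R : V → V → Prop) : UA V →+ UA V →+ UB V :=
  AddMonoidHom.mk' (fun u => AddMonoidHom.mk' (fun w => betf R u w) (by
    intro w w'
    funext x
    change betf R u (w + w') x = betf R u w x + betf R u w' x
    simp only [betf, Pi.add_apply, om_add_right, ← Finset.sum_add_distrib]
    refine Finset.sum_congr rfl fun i _ => ?_
    split_ifs <;> simp)) (by
    intro u u'
    apply AddMonoidHom.ext
    intro w
    funext x
    change betf R (u + u') w x = betf R u w x + betf R u' w x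
    simp only [betf, Pi.add_apply, Cs_add, om_add_left, ← Finset.sum_add_distrib]
    refine Finset.sum_congr rfl fun i _ => ?_
    split_ifs <;> simp)

theorem bet_apply (R : V → V → Prop) (u w : UA V) : bet R u w = betf R u w := rfl

/-- the group `N` -/
abbrev NN (R : V → V → Prop) : Type := Tw (bet R)

variable (R : V → V → Prop)

/-- the automorphism `O` at the point `0` -/
def Oa : UA V ≃+ UA V where
  toFun u v x := if x = 0 then Cm (u v x) else u v x
  invFun u v x := if x = 0 then Cm (Cm (u v x)) else u v x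
  left_inv u := by
    funext v x
    by_cases h : x = 0
    · simp only [if_pos h, Cm_three]
    · simp only [if_neg h]
  right_inv u := by
    funext v x
    by_cases h : x = 0
    · simp only [if_pos h, Cm_three]
    · simp only [if_neg h]
  map_add' u w := by
    funext v x
    by_cases h : x = 0
    · simp only [if_pos h, Pi.add_apply, Cm_add]
    · simp only [if_neg h, Pi.add_apply]

theorem Oa_apply (u : UA V) (v : V) (x : Xx V) :
    Oa u v x = if x = 0 then Cm (u v x) else u v x := rfl

/-- translations -/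
def Ta (y : Xx V) : UA V ≃+ UA V where
  toFun u v x := u v (x + y)
  invFun u v x := u v (x + y)
  left_inv u := by
    funext v x
    simp only [add_assoc, xx_self, add_zero]
  right_inv u := by
    funext v x
    simp only [add_assoc, xx_self, add_zero]
  map_add' u w := rfl

def Tb (y : Xx V) : UB V ≃+ UB V where
  toFun u x := u (x + y)
  invFun u x := u (x + y)
  left_inv u := by
    funext x
    simp only [add_assoc, xx_self, add_zero]
  right_inv u := by
    funext x
    simp only [add_assoc, xx_self, add_zero]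
  map_add' u w := rfl

theorem Oa_bet (u w : UA V) : bet R u w = bet R (Oa u) (Oa w) := by
  funext x
  simp only [bet_apply, betf]
  refine Finset.sum_congr rfl fun i _ => ?_
  split_ifs with h
  · simp only [Oa_apply]
    by_cases h0 : x + dd i = 0
    · simp only [if_pos h0, Cs_Cm, om_Cm]
    · simp only [if_neg h0]
  · rfl

theorem Ta_bet (y : Xx V) (u w : UA V) : Tb y (bet R u w) = bet R (Ta y u) (Ta y w) := by
  funext x
  change betf R u w (x + y) = betf R (Ta y u) (Ta y w) x
  simp only [betf]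
  refine Finset.sum_congr rfl fun i _ => ?_
  have : x + y + dd i = x + dd i + y := by abel
  rw [this]
  rfl

noncomputable def kO : NN R ≃* NN R := Tw.aut Oa (AddEquiv.refl _) (Oa_bet R)

noncomputable def kT (y : Xx V) : NN R ≃* NN R := Tw.aut (Ta y) (Tb y) (Ta_bet R y)

theorem kO_a (n : NN R) : (kO R n).a = Oa n.a := rfl
theorem kO_b (n : NN R) : (kO R n).b = n.b := rfl
theorem kT_a (y : Xx V) (n : NN R) : (kT R y n).a = Ta y n.a := rfl
theorem kT_b (y : Xx V) (n : NN R) : (kT R y n).b = Tb y n.b := rfl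

/-- the central involution -/
def zz : NN R := ⟨0, fun _ => 1⟩

theorem zz_comm (n : NN R) : zz R * n = n * zz R := by
  ext1
  · simp only [Tw.mul_a, zz, zero_add, add_zero]
  · simp only [Tw.mul_b, zz, map_zero, AddMonoidHom.zero_apply, add_zero]
    rw [add_comm]

theorem zz_sq : zz R * zz R = 1 := by
  ext1
  · simp only [Tw.mul_a, zz, add_zero, Tw.one_a]
  · simp only [Tw.mul_b, zz, map_zero, add_zero, Tw.one_b]
    funext x
    exact CharTwo.add_self_eq_zero (1 : ZMod 2)

theorem zz_inv : (zz R)⁻¹ = zz R := inv_eq_of_mul_eq_one_left (zz_sq R)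

theorem kO_zz : kO R (zz R) = zz R := by
  ext1
  · exact Oa.map_zero
  · rfl

theorem kT_zz (y : Xx V) : kT R y (zz R) = zz R := rfl

/-- independent sets -/
def Ind (σ : Finset V) : Prop := ∀ a ∈ σ, ∀ b ∈ σ, ¬ R a b

/-- the elements with support in `σ` -/
def Us (σ : Finset V) : Set (NN R) := {u | u.b = 0 ∧ ∀ v, v ∉ σ → u.a v = 0}

variable {R}

theorem bet_zero_of {σ : Finset V} (hσ : Ind R σ) {u w : UA V} (hu : ∀ v, v ∉ σ → u v = 0)
    (hw : ∀ v, v ∉ σ → w v = 0) : bet R u w = 0 := by
  funext x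
  simp only [bet_apply, betf, Pi.zero_apply]
  apply Finset.sum_eq_zero
  intro i _
  split_ifs with h
  · by_cases h1 : i.1 ∈ σ
    · have h2 : i.2.1 ∉ σ := fun h2 => hσ _ h1 _ h2 h
      rw [hw _ h2]
      simp [om]
    · rw [hu _ h1]
      cases i.2.2 <;> simp [om, Cs, Cm]
  · rfl

theorem Us_one (σ : Finset V) : (1 : NN R) ∈ Us R σ := ⟨rfl, fun _ _ => rfl⟩

theorem Us_mul {σ : Finset V} (hσ : Ind R σ) {u w : NN R} (hu : u ∈ Us R σ) (hw : w ∈ Us R σ) :
    u * w ∈ Us R σ := by
  refine ⟨?_, ?_⟩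
  · rw [Tw.mul_b, hu.1, hw.1, bet_zero_of hσ hu.2 hw.2]
    simp
  · intro v hv
    rw [Tw.mul_a, Pi.add_apply, hu.2 v hv, hw.2 v hv, add_zero]

theorem Us_inv {σ : Finset V} (hσ : Ind R σ) {u : NN R} (hu : u ∈ Us R σ) :
    u⁻¹ ∈ Us R σ := by
  refine ⟨?_, ?_⟩
  · rw [Tw.inv_b, hu.1, bet_zero_of hσ hu.2 hu.2]
    simp
  · intro v hv
    rw [Tw.inv_a, Pi.neg_apply, hu.2 v hv, neg_zero]

theorem Us_mono {σ σ' : Finset V} (h : σ ⊆ σ') : Us R σ ⊆ Us R σ' :=
  fun _ hu => ⟨hu.1, fun v hv => hu.2 v fun hv' => hv (h hv')⟩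

theorem zz_not_Us (σ : Finset V) : zz R ∉ Us R σ := by
  intro h
  have := congrFun h.1 0
  simp [zz] at this

theorem kO_Us (σ : Finset V) (u : NN R) : kO R u ∈ Us R σ ↔ u ∈ Us R σ := by
  unfold Us
  simp only [Set.mem_ofPred_eq, kO_b, kO_a]
  refine and_congr Iff.rfl (forall_congr' fun v => forall_congr' fun _ => ?_)
  constructor
  · intro h
    funext x
    have h1 := congrFun h x
    rw [Oa_apply] at h1
    split_ifs at h1 with h2
    · have h3 := congrArg (fun e => Cm (Cm e)) h1
      simp only [Cm_three] at h3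
      exact h3
    · exact h1
  · intro h
    funext x
    rw [Oa_apply, h]
    split_ifs <;> rfl

theorem kT_Us (y : Xx V) (σ : Finset V) (u : NN R) : kT R y u ∈ Us R σ ↔ u ∈ Us R σ := by
  unfold Us
  simp only [Set.mem_ofPred_eq, kT_b, kT_a]
  refine and_congr ?_ (forall_congr' fun v => forall_congr' fun _ => ?_)
  · exact (Tb y).map_eq_zero_iff
  · constructor
    · intro h
      funext x
      have h1 := congrFun h (x + y)
      change u.a v (x + y + y) = 0 at h1
      rwa [add_assoc, xx_self, add_zero] at h1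
    · intro h
      funext x
      change u.a v (x + y) = 0
      rw [h]
      rfl

end defs

section group

variable {V : Type} [Fintype V] [DecidableEq V] (R : V → V → Prop)
variable {T : Type} [Group T] (τ : T ≃* T)

theorem ppi {S : Type} (π : Equiv.Perm S) (n : S) : π (π⁻¹ n) = n := π.apply_symm_apply n

theorem pip {S : Type} (π : Equiv.Perm S) (n : S) : π⁻¹ (π n) = n := π.symm_apply_apply n

/-- equivariant functions -/
def NT : Subgroup (NN R → T) where
  carrier := {f | ∀ n, f (zz R * n) = τ (f n)}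
  one_mem' := fun n => by simp
  mul_mem' := fun {f g} hf hg n => by
    simp only [Pi.mul_apply, map_mul]
    rw [hf n, hg n]
  inv_mem' := fun {f} hf n => by
    simp only [Pi.inv_apply, map_inv]
    rw [hf n]

/-- the acting group -/
def Gm : Subgroup (Equiv.Perm (NN R)) where
  carrier := {π | (∀ n, π (zz R * n) = zz R * π n) ∧
    ∀ σ, Ind R σ → ∀ m n, (m⁻¹ * n ∈ Us R σ ↔ (π m)⁻¹ * π n ∈ Us R σ)}
  one_mem' := ⟨fun _ => rfl, fun _ _ _ _ => Iff.rfl⟩
  mul_mem' := fun {π ρ} hπ hρ => ⟨fun n => by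
    rw [Equiv.Perm.mul_apply, Equiv.Perm.mul_apply, hρ.1, hπ.1], fun σ hσ m n =>
      (hρ.2 σ hσ m n).trans (hπ.2 σ hσ _ _)⟩
  inv_mem' := fun {π} hπ => ⟨fun n => by
    rw [Equiv.Perm.inv_eq_iff_eq, hπ.1, ppi], fun σ hσ m n => by
      have := hπ.2 σ hσ (π⁻¹ m) (π⁻¹ n)
      rw [ppi, ppi] at this
      exact this.symm⟩

variable {R τ}

/-- automorphisms in the acting group -/
theorem aut_mem_Gm (k : NN R ≃* NN R) (hz : k (zz R) = zz R)
    (hU : ∀ σ u, k u ∈ Us R σ ↔ u ∈ Us R σ) : k.toEquiv ∈ Gm R := by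
  refine ⟨fun n => ?_, fun σ _ m n => ?_⟩
  · change k (zz R * n) = zz R * k n
    rw [map_mul, hz]
  · change _ ↔ (k m)⁻¹ * k n ∈ Us R σ
    rw [← map_inv, ← map_mul, hU]

theorem left_mem_Gm (g : NN R) : Equiv.mulLeft g ∈ Gm R := by
  refine ⟨fun n => ?_, fun σ _ m n => ?_⟩
  · change g * (zz R * n) = zz R * (g * n)
    rw [← mul_assoc, ← mul_assoc, zz_comm]
  · change _ ↔ (g * m)⁻¹ * (g * n) ∈ Us R σ
    have : (g * m)⁻¹ * (g * n) = m⁻¹ * n := by group
    rw [this]

variable (R τ)

/-- the action on functions -/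
def actf (γ : Gm R) : NT R τ ≃* NT R τ where
  toFun f := ⟨fun n => f.1 (γ.1⁻¹ n), fun n => by
    exact (congrArg f.1 ((γ⁻¹).2.1 n)).trans (f.2 _)⟩
  invFun f := ⟨fun n => f.1 (γ.1 n), fun n => by
    change f.1 (γ.1 (zz R * n)) = τ (f.1 (γ.1 n))
    rw [γ.2.1 n]
    exact f.2 _⟩
  left_inv f := by
    apply Subtype.ext
    funext n
    change f.1 (γ.1⁻¹ (γ.1 n)) = f.1 n
    rw [pip]
  right_inv f := by
    apply Subtype.ext
    funext n
    change f.1 (γ.1 (γ.1⁻¹ n)) = f.1 n
    rw [ppi]
  map_mul' f g := rfl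

def act : Gm R →* MulAut (NT R τ) where
  toFun := actf R τ
  map_one' := by
    apply MulEquiv.ext
    intro f
    rfl
  map_mul' γ δ := by
    apply MulEquiv.ext
    intro f
    apply Subtype.ext
    funext n
    change f.1 ((γ.1 * δ.1)⁻¹ n) = f.1 (δ.1⁻¹ (γ.1⁻¹ n))
    rw [mul_inv_rev]
    rfl

/-- the big group -/
abbrev GG : Type := SemidirectProduct (NT R τ) (Gm R) (act R τ)

/-- its complement subgroup -/
def HH : Subgroup (GG R τ) := (SemidirectProduct.inr : Gm R →* GG R τ).range

instance : Finite (NN R) := inferInstance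
instance [Finite T] : Finite (GG R τ) := Finite.of_equiv _ SemidirectProduct.equivProd.symm

end group

end Pool.Agent.W297
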