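import Pool.Agent.W297.Lco
import Pool.Agent.W297.Grp

/-! An eleven vertex flag triangulation of the projective plane. -/

set_option autoImplicit false

namespace Pool.Agent.W297.RP

open Finsupp Pool.Agent.W297.Lc

/-- the pairs of non adjacent vertices -/
def nonadj : List (ℕ × ℕ) :=
  [(0, 1), (0, 2), (0, 3), (0, 5), (1, 5), (1, 8), (1, 9), (1, 10), (2, 3), (2, 6), (2, 10), (3, 7), (3, 9), (4, 5), (4, 6), (4, 7), (4, 8), (5, 7), (5, 10), (6, 8), (6, 10), (7, 9), (7, 10), (8, 9), (9, 10)]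

def R (a b : Fin 11) : Prop := ((a : ℕ), (b : ℕ)) ∈ nonadj

instance : DecidableRel R := fun a b => inferInstanceAs (Decidable ((_, _) ∈ nonadj))

/-- the support of the cocycle -/
def cokey : List (ℕ × ℕ) :=
  [(1, 3), (1, 4), (2, 4), (2, 9), (3, 6), (5, 6), (5, 9)]

def ck (a b : Fin 11) : ZMod 2 :=
  if ((a : ℕ), (b : ℕ)) ∈ cokey ∨ ((b : ℕ), (a : ℕ)) ∈ cokey then 1 else 0

theorem ck_coc0 : ∀ x y z : Fin 11, (R x y ∨ R y x ∨ R x z ∨ R z x ∨ R y z ∨ R z y) ∨
    ck y z + ck x z + ck x y = 0 := by decide +kernel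

theorem ck_coc (x y z : Fin 11) (h1 : ¬ R x y) (h2 : ¬ R y x) (h3 : ¬ R x z) (h4 : ¬ R z x)
    (h5 : ¬ R y z) (h6 : ¬ R z y) : ck y z + ck x z + ck x y = 0 := by
  rcases ck_coc0 x y z with h | h
  · exfalso
    rcases h with h | h | h | h | h | h
    · exact h1 h
    · exact h2 h
    · exact h3 h
    · exact h4 h
    · exact h5 h
    · exact h6 h
  · exact h

theorem ck_coc' {σ : Finset (Fin 11)} (h : Ind R σ) {x y z : Fin 11} (hx : x ∈ σ) (hy : y ∈ σ)
    (hz : z ∈ σ) : ck y z + ck x z + ck x y = 0 :=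
  ck_coc x y z (h _ hx _ hy) (h _ hy _ hx) (h _ hx _ hz) (h _ hz _ hx) (h _ hy _ hz)
    (h _ hz _ hy)

abbrev Fc : Type := Finset (Fin 11)

noncomputable def sd1 (x : Fin 11) : LC Fc := single [{x}] 1
noncomputable def sd2 (x y : Fin 11) : LC Fc := cns {x, y} (sd1 y - sd1 x)
noncomputable def sd3 (x y z : Fin 11) : LC Fc := cns {x, y, z} (sd2 y z - sd2 x z + sd2 x y)

theorem D_sd1 (x : Fin 11) : D (sd1 x) = single [] 1 := by
  rw [sd1, D_single]
  simp [dl]

theorem D_sd2 (x y : Fin 11) : D (sd2 x y) = sd1 y - sd1 x := by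
  rw [sd2, D_cns, map_sub, D_sd1, D_sd1, sub_self, map_zero, sub_zero]

theorem D_sd3 (x y z : Fin 11) : D (sd3 x y z) = sd2 y z - sd2 x z + sd2 x y := by
  rw [sd3, D_cns, map_add, map_sub, D_sd2, D_sd2, D_sd2]
  have : sd1 z - sd1 y - (sd1 z - sd1 x) + (sd1 y - sd1 x) = 0 := by abel
  rw [this, map_zero, sub_zero]

/-- the fundamental chain -/
noncomputable def wch : LC Fc :=
  sd3 0 4 9 - sd3 0 4 10 - sd3 0 6 7 - sd3 0 6 9 - sd3 0 7 8
  - sd3 0 8 10 + sd3 1 2 4 - sd3 1 2 7 - sd3 1 3 4 + sd3 1 3 6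
  + sd3 1 6 7 - sd3 2 4 9 - sd3 2 5 8 + sd3 2 5 9 + sd3 2 7 8
  + sd3 3 4 10 - sd3 3 5 6 + sd3 3 5 8 + sd3 3 8 10 + sd3 5 6 9

/-- the torsion cycle -/
noncomputable def ach : LC Fc := sd2 0 10 - sd2 0 6 + sd2 3 6 - sd2 3 10

theorem D_wch : D wch = (2 : ℤ) • ach := by
  unfold wch ach
  simp only [map_add, map_sub, D_sd3]
  abel

theorem D_ach : D ach = 0 := by
  unfold ach
  simp only [map_add, map_sub, D_sd2]
  abel

/-- chains below a simplex -/
def tS (σ : Fc) : Set (List Fc) :=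
  {m | m.Pairwise (fun a a' => a' ≤ a) ∧ ∀ s ∈ m, s ⊆ σ ∧ s.Nonempty}

theorem tS_cns {σ σ' : Fc} (h : σ' ⊆ σ) (hσ : σ.Nonempty) {c : LC Fc}
    (hc : c ∈ supported ℤ ℤ (tS σ')) : cns σ c ∈ supported ℤ ℤ (tS σ) := by
  refine cns_supp σ ?_ hc
  rintro m ⟨h1, h2⟩
  refine ⟨List.pairwise_cons.mpr ⟨fun s hs => (h2 s hs).1.trans h, h1⟩, ?_⟩
  intro s hs
  rcases List.mem_cons.mp hs with rfl | hs
  · exact ⟨Finset.Subset.refl _, hσ⟩
  · exact ⟨(h2 s hs).1.trans h, (h2 s hs).2⟩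

theorem tS_mono {σ σ' : Fc} (h : σ' ⊆ σ) : tS σ' ⊆ tS σ := by
  rintro m ⟨h1, h2⟩
  exact ⟨h1, fun s hs => ⟨(h2 s hs).1.trans h, (h2 s hs).2⟩⟩

theorem sd1_supp (x : Fin 11) : sd1 x ∈ supported ℤ ℤ (tS {x}) := by
  apply mem_supp_single
  refine ⟨List.pairwise_singleton _ _, ?_⟩
  intro s hs
  rw [List.mem_singleton.mp hs]
  exact ⟨Finset.Subset.refl _, Finset.singleton_nonempty x⟩

theorem sd2_supp (x y : Fin 11) : sd2 x y ∈ supported ℤ ℤ (tS {x, y}) := by
  apply tS_cns (Finset.Subset.refl _) ⟨x, by simp⟩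
  apply Submodule.sub_mem
  · exact supp_mono (tS_mono (by intro a ha; simp at ha ⊢; tauto)) (sd1_supp y)
  · exact supp_mono (tS_mono (by intro a ha; simp at ha ⊢; tauto)) (sd1_supp x)

theorem sd3_supp (x y z : Fin 11) : sd3 x y z ∈ supported ℤ ℤ (tS {x, y, z}) := by
  apply tS_cns (Finset.Subset.refl _) ⟨x, by simp⟩
  apply Submodule.add_mem
  · apply Submodule.sub_mem
    · exact supp_mono (tS_mono (by intro a ha; simp at ha ⊢; tauto)) (sd2_supp y z)
    · exact supp_mono (tS_mono (by intro a ha; simp at ha ⊢; tauto)) (sd2_supp x z)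
  · exact supp_mono (tS_mono (by intro a ha; simp at ha ⊢; tauto)) (sd2_supp x y)

/-- chains of faces -/
def tF : Set (List Fc) :=
  {m | m.Pairwise (fun a a' => a' ≤ a) ∧ ∀ s ∈ m, Ind R s ∧ s.Nonempty}

theorem tS_tF {σ : Fc} (h : Ind R σ) : tS σ ⊆ tF := by
  rintro m ⟨h1, h2⟩
  exact ⟨h1, fun s hs => ⟨fun a ha b hb => h a ((h2 s hs).1 ha) b ((h2 s hs).1 hb), (h2 s hs).2⟩⟩

instance (σ : Fc) : Decidable (Ind R σ) := by unfold Ind; infer_instance

theorem sd3_tF {x y z : Fin 11} (h : Ind R {x, y, z}) : sd3 x y z ∈ supported ℤ ℤ tF :=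
  supp_mono (tS_tF h) (sd3_supp x y z)

theorem sd2_tF {x y : Fin 11} (h : Ind R {x, y}) : sd2 x y ∈ supported ℤ ℤ tF :=
  supp_mono (tS_tF h) (sd2_supp x y)

theorem wch_supp : wch ∈ supported ℤ ℤ tF := by
  unfold wch
  repeat' first
    | apply Submodule.add_mem
    | apply Submodule.sub_mem
    | exact sd3_tF (by decide +kernel)

theorem ach_supp : ach ∈ supported ℤ ℤ tF := by
  unfold ach
  repeat' first
    | apply Submodule.add_mem
    | apply Submodule.sub_mem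
    | exact sd2_tF (by decide +kernel)

/-- the smallest vertex -/
def vx (σ : Fc) : Fin 11 := if h : σ.Nonempty then σ.min' h else 0

theorem vx_mem {σ : Fc} (h : σ.Nonempty) : vx σ ∈ σ := by
  rw [vx, dif_pos h]
  exact Finset.min'_mem σ h

/-- the induced cochain on chains of faces -/
def cv (σ σ' : Fc) : ZMod 2 := ck (vx σ) (vx σ')

theorem cv_sd2 (x y : Fin 11) (h1 : vx {x, y} = x) (h2 : vx {y} = y) (h3 : vx {x} = x) :
    evl (pc cv) (sd2 x y) = ck x y - ck x x := by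
  rw [sd2, sd1, sd1, map_sub, cns_single, cns_single, map_sub, evl_single, evl_single]
  change ck (vx {x, y}) (vx {y}) - ck (vx {x, y}) (vx {x}) = _
  rw [h1, h2, h3]

theorem cv_ach : evl (pc cv) ach = 1 := by
  unfold ach
  rw [map_sub, map_add, map_sub, cv_sd2 _ _ (by decide +kernel) (by decide +kernel) (by decide +kernel),
    cv_sd2 _ _ (by decide +kernel) (by decide +kernel) (by decide +kernel),
    cv_sd2 _ _ (by decide +kernel) (by decide +kernel) (by decide +kernel),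
    cv_sd2 _ _ (by decide +kernel) (by decide +kernel) (by decide +kernel)]
  decide +kernel

theorem ach_len : ach ∈ supported ℤ ℤ {m : List Fc | m ∈ tF ∧ m.length = 2} := by
  have key : ∀ x y : Fin 11, Ind R {x, y} →
      sd2 x y ∈ supported ℤ ℤ {m : List Fc | m ∈ tF ∧ m.length = 2} := by
    intro x y h
    have h1 : sd2 x y ∈ supported ℤ ℤ {m : List Fc | m.length = 2} := by
      rw [sd2]
      refine cns_supp (s := {m : List Fc | m.length = 1}) _ ?_ ?_
      · intro l hl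
        change ((_ : Fc) :: l).length = 2
        rw [List.length_cons, hl]
      · apply Submodule.sub_mem
        · exact mem_supp_single rfl
        · exact mem_supp_single rfl
    have h2 := sd2_tF h
    rw [mem_supported] at h1 h2 ⊢
    intro m hm
    exact ⟨h2 hm, h1 hm⟩
  unfold ach
  repeat' first
    | apply Submodule.add_mem
    | apply Submodule.sub_mem
    | exact key _ _ (by decide +kernel)

end Pool.Agent.W297.RP
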