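import Pool.Agent.H904R2.Sphere

/-! The singular homology of a wedge of spheres has no two-torsion in positive degrees. -/

set_option autoImplicit false
set_option linter.unusedSectionVars false

namespace Pool.Agent.W297.Wd

open Finsupp
open Pool.Agent.H904R2 (Ch IsCyc IsBdy RAcyc psh Pc evm fund pc_acyc pc_gen pc_coc)
open Pool.Agent.H904R2.Sph
open Pool.Agent.Helper922.HB.Sc (Sing sface altd bd sbd slice sbd_sbd rho rho_small rho_id sbd_rho
  smallSet)

/-- no two-torsion in positive degrees -/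
def Nt (X : Type) [TopologicalSpace X] : Prop :=
  ∀ (m : ℕ) (z : Ch X (m + 1)), IsCyc (m + 1) z → IsBdy (m + 1) ((2 : ℤ) • z) → IsBdy (m + 1) z

section general

variable {X Y : Type} [TopologicalSpace X] [TopologicalSpace Y]

theorem Nt_of_racyc (h : ∀ m, RAcyc X m) : Nt X := fun m z hz _ => h (m + 1) z hz

theorem Nt_of_map (f : C(X, Y)) (g : C(Y, X))
    (h : ∀ m (z : Ch X m), IsCyc m z → IsBdy m (psh g m (psh f m z) - z)) (hY : Nt Y) : Nt X := by
  intro m z hz hb
  have h1 : IsBdy (m + 1) (psh f (m + 1) z) := by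
    apply hY m _ (cyc_psh f hz)
    rw [← map_smul]
    exact bdy_psh f hb
  have h2 := bdy_sub (bdy_psh g h1) (h _ z hz)
  rwa [sub_sub_cancel] at h2

theorem Nt_dom (f : C(X, Y)) (g : C(Y, X)) (H : C(X × unitInterval, X))
    (h0 : slice H 0 = ContinuousMap.id X) (h1 : slice H 1 = g.comp f) (hY : Nt Y) : Nt X := by
  apply Nt_of_map f g _ hY
  intro m z hz
  have := homotopy_bdy H hz
  rwa [h0, h1, psh_id, ← psh_comp] at this

theorem Nt_dom' (f : C(X, Y)) (g : C(Y, X)) (H : C(X × unitInterval, X))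
    (h0 : slice H 0 = g.comp f) (h1 : slice H 1 = ContinuousMap.id X) (hY : Nt Y) : Nt X := by
  apply Nt_of_map f g _ hY
  intro m z hz
  have := bdy_neg (homotopy_bdy H hz)
  rwa [h0, h1, psh_id, ← psh_comp, neg_sub] at this

theorem Nt_ret (f : C(X, Y)) (g : C(Y, X)) (h : g.comp f = ContinuousMap.id X) (hY : Nt Y) :
    Nt X := by
  apply Nt_of_map f g _ hY
  intro m z _
  rw [psh_comp, h, psh_id, sub_self]
  exact ⟨0, map_zero _⟩

theorem Nt_in {O : Set X} (h : Nt O) {m : ℕ} {z : Ch X (m + 1)} (hz : z ∈ sup O (m + 1))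
    (hz0 : sbd X m z = 0) {w : Ch X (m + 2)} (hw : w ∈ sup O (m + 2))
    (hwz : sbd X (m + 1) w = (2 : ℤ) • z) : IsBdy (m + 1) z := by
  obtain ⟨z', rfl⟩ := exists_lift hz
  obtain ⟨w', rfl⟩ := exists_lift hw
  apply bdy_psh
  apply h m z' (isCyc_of_psh (m := m + 1) _ (inc_injective O) hz0)
  refine ⟨w', ?_⟩
  apply psh_injective _ (inc_injective O)
  rw [← sbd_psh, hwz, map_smul]

/-- Mayer-Vietoris -/
theorem Nt_mv (U V : Set X) (hU : IsOpen U) (hV : IsOpen V) (hc : ∀ x, x ∈ U ∨ x ∈ V)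
    (hI : ∀ m, RAcyc (U ∩ V : Set X) m) (nU : Nt U) (nV : Nt V) : Nt X := by
  intro m z hz hb
  obtain ⟨z1, hz1, z2, hz2, hzb⟩ := mv_split U V hU hV hc hz
  have hs : sbd X m (z1 + z2) = 0 := by
    have h3 := bdy_cyc hzb
    have h4 : sbd _ m (z - (z1 + z2)) = 0 := h3
    have h5 : sbd _ m z = 0 := hz
    rw [map_sub, h5, zero_sub, neg_eq_zero] at h4
    exact h4
  obtain ⟨e, he, he1⟩ := acyc_in (hI m) (mv_bd_mem U V hz1 hz2 hs) (isCyc_sbd z1)
  have heU : e ∈ sup U (m + 1) := sup_mono Set.inter_subset_left _ he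
  have heV : e ∈ sup V (m + 1) := sup_mono Set.inter_subset_right _ he
  have a1 : z1 - e ∈ sup U (m + 1) := Submodule.sub_mem _ hz1 heU
  have a2 : z2 + e ∈ sup V (m + 1) := Submodule.add_mem _ hz2 heV
  have c1 : sbd X m (z1 - e) = 0 := by rw [map_sub, he1, sub_self]
  have c2 : sbd X m (z2 + e) = 0 := by
    rw [map_add, he1, add_comm, ← map_add, hs]
  have hsum : (z1 - e) + (z2 + e) = z1 + z2 := by abel
  set y1 := z1 - e with hy1
  set y2 := z2 + e with hy2
  have hb2 : IsBdy (m + 1) ((2 : ℤ) • (y1 + y2)) := by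
    have h6 := bdy_sub hb (bdy_smul hzb 2)
    have h7 : (2 : ℤ) • z - (2 : ℤ) • (z - (z1 + z2)) = (2 : ℤ) • (y1 + y2) := by
      rw [hsum, ← smul_sub, sub_sub_cancel]
    rwa [h7] at h6
  obtain ⟨w, hw⟩ := hb2
  have hopen : ∀ C ∈ ({U, V} : Set (Set X)), IsOpen C := by
    intro C hC
    simp only [Set.mem_insert_iff, Set.mem_singleton_iff] at hC
    rcases hC with rfl | rfl
    · exact hU
    · exact hV
  have hcov : ∀ x : X, ∃ C ∈ ({U, V} : Set (Set X)), x ∈ C := by
    intro x
    rcases hc x with h | h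
    · exact ⟨U, by simp, h⟩
    · exact ⟨V, by simp, h⟩
  have hsm : (2 : ℤ) • (y1 + y2) ∈ Finsupp.supported ℤ ℤ
      (smallSet ({U, V} : Set (Set X)) (m + 1)) := by
    apply Submodule.smul_mem
    apply Submodule.add_mem
    · refine Finsupp.supported_mono ?_ a1
      intro σ hσ
      exact ⟨U, by simp, hσ⟩
    · refine Finsupp.supported_mono ?_ a2
      intro σ hσ
      exact ⟨V, by simp, hσ⟩
  have hw2 : sbd X (m + 1) (rho {U, V} (m + 2) w) = (2 : ℤ) • (y1 + y2) := by
    rw [sbd_rho, hw, rho_id _ _ _ hsm]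
  have hwsm := rho_small ({U, V} : Set (Set X)) hopen hcov (m + 2) w
  have w1m := res_mem U (rho {U, V} (m + 2) w)
  have w2m := sub_res_mem U V hwsm
  set w1 := res U (m + 2) (rho {U, V} (m + 2) w) with hw1
  set w2 := rho {U, V} (m + 2) w - w1 with hw2'
  have hww : sbd X (m + 1) w1 + sbd X (m + 1) w2 = (2 : ℤ) • y1 + (2 : ℤ) • y2 := by
    rw [← map_add, hw2', add_sub_cancel, hw2, smul_add]
  have hd : (2 : ℤ) • y1 - sbd X (m + 1) w1 = -((2 : ℤ) • y2 - sbd X (m + 1) w2) := by
    rw [neg_sub, sub_eq_sub_iff_add_eq_add, add_comm (sbd X (m + 1) w2), hww]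
  have hdI : (2 : ℤ) • y1 - sbd X (m + 1) w1 ∈ sup (U ∩ V) (m + 1) := by
    apply sup_inter
    · exact Submodule.sub_mem _ (Submodule.smul_mem _ _ a1) (sbd_mem_sup w1m)
    · rw [hd]
      exact Submodule.neg_mem _ (Submodule.sub_mem _ (Submodule.smul_mem _ _ a2)
        (sbd_mem_sup w2m))
  obtain ⟨e', he', he1'⟩ := acyc_in (hI (m + 1)) hdI (show sbd X m _ = 0 by
    rw [map_sub, map_smul, c1, sbd_sbd, smul_zero, sub_zero])
  have b1 : IsBdy (m + 1) y1 := by
    apply Nt_in nU a1 c1 (w := w1 + e')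
      (Submodule.add_mem _ w1m (sup_mono Set.inter_subset_left _ he'))
    rw [map_add, he1']
    abel
  have b2 : IsBdy (m + 1) y2 := by
    apply Nt_in nV a2 c2 (w := w2 - e')
      (Submodule.sub_mem _ w2m (sup_mono Set.inter_subset_right _ he'))
    rw [map_sub, he1', hd]
    abel
  have h8 := bdy_add hzb (bdy_add b1 b2)
  rwa [hsum, sub_add_cancel] at h8

theorem Nt_Pc (n : ℕ) : Nt (Pc (n + 1)) := by
  intro m z hz hb
  by_cases hmn : m + 1 = n
  · subst hmn
    obtain ⟨a, ha⟩ := pc_gen (m + 1) z hz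
    obtain ⟨ω, hω, hω1⟩ := pc_coc (m + 1)
    have h1 := bdy_sub hb (bdy_smul ha 2)
    have h2 : (2 : ℤ) • z - (2 : ℤ) • (z - a • fund (m + 1)) = (2 * a) • fund (m + 1) := by
      rw [← smul_sub, sub_sub_cancel, smul_smul]
    rw [h2] at h1
    obtain ⟨y, hy⟩ := h1
    have h3 := evm_sbd hω y
    rw [hy, map_smul, hω1] at h3
    have h4 : a = 0 := by simpa using h3
    rw [h4, zero_smul, sub_zero] at ha
    exact ha
  · exact pc_acyc n (m + 1) hmn z hz

end general

/-! ### normalised segments on the sphere -/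

section seg

variable {E : Type} [NormedAddCommGroup E] [NormedSpace ℝ E]

noncomputable def nrm (v : E) : E := ‖v‖⁻¹ • v

noncomputable def cn (e x : E) (t : ℝ) : E := nrm ((1 - t) • x + t • e)

theorem norm_nrm {v : E} (hv : v ≠ 0) : ‖nrm v‖ = 1 := by
  unfold nrm
  rw [norm_smul, norm_inv, norm_norm, inv_mul_cancel₀ (norm_ne_zero_iff.mpr hv)]

theorem nrm_of_norm {v : E} (hv : ‖v‖ = 1) : nrm v = v := by
  unfold nrm
  rw [hv, inv_one, one_smul]

theorem seg_ne {e x : E} {t : ℝ} (he : ‖e‖ = 1) (hx : ‖x‖ = 1) (hne : x ≠ -e) (h0 : 0 ≤ t)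
    (h1 : t ≤ 1) : (1 - t) • x + t • e ≠ 0 := by
  intro h
  have h2 : (1 - t) • x = -(t • e) := eq_neg_of_add_eq_zero_left h
  have h3 := congrArg norm h2
  rw [norm_neg, norm_smul, norm_smul, hx, he, mul_one, mul_one, Real.norm_eq_abs,
    Real.norm_eq_abs, abs_of_nonneg h0, abs_of_nonneg (by linarith)] at h3
  have h4 : t = 1 / 2 := by linarith
  apply hne
  rw [h4] at h2
  have h5 : (1 - 1 / 2 : ℝ) = 1 / 2 := by norm_num
  rw [h5, ← smul_neg] at h2
  exact smul_right_injective E (by norm_num : (1 / 2 : ℝ) ≠ 0) h2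

theorem norm_cn {e x : E} {t : ℝ} (he : ‖e‖ = 1) (hx : ‖x‖ = 1) (hne : x ≠ -e) (h0 : 0 ≤ t)
    (h1 : t ≤ 1) : ‖cn e x t‖ = 1 := norm_nrm (seg_ne he hx hne h0 h1)

theorem cn_ne {e x : E} {t : ℝ} (he : ‖e‖ = 1) (hx : ‖x‖ = 1) (hne : x ≠ -e) (h0 : 0 ≤ t)
    (h1 : t ≤ 1) : cn e x t ≠ -e := by
  intro h
  have h2 := seg_ne he hx hne h0 h1
  set v := (1 - t) • x + t • e with hv
  have h3 : 0 < ‖v‖ := norm_pos_iff.mpr h2
  have h4 : v = -(‖v‖ • e) := by
    have : ‖v‖ • cn e x t = v := by
      unfold cn nrm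
      rw [← hv, smul_smul, mul_inv_cancel₀ h3.ne', one_smul]
    rw [h, smul_neg] at this
    exact this.symm
  have h5 : (1 - t) • x = -((‖v‖ + t) • e) := by
    rw [add_smul, neg_add, ← h4, hv]
    abel
  have h6 := congrArg norm h5
  rw [norm_neg, norm_smul, norm_smul, hx, he, mul_one, mul_one, Real.norm_eq_abs,
    Real.norm_eq_abs, abs_of_nonneg (by linarith), abs_of_nonneg (by linarith)] at h6
  rw [← h6, ← smul_neg] at h5
  apply hne
  exact smul_right_injective E (by linarith : (1 - t : ℝ) ≠ 0) h5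

theorem cn_self {e : E} {t : ℝ} (he : ‖e‖ = 1) : cn e e t = e := by
  unfold cn
  rw [← add_smul, sub_add_cancel, one_smul, nrm_of_norm he]

theorem cn_zero {e x : E} (hx : ‖x‖ = 1) : cn e x 0 = x := by
  unfold cn
  rw [sub_zero, one_smul, zero_smul, add_zero, nrm_of_norm hx]

theorem cn_one {e x : E} (he : ‖e‖ = 1) : cn e x 1 = e := by
  unfold cn
  rw [sub_self, zero_smul, zero_add, one_smul, nrm_of_norm he]

theorem e_ne_neg {e : E} (he : ‖e‖ = 1) : e ≠ -e := by
  intro h
  have : (2 : ℝ) • e = 0 := by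
    rw [two_smul]
    exact eq_neg_iff_add_eq_zero.mp h
  rcases smul_eq_zero.mp this with h | h
  · norm_num at h
  · rw [h, norm_zero] at he
    norm_num at he

end seg

/-! ### wedges -/

section wedge

variable {n : ℕ} (d : Fin n → ℕ)

abbrev Es (d : Fin n → ℕ) : Type := (i : Fin n) → EuclideanSpace ℝ (Fin (d i + 1))

/-- base points -/
noncomputable def bp (i : Fin n) : EuclideanSpace ℝ (Fin (d i + 1)) := EuclideanSpace.single 0 1

theorem norm_bp (i : Fin n) : ‖bp d i‖ = 1 := by
  unfold bp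
  simp

/-- the wedge -/
def WW : Set (Es d) :=
  {x : (i : Fin n) → EuclideanSpace ℝ (Fin (d i + 1)) |
            (∀ i, ‖x i‖ = 1) ∧
              ∀ i j, i ≠ j → x i = EuclideanSpace.single 0 1 ∨ x j = EuclideanSpace.single 0 1}

/-- the subwedge of the spheres in `B` -/
def ZB (B : Finset (Fin n)) : Set (Es d) := {x | x ∈ WW d ∧ ∀ i, i ∉ B → x i = bp d i}

/-- points with coordinates in `A` not antipodal to the base point -/
def UU (B A : Finset (Fin n)) : Set (ZB d B) := {x | ∀ i ∈ A, x.1 i ≠ -bp d i}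

variable {d}

theorem UU_open (B A : Finset (Fin n)) : IsOpen (UU d B A) := by
  have : UU d B A = ⋂ i : Fin n, ⋂ _ : i ∈ A, {x : ZB d B | x.1 i ≠ -bp d i} := by
    ext y
    simp only [UU, Set.mem_ofPred_eq, Set.mem_iInter]
  rw [this]
  refine isOpen_iInter_of_finite fun i => isOpen_iInter_of_finite fun _ => ?_
  exact isOpen_ne.preimage ((continuous_apply i).comp continuous_subtype_val)

/-- the deformation -/
noncomputable def hA (A : Finset (Fin n)) (x : Es d) (t : ℝ) : Es d :=
  fun i => if i ∈ A then cn (bp d i) (x i) t else x i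

theorem hA_mem {B A : Finset (Fin n)} (x : UU d B A) {t : ℝ} (h0 : 0 ≤ t) (h1 : t ≤ 1) :
    hA A x.1.1 t ∈ ZB d B := by
  have hfix : ∀ i, x.1.1 i = bp d i → hA A x.1.1 t i = bp d i := by
    intro i hi
    unfold hA
    split_ifs
    · rw [hi, cn_self (norm_bp d i)]
    · exact hi
  refine ⟨⟨fun i => ?_, fun i j hij => ?_⟩, fun i hi => hfix i (x.1.2.2 i hi)⟩
  · unfold hA
    split_ifs with h
    · exact norm_cn (norm_bp d i) (x.1.2.1.1 i) (x.2 i h) h0 h1
    · exact x.1.2.1.1 i
  · rcases x.1.2.1.2 i j hij with h | h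
    · exact Or.inl (hfix i h)
    · exact Or.inr (hfix j h)

theorem hA_UU {B A : Finset (Fin n)} (x : UU d B A) {t : ℝ} (h0 : 0 ≤ t) (h1 : t ≤ 1) :
    ∀ i ∈ A, hA A x.1.1 t i ≠ -bp d i := by
  intro i hi
  unfold hA
  rw [if_pos hi]
  exact cn_ne (norm_bp d i) (x.1.2.1.1 i) (x.2 i hi) h0 h1

theorem continuous_hA {B A : Finset (Fin n)} :
    Continuous (fun p : UU d B A × unitInterval => hA A p.1.1.1 (p.2 : ℝ)) := by
  refine continuous_pi fun i => ?_
  unfold hA
  have hx : Continuous (fun p : UU d B A × unitInterval => p.1.1.1 i) :=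
    (continuous_apply i).comp (continuous_subtype_val.comp
      (continuous_subtype_val.comp continuous_fst))
  have ht : Continuous (fun p : UU d B A × unitInterval => (p.2 : ℝ)) :=
    continuous_subtype_val.comp continuous_snd
  by_cases h : i ∈ A
  · simp only [if_pos h]
    unfold cn nrm
    have hv : Continuous (fun p : UU d B A × unitInterval =>
        (1 - (p.2 : ℝ)) • p.1.1.1 i + (p.2 : ℝ) • bp d i) :=
      ((continuous_const.sub ht).smul hx).add (ht.smul continuous_const)
    refine Continuous.smul (Continuous.inv₀ hv.norm fun p => ?_) hv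
    exact norm_ne_zero_iff.mpr (seg_ne (norm_bp d i) (p.1.1.2.1.1 i) (p.1.2 i h) p.2.2.1 p.2.2.2)
  · simp only [if_neg h]
    exact hx

noncomputable def HA (B A : Finset (Fin n)) : C(UU d B A × unitInterval, UU d B A) :=
  ⟨fun p => ⟨⟨hA A p.1.1.1 (p.2 : ℝ), hA_mem p.1 p.2.2.1 p.2.2.2⟩,
    hA_UU p.1 p.2.2.1 p.2.2.2⟩, (continuous_hA.subtype_mk _).subtype_mk _⟩

theorem HA_zero (B A : Finset (Fin n)) : slice (HA (d := d) B A) 0 = ContinuousMap.id _ := by
  apply ContinuousMap.ext
  intro x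
  apply Subtype.ext
  apply Subtype.ext
  funext i
  change hA A x.1.1 0 i = x.1.1 i
  unfold hA
  split_ifs
  · exact cn_zero (x.1.2.1.1 i)
  · rfl

/-- the retraction on the smaller wedge -/
noncomputable def rA (B A : Finset (Fin n)) : C(UU d B A, ZB d (B \ A)) :=
  ⟨fun x => ⟨fun i => if i ∈ A then bp d i else x.1.1 i, by
    have hfix : ∀ i, x.1.1 i = bp d i → (if i ∈ A then bp d i else x.1.1 i) = bp d i := by
      intro i hi
      split_ifs
      · rfl
      · exact hi
    refine ⟨⟨fun i => ?_, fun i j hij => ?_⟩, fun i hi => ?_⟩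
    · change ‖if i ∈ A then bp d i else x.1.1 i‖ = 1
      split_ifs
      · exact norm_bp d i
      · exact x.1.2.1.1 i
    · rcases x.1.2.1.2 i j hij with h | h
      · exact Or.inl (hfix i h)
      · exact Or.inr (hfix j h)
    · by_cases h : i ∈ A
      · exact if_pos h
      · exact hfix i (x.1.2.2 i fun hB => hi (Finset.mem_sdiff.mpr ⟨hB, h⟩))⟩, by
    refine Continuous.subtype_mk (continuous_pi fun i => ?_) _
    by_cases h : i ∈ A
    · simp only [if_pos h]
      exact continuous_const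
    · simp only [if_neg h]
      exact (continuous_apply i).comp (continuous_subtype_val.comp continuous_subtype_val)⟩

/-- the inclusion of the smaller wedge -/
noncomputable def gA (B A : Finset (Fin n)) : C(ZB d (B \ A), UU d B A) :=
  ⟨fun x => ⟨⟨x.1, x.2.1, fun i hi => x.2.2 i fun h => hi (Finset.mem_sdiff.mp h).1⟩,
    fun i hi => by
      change x.1 i ≠ _
      rw [x.2.2 i fun h => (Finset.mem_sdiff.mp h).2 hi]
      exact e_ne_neg (norm_bp d i)⟩,
    (continuous_subtype_val.subtype_mk _).subtype_mk _⟩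

theorem HA_one (B A : Finset (Fin n)) : slice (HA (d := d) B A) 1 = (gA B A).comp (rA B A) := by
  apply ContinuousMap.ext
  intro x
  apply Subtype.ext
  apply Subtype.ext
  funext i
  change hA A x.1.1 1 i = if i ∈ A then bp d i else x.1.1 i
  unfold hA
  split_ifs
  · exact cn_one (norm_bp d i)
  · rfl

theorem Nt_UU {B A : Finset (Fin n)} (h : Nt (ZB d (B \ A))) : Nt (UU d B A) :=
  Nt_dom (rA B A) (gA B A) (HA B A) (HA_zero B A) (HA_one B A) h

theorem WW_base : (fun i => bp d i) ∈ WW d :=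
  ⟨fun i => norm_bp d i, fun _ _ _ => Or.inl rfl⟩

/-- the base point -/
noncomputable def pt (B A : Finset (Fin n)) : UU d B A :=
  ⟨⟨fun i => bp d i, WW_base, fun _ _ => rfl⟩, fun i _ => e_ne_neg (norm_bp d i)⟩

theorem racyc_UU {B A : Finset (Fin n)} (h : B ⊆ A) (m : ℕ) : RAcyc (UU d B A) m := by
  apply contr_acyc (HA B A) (pt B A) (HA_zero B A)
  apply ContinuousMap.ext
  intro x
  apply Subtype.ext
  apply Subtype.ext
  funext i
  change hA A x.1.1 1 i = bp d i
  unfold hA
  split_ifs with h1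
  · exact cn_one (norm_bp d i)
  · exact x.1.2.2 i fun hB => h1 (h hB)

theorem Nt_empty : Nt (ZB d ∅) := by
  have h1 : ∀ m, RAcyc (UU d ∅ ∅) m := racyc_UU (Finset.empty_subset _)
  refine Nt_ret ⟨fun x => ⟨x, fun i hi => absurd hi (Finset.notMem_empty i)⟩,
    continuous_id.subtype_mk _⟩ ⟨Subtype.val, continuous_subtype_val⟩ ?_ (Nt_of_racyc h1)
  apply ContinuousMap.ext
  intro x
  rfl

/-- projection of a one element wedge to punctured space -/
noncomputable def fP (j : Fin n) : C(ZB d {j}, Pc (d j + 1)) :=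
  ⟨fun x => ⟨(x.1 j).ofLp, fun h => by
    have h1 : x.1 j = 0 := by
      ext k
      exact congrFun h k
    have h2 := x.2.1.1 j
    rw [h1, norm_zero] at h2
    norm_num at h2⟩, by
    refine Continuous.subtype_mk ?_ _
    exact (PiLp.continuous_ofLp 2 _).comp ((continuous_apply j).comp continuous_subtype_val)⟩

theorem toLp_ne {k : ℕ} (v : Pc k) : WithLp.toLp 2 v.1 ≠ (0 : EuclideanSpace ℝ (Fin k)) := by
  intro h
  apply v.2
  have := congrArg WithLp.ofLp h
  exact this

noncomputable def gP (j : Fin n) : C(Pc (d j + 1), ZB d {j}) :=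
  ⟨fun v => ⟨Function.update (fun i => bp d i) j
      (nrm (WithLp.toLp 2 v.1 : EuclideanSpace ℝ (Fin (d j + 1)))), by
    have hfix : ∀ i, i ≠ j → Function.update (fun i => bp d i) j
      (nrm (WithLp.toLp 2 v.1 : EuclideanSpace ℝ (Fin (d j + 1)))) i = bp d i := by
      intro i hi
      rw [Function.update_of_ne hi]
    refine ⟨⟨fun i => ?_, fun i k hik => ?_⟩, fun i hi => ?_⟩
    · by_cases h : i = j
      · subst h
        rw [Function.update_self]
        exact norm_nrm (toLp_ne v)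
      · rw [hfix i h]
        exact norm_bp d i
    · by_cases h : i = j
      · right
        exact hfix k fun hk => hik (h.trans hk.symm)
      · left
        exact hfix i h
    · exact hfix i fun h => hi (Finset.mem_singleton.mpr h)⟩, by
    refine Continuous.subtype_mk ?_ _
    refine continuous_const.update j ?_
    have h1 : Continuous (fun v : Pc (d j + 1) =>
        (WithLp.toLp 2 v.1 : EuclideanSpace ℝ (Fin (d j + 1)))) :=
      (PiLp.continuous_toLp 2 _).comp continuous_subtype_val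
    unfold nrm
    refine Continuous.smul (Continuous.inv₀ h1.norm fun v => ?_) h1
    exact norm_ne_zero_iff.mpr (toLp_ne v)⟩

theorem Nt_one (j : Fin n) : Nt (ZB d {j}) := by
  refine Nt_ret (fP j) (gP j) ?_ (Nt_Pc _)
  apply ContinuousMap.ext
  intro x
  apply Subtype.ext
  funext i
  change Function.update (fun i => bp d i) j
      (nrm (WithLp.toLp 2 (x.1 j).ofLp : EuclideanSpace ℝ (Fin (d j + 1)))) i = x.1 i
  by_cases h : i = j
  · subst h
    rw [Function.update_self]
    exact nrm_of_norm (x.2.1.1 i)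
  · rw [Function.update_of_ne h]
    exact (x.2.2 i fun hi => h (Finset.mem_singleton.mp hi)).symm

theorem Nt_ZB (B : Finset (Fin n)) : Nt (ZB d B) := by
  induction B using Finset.induction_on with
  | empty => exact Nt_empty
  | insert j B hj ih =>
    have e1 : insert j B \ {j} = B := by
      ext i
      simp only [Finset.mem_sdiff, Finset.mem_insert, Finset.mem_singleton]
      constructor
      · rintro ⟨h1 | h1, h2⟩
        · exact absurd h1 h2
        · exact h1
      · intro h
        exact ⟨Or.inr h, fun he => hj (he ▸ h)⟩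
    have e2 : insert j B \ B = {j} := by
      rw [Finset.insert_sdiff_of_notMem _ hj, Finset.sdiff_self]
      rfl
    have e3 : UU d (insert j B) {j} ∩ UU d (insert j B) B = UU d (insert j B) (insert j B) := by
      ext x
      simp only [UU, Set.mem_inter_iff, Set.mem_ofPred_eq, Finset.mem_singleton,
        Finset.mem_insert]
      constructor
      · rintro ⟨h1, h2⟩ i (hi | hi)
        · exact h1 i hi
        · exact h2 i hi
      · intro h
        exact ⟨fun i hi => h i (Or.inl hi), fun i hi => h i (Or.inr hi)⟩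
    refine Nt_mv (UU d (insert j B) {j}) (UU d (insert j B) B) (UU_open _ _) (UU_open _ _)
      ?_ ?_ (Nt_UU (by rw [e1]; exact ih)) (Nt_UU (by rw [e2]; exact Nt_one j))
    · intro x
      by_cases h : x.1 j = -bp d j
      · right
        intro i hi
        have hij : i ≠ j := by
          rintro rfl
          exact hj hi
        rcases x.2.1.2 i j hij with h1 | h1
        · rw [h1]
          exact e_ne_neg (norm_bp d i)
        · exfalso
          rw [h] at h1
          exact e_ne_neg (norm_bp d j) h1.symm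
      · left
        intro i hi
        rw [Finset.mem_singleton] at hi
        subst hi
        exact h
    · intro m
      rw [e3]
      exact racyc_UU (le_refl _) m

theorem Nt_WW : Nt (WW d) := by
  refine Nt_ret (Y := ZB d Finset.univ)
    ⟨fun x => ⟨x.1, x.2, fun i hi => absurd (Finset.mem_univ i) hi⟩,
      continuous_subtype_val.subtype_mk _⟩
    ⟨fun x => ⟨x.1, x.2.1⟩, continuous_subtype_val.subtype_mk _⟩ ?_ (Nt_ZB _)
  apply ContinuousMap.ext
  intro x
  rfl

end wedge

/-- transfer along a homotopy equivalence -/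
theorem Nt_of_equiv {X Y : Type} [TopologicalSpace X] [TopologicalSpace Y]
    (e : ContinuousMap.HomotopyEquiv X Y) (hY : Nt Y) : Nt X := by
  obtain ⟨F⟩ := e.left_inv
  refine Nt_dom' e.toFun e.invFun ⟨fun p => F (p.2, p.1), by fun_prop⟩ ?_ ?_ hY
  · apply ContinuousMap.ext
    intro x
    change F (0, x) = _
    exact F.apply_zero x
  · apply ContinuousMap.ext
    intro x
    change F (1, x) = _
    exact F.apply_one x

end Pool.Agent.W297.Wd
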