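import Pool.Agent.W297.Lf
import Pool.Agent.W297.Alt
import Pool.Agent.W297.RP
import Pool.Agent.W297.Det
import Pool.Agent.W297.Wedge

/-! The counterexample. -/

set_option autoImplicit false

namespace Pool.Agent.W297.Fi

open Finsupp Pool.Agent.W297.Lc
open Pool.Agent.W297.A5 (tau fx pr D5 cb Iv)
open Pool.Agent.W297.RP (Fc tF cv vx ach wch)

/-- the big group -/
abbrev Gb : Type := GG RP.R tau

/-- the lower end of the interval -/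
def H0 : Subgroup Gb := HH RP.R tau

/-- the open interval -/
def Pp (L : Subgroup Gb) : Prop := H0 < L ∧ L < ⊤

noncomputable def ph (D : Subgroup A5.T) (σ : Fc) : Subgroup Gb := Lf RP.R tau D σ

theorem ph_mono (b b' : Subgroup A5.T) (a a' : Fc) (h : b ≤ b') (h' : a' ≤ a) :
    ph b a ≤ ph b' a' := Lf_mono h h'

def sI : Set (List (Subgroup A5.T)) :=
  {l | l.Pairwise (· ≤ ·) ∧ ∀ D ∈ l, Iv D ∧ D ≠ ⊥ ∧ D ≠ ⊤}

theorem ind_bot : Ind RP.R (⊥ : Fc) := fun a ha => absurd ha (Finset.notMem_empty a)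

theorem Pp_ph {D : Subgroup A5.T} {σ : Fc} (hD : Iv D) (hD0 : D ≠ ⊥) (hσ : Ind RP.R σ)
    (h : D ≠ ⊤ ∨ σ.Nonempty) : Pp (ph D σ) :=
  ⟨HH_lt_Lf A5.tau_tau hσ hD hD0, Lf_lt_top A5.tau_tau A5.tau_ne hσ hD h⟩

theorem top_ne_bot : (⊤ : Subgroup A5.T) ≠ ⊥ := A5.ne_bot_of (x := A5.x012) trivial A5.x012_ne

theorem Sv_Pp {l : List (Subgroup A5.T)} (hl : l ∈ sI) {m : List Fc} (hm : m ∈ tF) :
    ∀ x ∈ Sv ph l m, Pp x := by
  rintro x (⟨b, hb, a, ha, rfl⟩ | ⟨b, hb, rfl⟩ | ⟨a, ha, rfl⟩)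
  · exact Pp_ph (hl.2 b hb).1 (hl.2 b hb).2.1 (hm.2 a ha).1 (Or.inl (hl.2 b hb).2.2)
  · exact Pp_ph (hl.2 b hb).1 (hl.2 b hb).2.1 ind_bot (Or.inl (hl.2 b hb).2.2)
  · exact Pp_ph A5.Iv_top top_ne_bot (hm.2 a ha).1 (Or.inr (hm.2 a ha).2)

/-- the six cycle -/
noncomputable def bch : LC (Subgroup A5.T) :=
  single [pr ⊓ fx 4, pr] 1 - single [pr ⊓ fx 2, pr] 1 + single [pr ⊓ fx 2, fx 2] 1 -
    single [D5, fx 2] 1 + single [D5, fx 4] 1 - single [pr ⊓ fx 4, fx 4] 1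

theorem dl_two {β : Type} (x y : β) : dl [x, y] = single [y] (1 : ℤ) - single [x] 1 := by
  simp only [dl, map_zero, sub_zero, cns_single]

theorem D_bch : D bch = 0 := by
  unfold bch
  simp only [map_add, map_sub, D_single, dl_two]
  abel

theorem Es_two {β : Type} (x y : β) : Es (single [x, y] (1 : ℤ)) = single [x, y] 1 := by
  rw [Es_single]
  simp

theorem Es_bch : Es bch = bch := by
  unfold bch
  simp only [map_add, map_sub, Es_two]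

theorem bch_supp : bch ∈ supported ℤ ℤ {l : List (Subgroup A5.T) | l ∈ sI ∧ l.length = 2} := by
  have key : ∀ x y : Subgroup A5.T, x ≤ y → (Iv x ∧ x ≠ ⊥ ∧ x ≠ ⊤) → (Iv y ∧ y ≠ ⊥ ∧ y ≠ ⊤) →
      single [x, y] (1 : ℤ) ∈ supported ℤ ℤ
        {l : List (Subgroup A5.T) | l ∈ sI ∧ l.length = 2} := by
    intro x y hxy hx hy
    refine mem_supp_single ⟨⟨?_, ?_⟩, rfl⟩
    · simp [hxy]
    · intro D hD
      rcases List.mem_cons.mp hD with rfl | hD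
      · exact hx
      · rw [List.mem_singleton.mp hD]
        exact hy
  have m1 : Iv (pr ⊓ fx 4) ∧ pr ⊓ fx 4 ≠ ⊥ ∧ pr ⊓ fx 4 ≠ ⊤ :=
    ⟨A5.Iv_inf A5.Iv_pr A5.Iv_fx4, A5.ne_bot_of ⟨A5.x012_pr, A5.x012_fx4⟩ A5.x012_ne,
      A5.ne_top_of fun h => A5.x013_pr h.1⟩
  have m2 : Iv pr ∧ pr ≠ ⊥ ∧ pr ≠ ⊤ :=
    ⟨A5.Iv_pr, A5.ne_bot_of A5.x012_pr A5.x012_ne, A5.ne_top_of A5.x013_pr⟩
  have m3 : Iv (pr ⊓ fx 2) ∧ pr ⊓ fx 2 ≠ ⊥ ∧ pr ⊓ fx 2 ≠ ⊤ :=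
    ⟨A5.Iv_inf A5.Iv_pr A5.Iv_fx2, A5.ne_bot_of ⟨A5.x0134_pr, A5.x0134_fx2⟩ A5.x0134_ne,
      A5.ne_top_of fun h => A5.x013_pr h.1⟩
  have m4 : Iv (fx 2) ∧ fx 2 ≠ ⊥ ∧ fx 2 ≠ ⊤ :=
    ⟨A5.Iv_fx2, A5.ne_bot_of A5.x0134_fx2 A5.x0134_ne, A5.ne_top_of A5.x012_fx2⟩
  have m5 : Iv D5 ∧ D5 ≠ ⊥ ∧ D5 ≠ ⊤ :=
    ⟨A5.Iv_inf A5.Iv_fx2 A5.Iv_fx4, A5.ne_bot_of ⟨A5.x013_fx2, A5.x013_fx4⟩ A5.x013_ne,
      A5.ne_top_of fun h => A5.x012_fx2 h.1⟩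
  have m6 : Iv (fx 4) ∧ fx 4 ≠ ⊥ ∧ fx 4 ≠ ⊤ :=
    ⟨A5.Iv_fx4, A5.ne_bot_of A5.x012_fx4 A5.x012_ne, A5.ne_top_of A5.x0134_fx4⟩
  unfold bch
  refine Submodule.sub_mem _ (Submodule.add_mem _ (Submodule.sub_mem _ (Submodule.add_mem _
    (Submodule.sub_mem _ ?_ ?_) ?_) ?_) ?_) ?_
  · exact key _ _ inf_le_left m1 m2
  · exact key _ _ inf_le_left m3 m2
  · exact key _ _ inf_le_right m3 m4
  · exact key _ _ inf_le_left m5 m4
  · exact key _ _ inf_le_right m5 m6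
  · exact key _ _ inf_le_right m1 m6

theorem cb_bch : evl (pc cb) bch = 1 := by
  have n1 : pr ≠ fx 2 := (A5.ne_of A5.x013_fx2 A5.x013_pr).symm
  have n2 : pr ≠ D5 := A5.ne_of A5.x0134_pr fun h => A5.x0134_fx4 h.2
  have n3 : pr ⊓ fx 2 ≠ D5 := A5.ne_of ⟨A5.x0134_pr, A5.x0134_fx2⟩ fun h => A5.x0134_fx4 h.2
  have n4 : fx 2 ≠ D5 := A5.fx2_ne_D5
  have n5 : fx 4 ≠ fx 2 := A5.ne_of A5.x012_fx4 A5.x012_fx2
  have n6 : fx 4 ≠ D5 := A5.ne_of A5.x012_fx4 fun h => A5.x012_fx2 h.1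
  have e1 : cb (pr ⊓ fx 4) pr = 0 := A5.cb_zero (by
    rintro (⟨_, h⟩ | ⟨_, h⟩)
    · exact n1 h
    · exact n2 h)
  have e2 : cb (pr ⊓ fx 2) pr = 0 := A5.cb_zero (by
    rintro (⟨_, h⟩ | ⟨_, h⟩)
    · exact n1 h
    · exact n2 h)
  have e3 : cb (pr ⊓ fx 2) (fx 2) = 0 := A5.cb_zero (by
    rintro (⟨h, _⟩ | ⟨_, h⟩)
    · exact n3 h
    · exact n4 h)
  have e4 : cb D5 (fx 2) = 1 := if_pos (Or.inl ⟨rfl, rfl⟩)
  have e5 : cb D5 (fx 4) = 0 := A5.cb_zero (by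
    rintro (⟨_, h⟩ | ⟨_, h⟩)
    · exact n5 h
    · exact n6 h)
  have e6 : cb (pr ⊓ fx 4) (fx 4) = 0 := A5.cb_zero (by
    rintro (⟨_, h⟩ | ⟨_, h⟩)
    · exact n5 h
    · exact n6 h)
  unfold bch
  simp only [map_add, map_sub, evl_single, pc, e1, e2, e3, e4, e5, e6]
  decide

/-! ### the cochain -/

open Classical in
/-- the lower part of the interval -/
noncomputable def Gd (L : Subgroup Gb) : Bool := decide (Dv L ≠ ⊤)

theorem Gd_true {L : Subgroup Gb} (h : Dv L ≠ ⊤) : Gd L = true := by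
  simp [Gd, h]

theorem Gd_false {L : Subgroup Gb} (h : Dv L = ⊤) : Gd L = false := by
  simp [Gd, h]

noncomputable def c1 (L L' : Subgroup Gb) : ZMod 2 := cb (Dv L) (Dv L')

noncomputable def c2 (L L' : Subgroup Gb) : ZMod 2 := cv (Sf L) (Sf L')

noncomputable def cc : List (Subgroup Gb) → ZMod 2 := pq Gd (pc c1) (pc c2)

theorem Dv_ph {D : Subgroup A5.T} {σ : Fc} (hD : Iv D) (hσ : Ind RP.R σ) : Dv (ph D σ) = D :=
  Dv_Lf A5.tau_tau hσ hD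

theorem Sf_ph {σ : Fc} (hσ : Ind RP.R σ) : Sf (ph ⊤ σ) = σ := Sf_Lf A5.tau_tau A5.tau_ne hσ

theorem ev_sh {D0 D1 : Subgroup A5.T} {s0 s1 : Fc} (h0 : Iv D0) (h0' : D0 ≠ ⊤) (h1 : Iv D1)
    (h1' : D1 ≠ ⊤) (i0 : Ind RP.R s0) (i1 : Ind RP.R s1) :
    evl cc (sh ph ⊤ ⊥ [D0, D1] [s0, s1]) = cb D0 D1 * cv s0 s1 := by
  have g0 : ∀ σ, Ind RP.R σ → Gd (ph D0 σ) = true := fun σ hσ =>
    Gd_true (by rw [Dv_ph h0 hσ]; exact h0')
  have g1 : ∀ σ, Ind RP.R σ → Gd (ph D1 σ) = true := fun σ hσ =>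
    Gd_true (by rw [Dv_ph h1 hσ]; exact h1')
  have g2 : ∀ σ, Ind RP.R σ → Gd (ph ⊤ σ) = false := fun σ hσ =>
    Gd_false (by rw [Dv_ph A5.Iv_top hσ])
  have e : evl cc (sh ph ⊤ ⊥ [D0, D1] [s0, s1]) =
      cc [ph D0 s0, ph D1 s0, ph ⊤ s0, ph ⊤ s1] := by
    simp only [sh, map_sub, map_smul, cns_single, List.map_cons, List.map_nil, evl_single,
      List.length_cons, List.length_nil]
    simp only [cc, pq, List.filter_cons, List.filter_nil, g0 s0 i0, g0 s1 i1, g1 s0 i0, g1 s1 i1,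
      g2 s0 i0, g2 s1 i1, g0 ⊥ ind_bot, g1 ⊥ ind_bot, if_true, Bool.not_true, Bool.not_false,
      Bool.false_eq_true, if_false, pc, zero_mul, mul_zero, smul_zero, sub_zero, sub_self]
  rw [e]
  simp only [cc, pq, List.filter_cons, List.filter_nil, g0 s0 i0, g1 s0 i0,
      g2 s0 i0, g2 s1 i1, if_true, Bool.not_true, Bool.not_false,
      Bool.false_eq_true, if_false, pc, c1, c2]
  rw [Dv_ph h0 i0, Dv_ph h1 i0, Sf_ph i0, Sf_ph i1]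

theorem eq_on_supp {S M : Type} [AddCommGroup M] (s : Set S) (L L' : (S →₀ ℤ) →ₗ[ℤ] M)
    (h : ∀ a ∈ s, L (single a 1) = L' (single a 1)) (z : S →₀ ℤ)
    (hz : z ∈ supported ℤ ℤ s) : L z = L' z := by
  have := supp_map s (L - L') ⊥ (by
    intro a ha
    rw [LinearMap.sub_apply, h a ha, sub_self]
    exact Submodule.zero_mem _) z hz
  rw [Submodule.mem_bot, LinearMap.sub_apply, sub_eq_zero] at this
  exact this

theorem ev_G {x : LC (Subgroup A5.T)} {y : LC Fc}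
    (hx : x ∈ supported ℤ ℤ {l : List (Subgroup A5.T) | l ∈ sI ∧ l.length = 2})
    (hy : y ∈ supported ℤ ℤ {m : List Fc | m ∈ tF ∧ m.length = 2}) :
    evl cc (G ph ⊤ ⊥ x y) = evl (pc cb) x * evl (pc cv) y := by
  refine eq_on_supp _ ((evl cc).comp ((LinearMap.flip (G ph ⊤ ⊥)) y))
    ((AddMonoidHom.mulRight (evl (pc cv) y)).toIntLinearMap.comp (evl (pc cb))) ?_ x hx
  rintro l ⟨hl, hl2⟩
  rw [LinearMap.comp_apply, LinearMap.comp_apply, LinearMap.flip_apply]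
  refine eq_on_supp _ ((evl cc).comp (G ph ⊤ ⊥ (single l 1)))
    ((AddMonoidHom.mulLeft (evl (pc cb) (single l 1))).toIntLinearMap.comp (evl (pc cv))) ?_ y hy
  rintro m ⟨hm, hm2⟩
  rw [LinearMap.comp_apply, LinearMap.comp_apply, G_single]
  change _ = evl (pc cb) (single l 1) * evl (pc cv) (single m 1)
  rw [evl_single, evl_single]
  match l, m, hl, hm, hl2, hm2 with
  | [D0, D1], [s0, s1], hl, hm, _, _ =>
    rw [ev_sh (hl.2 D0 (by simp)).1 (hl.2 D0 (by simp)).2.2 (hl.2 D1 (by simp)).1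
      (hl.2 D1 (by simp)).2.2 (hm.2 s0 (by simp)).1 (hm.2 s1 (by simp)).1]
    rfl

/-! ### the cycle -/

noncomputable def zch : LC (Subgroup Gb) := G ph ⊤ ⊥ bch ach
noncomputable def Wch : LC (Subgroup Gb) := G ph ⊤ ⊥ bch wch

theorem D_zch : D zch = 0 := by
  rw [zch, D_G, D_bch, RP.D_ach, map_zero, map_zero, LinearMap.zero_apply, add_zero]

theorem D_Wch : D Wch = (2 : ℤ) • zch := by
  rw [Wch, D_G, D_bch, Es_bch, RP.D_wch, map_zero, LinearMap.zero_apply, zero_add, map_smul]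
  rfl

theorem ev_zch : evl cc zch = 1 := by
  rw [zch, ev_G bch_supp RP.ach_len, cb_bch, RP.cv_ach, mul_one]

def Ok : Set (List (Subgroup Gb)) := {q | q.Pairwise (· ≤ ·) ∧ ∀ x ∈ q, Pp x}

theorem bch_sI : bch ∈ supported ℤ ℤ sI := by
  refine supp_mono ?_ bch_supp
  intro l hl
  exact hl.1

theorem zch_supp : zch ∈ supported ℤ ℤ Ok :=
  G_supp ph ph_mono Pp (fun _ hl => hl.1) (fun _ hm => hm.1) (fun _ hl _ hm => Sv_Pp hl hm)
    bch_sI RP.ach_supp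

theorem Wch_supp : Wch ∈ supported ℤ ℤ Ok :=
  G_supp ph ph_mono Pp (fun _ hl => hl.1) (fun _ hm => hm.1) (fun _ hl _ hm => Sv_Pp hl hm)
    bch_sI RP.wch_supp

theorem toT_gs {n : ℕ} {c : LC (Subgroup Gb)} (hc : c ∈ supported ℤ ℤ Ok) :
    toT n c ∈ Det.gs Pp n :=
  toT_supp (P := Pp) (Q := fun x y => x ≤ y ∨ y ≤ x)
    (fun _ hl => ⟨hl.2, comp_of_pairwise hl.1⟩) hc

/-! ### cocycle property -/

theorem cc_coc (l : List (Subgroup Gb)) (hP : ∀ x ∈ l, Pp x)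
    (hc : ∀ x ∈ l, ∀ y ∈ l, x ≤ y ∨ y ≤ x) : evl cc (dl l) = 0 := by
  rw [cc, pq_coc]
  have h1 : evl (pc c1) (dl (l.filter Gd)) = 0 := by
    apply pc_coc
    intro x hx y hy z hz
    rw [List.mem_filter] at hx hy hz
    have key : ∀ x : Subgroup Gb, x ∈ l ∧ Gd x = true → Dv x ≠ ⊥ ∧ Dv x ≠ ⊤ := by
      rintro x ⟨hx, hx'⟩
      refine ⟨Dv_ne_bot (hP x hx).1, fun h => ?_⟩
      rw [Gd_false h] at hx'
      exact Bool.false_ne_true hx'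
    have comp : ∀ x ∈ l, ∀ y ∈ l, Dv x ≤ Dv y ∨ Dv y ≤ Dv x := by
      intro x hx y hy
      exact (hc x hx y hy).imp Dv_mono Dv_mono
    exact A5.cb_coc (key x hx).1 (key x hx).2 (key y hy).1 (key y hy).2 (key z hz).1 (key z hz).2
      (comp x hx.1 y hy.1) (comp x hx.1 z hz.1) (comp y hy.1 z hz.1)
  have h2 : evl (pc c2) (dl (l.filter fun x => !Gd x)) = 0 := by
    apply pc_coc
    intro x hx y hy z hz
    rw [List.mem_filter] at hx hy hz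
    have key : ∀ x : Subgroup Gb, x ∈ l ∧ (!Gd x) = true → Ind RP.R (Sf x) ∧ (Sf x).Nonempty := by
      rintro x ⟨hx, hx'⟩
      have hD : Dv x = ⊤ := by
        by_contra h
        rw [Gd_true h] at hx'
        exact Bool.false_ne_true hx'
      exact ⟨Sf_ind A5.tau_ne (hP x hx).1.le hD,
        Sf_nonempty A5.noncomm A5.tau_ne (hP x hx).1.le hD (hP x hx).2.ne⟩
    have comp : ∀ x ∈ l, ∀ y ∈ l, Sf x ⊆ Sf y ∨ Sf y ⊆ Sf x := by
      intro x hx y hy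
      exact (hc x hx y hy).symm.imp Sf_anti Sf_anti
    obtain ⟨σ, hσ, sx, sy, sz⟩ : ∃ σ : Fc, Ind RP.R σ ∧ Sf x ⊆ σ ∧ Sf y ⊆ σ ∧ Sf z ⊆ σ := by
      rcases comp x hx.1 y hy.1 with a | a
      · rcases comp y hy.1 z hz.1 with b | b
        · exact ⟨Sf z, (key z hz).1, a.trans b, b, Finset.Subset.refl _⟩
        · exact ⟨Sf y, (key y hy).1, a, Finset.Subset.refl _, b⟩
      · rcases comp x hx.1 z hz.1 with b | b
        · exact ⟨Sf z, (key z hz).1, b, a.trans b, Finset.Subset.refl _⟩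
        · exact ⟨Sf x, (key x hx).1, Finset.Subset.refl _, a, b⟩
    exact RP.ck_coc' hσ (sx (RP.vx_mem (key x hx).2)) (sy (RP.vx_mem (key y hy).2))
      (sz (RP.vx_mem (key z hz).2))
  rw [h1, h2, zero_mul, mul_zero, add_zero]

theorem main_torsion : ¬ Wd.Nt (Det.Rz Pp) := by
  intro hN
  have hz := toT_gs (n := 3) zch_supp
  have hW := toT_gs (n := 4) Wch_supp
  have hz0 : Pool.Agent.Helper922.HB.Sc.tbd (Subgroup Gb) 2 (toT 3 zch) = 0 := by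
    rw [← toT_D, D_zch, map_zero]
  have hzW : Pool.Agent.Helper922.HB.Sc.tbd (Subgroup Gb) 3 (toT 4 Wch) = (2 : ℤ) • toT 3 zch := by
    rw [← toT_D, D_Wch, map_smul]
  have hcc : ∀ l : List (Subgroup Gb), l.length ≠ 3 + 1 → cc l = 0 := fun l hl =>
    pq_ne Gd c1 c2 hl
  obtain ⟨h1, h2⟩ := Det.torsion (n := 2) hz hW hz0 hzW
  refine Det.not_bdy (n := 2) hz hz0 (fun t => cc (List.ofFn t)) ?_ ?_ (hN 2 _ h1 h2)
  · intro t ht
    rw [← toT_ofFn t, ← toT_D, ← evl_toT hcc, D_single]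
    apply cc_coc
    · intro x hx
      obtain ⟨i, rfl⟩ := (List.mem_ofFn' t x).mp hx
      exact ht.1 i
    · intro x hx y hy
      obtain ⟨i, rfl⟩ := (List.mem_ofFn' t x).mp hx
      obtain ⟨j, rfl⟩ := (List.mem_ofFn' t y).mp hy
      exact ht.2 i j
  · rw [← evl_toT hcc, ev_zch]
    decide

end Pool.Agent.W297.Fi
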