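import Pool.Agent.W297.Grp

/-! Analysis of the subgroups between `HH` and the whole group. -/

set_option autoImplicit false
set_option linter.unusedSectionVars false

namespace Pool.Agent.W297

variable {V : Type} [Fintype V] [DecidableEq V] {R : V → V → Prop}
variable {T : Type} [Group T] {τ : T ≃* T}

/-- the functions in `L` -/
def MM (L : Subgroup (GG R τ)) : Subgroup (NT R τ) := L.comap SemidirectProduct.inl

theorem mem_MM {L : Subgroup (GG R τ)} {f : NT R τ} :
    f ∈ MM L ↔ (SemidirectProduct.inl f : GG R τ) ∈ L := Iff.rfl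

theorem inr_mem {L : Subgroup (GG R τ)} (h : HH R τ ≤ L) (γ : Gm R) :
    (SemidirectProduct.inr γ : GG R τ) ∈ L := h ⟨γ, rfl⟩

theorem mem_iff {L : Subgroup (GG R τ)} (h : HH R τ ≤ L) (g : GG R τ) :
    g ∈ L ↔ g.left ∈ MM L := by
  rw [mem_MM, ← SemidirectProduct.inl_left_mul_inr_right g]
  rw [L.mul_mem_cancel_right (inr_mem h _)]
  simp

theorem act_mem {L : Subgroup (GG R τ)} (h : HH R τ ≤ L) (γ : Gm R) {f : NT R τ}
    (hf : f ∈ MM L) : act R τ γ f ∈ MM L := by
  rw [mem_MM, SemidirectProduct.inl_aut]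
  exact L.mul_mem (L.mul_mem (inr_mem h _) hf) (inr_mem h _)

theorem comp_mem {L : Subgroup (GG R τ)} (h : HH R τ ≤ L) {π : Equiv.Perm (NN R)}
    (hπ : π ∈ Gm R) {f : NT R τ} (hf : f ∈ MM L) : ∃ f' ∈ MM L, ∀ n, f'.1 n = f.1 (π n) := by
  refine ⟨_, act_mem h (⟨π, hπ⟩⁻¹ : Gm R) hf, fun n => ?_⟩
  change f.1 ((π⁻¹)⁻¹ n) = _
  rw [inv_inv]

theorem shift_mem {L : Subgroup (GG R τ)} (h : HH R τ ≤ L) (g : NN R) {f : NT R τ}
    (hf : f ∈ MM L) : ∃ f' ∈ MM L, ∀ n, f'.1 n = f.1 (g * n) :=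
  comp_mem h (left_mem_Gm g) hf

/-- the group of values at `1` -/
def Dv (L : Subgroup (GG R τ)) : Subgroup T where
  carrier := {t | ∃ f ∈ MM L, f.1 1 = t}
  one_mem' := ⟨1, one_mem _, rfl⟩
  mul_mem' := by
    rintro _ _ ⟨f, hf, rfl⟩ ⟨g, hg, rfl⟩
    exact ⟨f * g, mul_mem hf hg, rfl⟩
  inv_mem' := by
    rintro _ ⟨f, hf, rfl⟩
    exact ⟨f⁻¹, inv_mem hf, rfl⟩

theorem mem_Dv {L : Subgroup (GG R τ)} {t : T} : t ∈ Dv L ↔ ∃ f ∈ MM L, f.1 1 = t := Iff.rfl

theorem Dv_mono {L L' : Subgroup (GG R τ)} (h : L ≤ L') : Dv L ≤ Dv L' := by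
  rintro _ ⟨f, hf, rfl⟩
  exact ⟨f, h hf, rfl⟩

theorem val_mem {L : Subgroup (GG R τ)} (h : HH R τ ≤ L) {f : NT R τ} (hf : f ∈ MM L)
    (n : NN R) : f.1 n ∈ Dv L := by
  obtain ⟨f', hf', he⟩ := shift_mem h n hf
  exact ⟨f', hf', by rw [he, mul_one]⟩

theorem exists_val {L : Subgroup (GG R τ)} (h : HH R τ ≤ L) {t : T} (ht : t ∈ Dv L)
    (n : NN R) : ∃ f ∈ MM L, f.1 n = t := by
  obtain ⟨f, hf, rfl⟩ := ht
  obtain ⟨f', hf', he⟩ := shift_mem h n⁻¹ hf
  exact ⟨f', hf', by rw [he, inv_mul_cancel]⟩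

theorem Dv_ne_bot {L : Subgroup (GG R τ)} (h : HH R τ < L) : Dv L ≠ ⊥ := by
  intro hb
  apply h.not_ge
  intro g hg
  rw [mem_iff h.le] at hg
  have h1 : g.left = 1 := by
    apply Subtype.ext
    funext n
    have := val_mem h.le hg n
    rw [hb, Subgroup.mem_bot] at this
    exact this
  refine ⟨g.right, ?_⟩
  apply SemidirectProduct.ext
  · rw [h1]; rfl
  · rfl

/-- right periods of all functions in `L` -/
def Un (L : Subgroup (GG R τ)) : Subgroup (NN R) where
  carrier := {u | ∀ f ∈ MM L, ∀ n, f.1 (n * u) = f.1 n}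
  one_mem' := fun f _ n => by rw [mul_one]
  mul_mem' := fun {u w} hu hw f hf n => by rw [← mul_assoc, hw f hf, hu f hf]
  inv_mem' := fun {u} hu f hf n => by
    rw [← hu f hf (n * u⁻¹), inv_mul_cancel_right]

theorem Un_anti {L L' : Subgroup (GG R τ)} (h : L ≤ L') : Un L' ≤ Un L :=
  fun _ hu f hf n => hu f (h hf) n

theorem Un_k {L : Subgroup (GG R τ)} (h : HH R τ ≤ L) (k : NN R ≃* NN R)
    (hk : k.toEquiv ∈ Gm R) {u : NN R} (hu : u ∈ Un L) : k u ∈ Un L := by
  intro f hf n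
  obtain ⟨f', hf', he⟩ := comp_mem h hk hf
  have h1 := hu f' hf' (k.symm n)
  rw [he, he] at h1
  change f.1 (k (k.symm n * u)) = f.1 (k (k.symm n)) at h1
  rwa [map_mul, k.apply_symm_apply] at h1

theorem kO_mem : (kO R).toEquiv ∈ Gm R := aut_mem_Gm _ (kO_zz R) kO_Us

theorem kT_mem (y : Xx V) : (kT R y).toEquiv ∈ Gm R := aut_mem_Gm _ (kT_zz R y) (kT_Us y)

theorem zz_not_Un {L : Subgroup (GG R τ)} (hD : Dv L = ⊤) (hτ : ∃ t, τ t ≠ t) :
    zz R ∉ Un L := by
  intro h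
  obtain ⟨t, ht⟩ := hτ
  have h1 : t ∈ Dv L := by rw [hD]; trivial
  obtain ⟨f, hf, rfl⟩ := h1
  apply ht
  rw [← f.2 1, zz_comm]
  exact h f hf 1

/-- a nonzero central element among the periods forces `zz` to be a period -/
theorem zz_of_central {L : Subgroup (GG R τ)} (h : HH R τ ≤ L) (m : UB V)
    (hm : (⟨0, m⟩ : NN R) ∈ Un L) (hm0 : m ≠ 0) : zz R ∈ Un L := by
  classical
  have key : ∀ s : Finset (Ix V), ∃ m : UB V, (⟨0, m⟩ : NN R) ∈ Un L ∧ m ≠ 0 ∧
      ∀ i ∈ s, ∀ x, m (x + dd i) = m x := by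
    intro s
    induction s using Finset.induction_on with
    | empty => exact ⟨m, hm, hm0, fun i hi => absurd hi (Finset.notMem_empty i)⟩
    | insert i s hi ih =>
      obtain ⟨m, h1, h2, h3⟩ := ih
      by_cases h4 : m + Tb (dd i) m = 0
      · refine ⟨m, h1, h2, ?_⟩
        intro j hj x
        rcases Finset.mem_insert.mp hj with rfl | hj
        · have h5 := congrFun h4 x
          change m x + m (x + dd j) = 0 at h5
          have h6 : m (x + dd j) = - m x := eq_neg_of_add_eq_zero_right h5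
          rw [h6, ZMod.neg_eq_self_mod_two]
        · exact h3 j hj x
      · refine ⟨m + Tb (dd i) m, ?_, h4, ?_⟩
        · have h5 := Un_k h (kT R (dd i)) (kT_mem _) h1
          have h6 := (Un L).mul_mem h1 h5
          have h7 : (⟨0, m⟩ : NN R) * kT R (dd i) ⟨0, m⟩ = ⟨0, m + Tb (dd i) m⟩ := by
            ext1
            · rw [Tw.mul_a, kT_a, zero_add]
              exact (Ta (dd i)).map_zero
            · rw [Tw.mul_b, kT_b]
              simp
          rwa [h7] at h6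
        · intro j hj x
          change m (x + dd j) + m (x + dd j + dd i) = m x + m (x + dd i)
          rcases Finset.mem_insert.mp hj with rfl | hj
          · rw [add_assoc, xx_self, add_zero, add_comm]
          · rw [h3 j hj x, add_right_comm, h3 j hj (x + dd i)]
  obtain ⟨m', h1, h2, h3⟩ := key Finset.univ
  have h4 : ∀ (c : ZMod 2) (i : Ix V) (x : Xx V), m' (x + Pi.single i c) = m' x := by
    intro c i x
    have hc : c = 0 ∨ c = 1 := by
      revert c; decide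
    rcases hc with rfl | rfl
    · rw [Pi.single_zero, add_zero]
    · exact h3 i (Finset.mem_univ i) x
  have h5 : ∀ (s : Finset (Ix V)) (y x : Xx V), m' (x + ∑ i ∈ s, Pi.single i (y i)) = m' x := by
    intro s y
    induction s using Finset.induction_on with
    | empty => intro x; rw [Finset.sum_empty, add_zero]
    | insert i s hi ih =>
      intro x
      rw [Finset.sum_insert hi, ← add_assoc, ih, h4]
  have h6 : ∀ y : Xx V, m' y = m' 0 := by
    intro y
    have := h5 Finset.univ y 0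
    rwa [Finset.univ_sum_single, zero_add] at this
  have h7 : m' 0 = 1 := by
    have : m' 0 ≠ 0 := by
      intro h0
      apply h2
      funext y
      rw [h6 y, h0]
      rfl
    revert this
    generalize m' 0 = c
    revert c
    decide
  have h8 : (⟨0, m'⟩ : NN R) = zz R := by
    ext1
    · rfl
    · funext y
      change m' y = 1
      rw [h6 y, h7]
  rwa [h8] at h1

/-- elements of `Un L` with vanishing first part are trivial -/
theorem Un_b {L : Subgroup (GG R τ)} (h : HH R τ ≤ L) (hD : Dv L = ⊤) (hτ : ∃ t, τ t ≠ t)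
    {u : NN R} (hu : u ∈ Un L) (ha : u.a = 0) : u.b = 0 := by
  by_contra hb
  apply zz_not_Un hD hτ
  apply zz_of_central h u.b _ hb
  have : (⟨0, u.b⟩ : NN R) = u := by
    ext1
    · exact ha.symm
    · rfl
  rwa [this]

/-- the subdirect product lemma -/
theorem subdirect [IsSimpleGroup T] (hnc : ∃ a b : T, a * b ≠ b * a) {L : Subgroup (GG R τ)}
    (h : HH R τ ≤ L) (hD : Dv L = ⊤)
    (hsep : ∀ n n' : NN R, n' ≠ n → n' ≠ zz R * n → ∃ f ∈ MM L, f.1 n = 1 ∧ f.1 n' ≠ 1) :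
    MM L = ⊤ := by
  classical
  have surj : ∀ (n : NN R) (t : T), ∃ f ∈ MM L, f.1 n = t := fun n t =>
    exists_val h (by rw [hD]; trivial) n
  let A : NN R → Finset (NN R) → Subgroup T := fun n0 S =>
    { carrier := {t | ∃ f ∈ MM L, (∀ s ∈ S, f.1 s = 1) ∧ f.1 n0 = t}
      one_mem' := ⟨1, one_mem _, fun _ _ => rfl, rfl⟩
      mul_mem' := by
        rintro _ _ ⟨f, hf, hf1, rfl⟩ ⟨g, hg, hg1, rfl⟩
        refine ⟨f * g, mul_mem hf hg, fun s hs => ?_, rfl⟩
        change f.1 s * g.1 s = 1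
        rw [hf1 s hs, hg1 s hs, mul_one]
      inv_mem' := by
        rintro _ ⟨f, hf, hf1, rfl⟩
        refine ⟨f⁻¹, inv_mem hf, fun s hs => ?_, rfl⟩
        change (f.1 s)⁻¹ = 1
        rw [hf1 s hs, inv_one] }
  have hnorm : ∀ n0 S, (A n0 S).Normal := by
    intro n0 S
    constructor
    rintro _ ⟨f, hf, hf1, rfl⟩ g
    obtain ⟨k, hk, hk1⟩ := surj n0 g
    refine ⟨k * f * k⁻¹, mul_mem (mul_mem hk hf) (inv_mem hk), fun s hs => ?_, ?_⟩
    · change k.1 s * f.1 s * (k.1 s)⁻¹ = 1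
      rw [hf1 s hs, mul_one, mul_inv_cancel]
    · change k.1 n0 * f.1 n0 * (k.1 n0)⁻¹ = _
      rw [hk1]
  have htop : ∀ n0 S, (∃ t ∈ A n0 S, t ≠ 1) → A n0 S = ⊤ := by
    rintro n0 S ⟨t, ht, ht1⟩
    rcases (hnorm n0 S).eq_bot_or_eq_top with hb | hb
    · exfalso
      rw [hb, Subgroup.mem_bot] at ht
      exact ht1 ht
    · exact hb
  have step1 : ∀ (n0 : NN R) (S : Finset (NN R)), (∀ s ∈ S, s ≠ n0 ∧ s ≠ zz R * n0) →
      A n0 S = ⊤ := by
    intro n0 S
    induction S using Finset.induction_on with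
    | empty =>
      intro _
      rw [eq_top_iff]
      intro t _
      obtain ⟨f, hf, hf1⟩ := surj n0 t
      exact ⟨f, hf, fun s hs => absurd hs (Finset.notMem_empty s), hf1⟩
    | insert s S hs ih =>
      intro hS
      have hA := ih fun s' hs' => hS s' (Finset.mem_insert_of_mem hs')
      have hs1 := hS s (Finset.mem_insert_self s S)
      have hB : A n0 {s} = ⊤ := by
        apply htop
        obtain ⟨f, hf, hf1, hf2⟩ := hsep s n0 (Ne.symm hs1.1) (by
          intro he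
          apply hs1.2
          rw [he, ← mul_assoc, zz_sq, one_mul])
        exact ⟨_, ⟨f, hf, fun s' hs' => by rw [Finset.mem_singleton.mp hs', hf1], rfl⟩, hf2⟩
      obtain ⟨a, b, hab⟩ := hnc
      have ha : a ∈ A n0 S := by rw [hA]; trivial
      have hb : b ∈ A n0 {s} := by rw [hB]; trivial
      obtain ⟨f, hf, hf1, rfl⟩ := ha
      obtain ⟨g, hg, hg1, rfl⟩ := hb
      apply htop
      refine ⟨f.1 n0 * g.1 n0 * (f.1 n0)⁻¹ * (g.1 n0)⁻¹, ⟨f * g * f⁻¹ * g⁻¹,
        mul_mem (mul_mem (mul_mem hf hg) (inv_mem hf)) (inv_mem hg), fun s' hs' => ?_, rfl⟩, ?_⟩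
      · change f.1 s' * g.1 s' * (f.1 s')⁻¹ * (g.1 s')⁻¹ = 1
        rcases Finset.mem_insert.mp hs' with rfl | hs'
        · rw [hg1 s' (Finset.mem_singleton_self s')]
          simp
        · rw [hf1 s' hs']
          simp
      · intro h1
        apply hab
        rw [mul_inv_eq_one, mul_inv_eq_iff_eq_mul] at h1
        exact h1
  have step2 : ∀ (F : NT R τ) (S : Finset (NN R)), ∃ f ∈ MM L, ∀ s ∈ S, f.1 s = F.1 s := by
    intro F S
    induction S using Finset.induction_on with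
    | empty => exact ⟨1, one_mem _, fun s hs => absurd hs (Finset.notMem_empty s)⟩
    | insert n0 S hn ih =>
      obtain ⟨f, hf, hf1⟩ := ih
      have h1 := step1 n0 (S.filter fun s => s ≠ n0 ∧ s ≠ zz R * n0) (by
        intro s hs
        exact (Finset.mem_filter.mp hs).2)
      have h2 : (f.1 n0)⁻¹ * F.1 n0 ∈ A n0 (S.filter fun s => s ≠ n0 ∧ s ≠ zz R * n0) := by
        rw [h1]; trivial
      obtain ⟨g, hg, hg1, hg2⟩ := h2
      refine ⟨f * g, mul_mem hf hg, ?_⟩
      have h3 : (f * g).1 n0 = F.1 n0 := by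
        change f.1 n0 * g.1 n0 = _
        rw [hg2, mul_inv_cancel_left]
      intro s hs
      by_cases hs0 : s = n0
      · rw [hs0, h3]
      · by_cases hs1 : s = zz R * n0
        · rw [hs1, (f * g).2 n0, F.2 n0, h3]
        · have hs2 : s ∈ S := (Finset.mem_insert.mp hs).resolve_left hs0
          change f.1 s * g.1 s = _
          rw [hf1 s hs2, hg1 s (Finset.mem_filter.mpr ⟨hs2, hs0, hs1⟩), mul_one]
  rw [eq_top_iff]
  intro F _
  have : Fintype (NN R) := Fintype.ofFinite _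
  obtain ⟨f, hf, hf1⟩ := step2 F Finset.univ
  have : f = F := Subtype.ext (funext fun n => hf1 n (Finset.mem_univ n))
  rwa [← this]

theorem eq_top_of_MM {L : Subgroup (GG R τ)} (h : HH R τ ≤ L) (hM : MM L = ⊤) : L = ⊤ := by
  rw [eq_top_iff]
  intro g _
  rw [mem_iff h, hM]
  trivial

/-- the support of the periods is nonempty -/
theorem exists_period [IsSimpleGroup T] (hnc : ∃ a b : T, a * b ≠ b * a)
    (hτ : ∃ t, τ t ≠ t) {L : Subgroup (GG R τ)} (h : HH R τ ≤ L) (hD : Dv L = ⊤)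
    (hL : L ≠ ⊤) : ∃ u ∈ Un L, ∃ v x, u.a v x ≠ 0 := by
  by_contra hno
  have h0 : ∀ u ∈ Un L, u = 1 := by
    intro u hu
    have ha : u.a = 0 := by
      funext v x
      by_contra hne
      exact hno ⟨u, hu, v, x, hne⟩
    ext1
    · exact ha
    · exact Un_b h hD hτ hu ha
  apply hL
  apply eq_top_of_MM h
  apply subdirect hnc h hD
  intro n n' hn1 hn2
  by_contra hall
  have hall' : ∀ f ∈ MM L, f.1 n = 1 → f.1 n' = 1 := by
    intro f hf hf1
    by_contra hf2
    exact hall ⟨f, hf, hf1, hf2⟩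
  have hE0 : ∀ f ∈ MM L, ∀ g ∈ MM L, f.1 n = g.1 n → f.1 n' = g.1 n' := by
    intro f hf g hg hfg
    have := hall' (f * g⁻¹) (mul_mem hf (inv_mem hg)) (by
      change f.1 n * (g.1 n)⁻¹ = 1
      rw [hfg, mul_inv_cancel])
    exact mul_inv_eq_one.mp this
  have hE : ∀ f ∈ MM L, ∀ g ∈ MM L, ∀ x y, f.1 x = g.1 y →
      f.1 (x * (n⁻¹ * n')) = g.1 (y * (n⁻¹ * n')) := by
    intro f hf g hg x y hxy
    obtain ⟨f', hf', ef⟩ := shift_mem h (x * n⁻¹) hf
    obtain ⟨g', hg', eg⟩ := shift_mem h (y * n⁻¹) hg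
    have h1 := hE0 f' hf' g' hg' (by
      rw [ef, eg, inv_mul_cancel_right, inv_mul_cancel_right, hxy])
    rw [ef, eg] at h1
    rwa [mul_assoc, mul_assoc] at h1
  set u := n⁻¹ * n' with hu
  have hk : ∀ k : NN R ≃* NN R, k.toEquiv ∈ Gm R → k u = u := by
    intro k hk
    have h1 : u⁻¹ * k u ∈ Un L := by
      intro f hf x
      obtain ⟨g, hg, eg⟩ := comp_mem h hk hf
      have h2 := hE g hg f hf (k.symm (x * u⁻¹)) (x * u⁻¹) (by
        rw [eg]
        exact congrArg f.1 (k.apply_symm_apply _))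
      rw [eg] at h2
      change f.1 (k (k.symm (x * u⁻¹) * u)) = _ at h2
      rw [map_mul, k.apply_symm_apply, inv_mul_cancel_right] at h2
      rwa [← mul_assoc]
    have h3 := h0 _ h1
    rw [inv_mul_eq_one] at h3
    exact h3.symm
  have ha : u.a = 0 := by
    have h1 : ∀ v, u.a v 0 = 0 := by
      intro v
      by_contra hne
      have h2 := congrArg (fun w : NN R => w.a v 0) (hk (kO R) kO_mem)
      simp only [kO_a, Oa_apply, if_true] at h2
      exact Cm_sub_ne _ hne (by rw [h2, sub_self])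
    funext v x
    have h2 := congrArg (fun w : NN R => w.a v 0) (hk (kT R x) (kT_mem x))
    change u.a v (0 + x) = u.a v 0 at h2
    rw [zero_add, h1] at h2
    exact h2
  have hb : ∀ x, u.b x = u.b 0 := by
    intro x
    have h2 := congrArg (fun w : NN R => w.b 0) (hk (kT R x) (kT_mem x))
    change u.b (0 + x) = u.b 0 at h2
    rwa [zero_add] at h2
  have h2 : u.b 0 = 0 ∨ u.b 0 = 1 := by
    generalize u.b 0 = c
    revert c; decide
  rcases h2 with h2 | h2
  · have : u = 1 := by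
      ext1
      · exact ha
      · funext x
        rw [hb, h2]
        rfl
    rw [hu, inv_mul_eq_one] at this
    exact hn1 this.symm
  · have : u = zz R := by
      ext1
      · exact ha
      · funext x
        rw [hb, h2]
        rfl
    apply hn2
    rw [zz_comm, ← this, hu, mul_inv_cancel_left]

theorem betf_loc {u w : UA V} (hu : ∀ v x, x ≠ 0 → u v x = 0) (i : Ix V) (hi : R i.1 i.2.1) :
    bet R u w (dd i) = om (Cs i.2.2 (u i.1 0)) (w i.2.1 0) := by
  classical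
  rw [bet_apply, betf, Finset.sum_eq_single i]
  · rw [if_pos hi, xx_self]
  · intro j _ hj
    split_ifs
    · rw [hu _ _ (fun h0 => hj (dd_inj (xx_add_eq_zero h0)).symm)]
      cases j.2.2 <;> simp [om, Cs, Cm]
    · rfl
  · intro h
    exact absurd (Finset.mem_univ i) h

/-- the support of the periods is independent -/
theorem period_ind (hτ : ∃ t, τ t ≠ t) {L : Subgroup (GG R τ)} (h : HH R τ ≤ L)
    (hD : Dv L = ⊤) {u w : NN R} (hu : u ∈ Un L) (hw : w ∈ Un L) {a b : V} (hab : R a b)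
    {x y : Xx V} (hx : u.a a x ≠ 0) (hy : w.a b y ≠ 0) : False := by
  -- localisation at `0`
  have loc : ∀ u : NN R, u ∈ Un L → ∀ x, ∃ u' ∈ Un L, (∀ v x, x ≠ 0 → u'.a v x = 0) ∧
      ∀ v, u.a v x ≠ 0 → u'.a v 0 ≠ 0 := by
    intro u hu x
    have h1 := Un_k h (kT R x) (kT_mem x) hu
    have h2 := (Un L).mul_mem ((Un L).inv_mem h1) (Un_k h (kO R) kO_mem h1)
    refine ⟨_, h2, ?_, ?_⟩
    · intro v x' hx'
      rw [Tw.mul_a, Tw.inv_a, kO_a]
      simp only [Pi.add_apply, Pi.neg_apply, Oa_apply, if_neg hx', neg_add_cancel]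
    · intro v hv
      rw [Tw.mul_a, Tw.inv_a, kO_a]
      simp only [Pi.add_apply, Pi.neg_apply, Oa_apply, if_true]
      have h3 : (kT R x u).a v 0 = u.a v x := by
        change u.a v (0 + x) = _
        rw [zero_add]
      rw [h3, neg_add_eq_sub]
      exact Cm_sub_ne _ hv
  obtain ⟨u', hu', hu0, hu1⟩ := loc u hu x
  obtain ⟨w', hw', hw0, hw1⟩ := loc w hw y
  have hcomm : ∀ w' ∈ Un L, (∀ v x, x ≠ 0 → w'.a v x = 0) → ∀ s : Bool,
      om (Cs s (u'.a a 0)) (w'.a b 0) = om (Cs s (w'.a a 0)) (u'.a b 0) := by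
    intro w' hw' hw0 s
    have h1 : u' * w' * u'⁻¹ * w'⁻¹ ∈ Un L := (Un L).mul_mem ((Un L).mul_mem
      ((Un L).mul_mem hu' hw') ((Un L).inv_mem hu')) ((Un L).inv_mem hw')
    rw [Tw.comm_eq] at h1
    have h2 := Un_b h hD hτ h1 rfl
    have h3 := congrFun h2 (dd (a, b, s))
    simp only [Pi.sub_apply] at h3
    rw [betf_loc hu0 (a, b, s) hab, betf_loc hw0 (a, b, s) hab] at h3
    exact sub_eq_zero.mp h3
  have hO : ∀ w' ∈ Un L, (∀ v x, x ≠ 0 → w'.a v x = 0) → (kO R w') ∈ Un L ∧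
      (∀ v x, x ≠ 0 → (kO R w').a v x = 0) ∧ ∀ v, (kO R w').a v 0 = Cm (w'.a v 0) := by
    intro w' hw' hw0
    refine ⟨Un_k h (kO R) kO_mem hw', ?_, ?_⟩
    · intro v x hx
      rw [kO_a, Oa_apply, if_neg hx, hw0 v x hx]
    · intro v
      rw [kO_a, Oa_apply, if_pos rfl]
  obtain ⟨g1, g2, g3⟩ := hO w' hw' hw0
  obtain ⟨k1, k2, k3⟩ := hO _ g1 g2
  refine om_sep (u'.a a 0) (w'.a b 0) (w'.a a 0) (u'.a b 0) (hu1 a hx) (hw1 b hy)
    (hcomm w' hw' hw0) ?_ ?_
  · intro s
    have := hcomm _ g1 g2 s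
    rwa [g3, g3] at this
  · intro s
    have := hcomm _ k1 k2 s
    rwa [k3, k3, g3, g3] at this

end Pool.Agent.W297
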