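import Pool.Agent.W811.LW.Stm

set_option autoImplicit false
open Finset Filter Topology

namespace Pool.Agent.W297.LWPos
open Pool.Agent.W811.LW

theorem one_le_abs_cast {q : ℤ} (h : q ≠ 0) : (1 : ℝ) ≤ |(q : ℝ)| := by
  have h1 : (1 : ℤ) ≤ |q| := Int.one_le_abs h
  have h2 : ((1 : ℤ) : ℝ) ≤ ((|q| : ℤ) : ℝ) := by exact_mod_cast h1
  simpa using h2

theorem inN_pos {S : Set V3} {a b : V3 → ℝ} {c : ℝ} (hS : S.Nonempty) (hc : 0 < c)
    (h : ∀ v ∈ S, c ≤ |b v|) : 0 < inN S a b := by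
  unfold inN
  refine lt_of_lt_of_le hc (le_csInf (hS.image _) ?_)
  rintro x ⟨v, hv, rfl⟩
  exact (h v hv).trans (le_max_right _ _)

theorem pos : POS := by
  intro D α c0 β j t m hD hc0 hbad
  have hD0 : (0 : ℝ) < (D : ℝ) := by
    have : 0 < D := by omega
    exact_mod_cast this
  have hD1 : (1 : ℝ) ≤ (D : ℝ) := by
    have : 1 ≤ D := by omega
    exact_mod_cast this
  have hV : (famV (D : ℝ) α m).Nonempty := by
    have hn : 0 < D ^ (2 * m) := by positivity
    obtain ⟨p, q, hq, -, hpq⟩ := Real.exists_int_int_abs_mul_sub_le α hn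
    refine ⟨(q, p, 0), ?_, ?_⟩
    · exact ne_of_gt hq
    · have h1 : (0 : ℝ) < (D : ℝ) ^ (2 * m) := by positivity
      have h2 : |(q : ℝ) * α - (p : ℝ)| ≤ 1 / ((D : ℝ) ^ (2 * m) + 1) := by
        have := hpq
        push_cast at this
        exact this
      have h3 : (1 : ℝ) / ((D : ℝ) ^ (2 * m) + 1) * (D : ℝ) ^ (2 * m) ≤ 1 := by
        rw [div_mul_eq_mul_div, one_mul, div_le_one (by positivity)]
        linarith
      calc |(q : ℝ) * α - (p : ℝ)| * (D : ℝ) ^ (2 * m)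
          ≤ 1 / ((D : ℝ) ^ (2 * m) + 1) * (D : ℝ) ^ (2 * m) :=
            mul_le_mul_of_nonneg_right h2 h1.le
        _ ≤ 1 := h3
  have hW : (famW (D : ℝ) m).Nonempty := by
    refine ⟨(0, 1, 1), ?_, ?_, ?_⟩
    · exact one_ne_zero
    · exact one_ne_zero
    · simpa using one_le_pow₀ (n := 2 * m) hD1
  refine ⟨hV, hW, ?_, ?_⟩
  · unfold yV
    refine inN_pos (c := 1 / (D : ℝ) ^ (2 * j + t)) hV (by positivity) ?_
    intro v hv
    have h1 := one_le_abs_cast hv.1
    unfold bV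
    rw [abs_div, abs_of_pos (show (0 : ℝ) < (D : ℝ) ^ (2 * j + t) by positivity)]
    exact div_le_div_of_nonneg_right h1 (by positivity)
  · unfold yW
    refine inN_pos (c := 1 / (D : ℝ) ^ t) hW (by positivity) ?_
    intro w hw
    have h1 := one_le_abs_cast hw.2.1
    unfold bW
    rw [abs_div, abs_of_pos (show (0 : ℝ) < (D : ℝ) ^ t by positivity)]
    exact div_le_div_of_nonneg_right h1 (by positivity)

end Pool.Agent.W297.LWPos
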