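import Mathlib

/-! Ordered chains as formal sums of lists; a shuffle product; cochains modulo two. -/

set_option autoImplicit false

namespace Pool.Agent.W297.Lc

open Finsupp

abbrev LC (α : Type) : Type := List α →₀ ℤ

theorem supp_map {α M : Type} [AddCommGroup M] (s : Set α)
    (L : (α →₀ ℤ) →ₗ[ℤ] M) (N : Submodule ℤ M) (h : ∀ a ∈ s, L (single a 1) ∈ N)
    (z : α →₀ ℤ) (hz : z ∈ Finsupp.supported ℤ ℤ s) : L z ∈ N := by
  rw [Finsupp.supported_eq_span_single] at hz
  have : Submodule.span ℤ ((fun i => single i (1 : ℤ)) '' s) ≤ N.comap L := by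
    rw [Submodule.span_le]
    rintro _ ⟨a, ha, rfl⟩
    exact h a ha
  exact this hz

variable {α β γ : Type}

theorem ext_lc {S M : Type} [AddCommGroup M] {L L' : (S →₀ ℤ) →ₗ[ℤ] M}
    (h : ∀ l : S, L (single l 1) = L' (single l 1)) (z : S →₀ ℤ) : L z = L' z := by
  have : L = L' := by
    apply Finsupp.lhom_ext'
    intro σ
    apply LinearMap.ext_ring
    exact h σ
  rw [this]

noncomputable def cns (x : α) : LC α →ₗ[ℤ] LC α := Finsupp.lmapDomain ℤ ℤ (List.cons x)

theorem cns_single (x : α) (l : List α) (a : ℤ) : cns x (single l a) = single (x :: l) a := by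
  simp [cns]

noncomputable def dl : List α → LC α
  | [] => 0
  | x :: l => single l 1 - cns x (dl l)

noncomputable def D : LC α →ₗ[ℤ] LC α := Finsupp.linearCombination ℤ dl

theorem D_single (l : List α) : D (single l 1) = dl l := by
  simp [D]

theorem D_cns (x : α) (c : LC α) : D (cns x c) = c - cns x (D c) := by
  refine ext_lc (L := D.comp (cns x)) (L' := LinearMap.id - (cns x).comp D) (fun l => ?_) c
  simp only [LinearMap.comp_apply, LinearMap.sub_apply, LinearMap.id_apply]
  rw [cns_single, D_single, D_single]
  rfl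

theorem D_D (c : LC α) : D (D c) = 0 := by
  refine ext_lc (L := D.comp D) (L' := 0) (fun l => ?_) c
  simp only [LinearMap.comp_apply, LinearMap.zero_apply]
  rw [D_single]
  induction l with
  | nil => exact map_zero _
  | cons x l ih =>
    rw [dl, map_sub, D_cns, D_single, ih, map_zero]
    abel

/-- push forward -/
noncomputable def lm (f : α → β) : LC α →ₗ[ℤ] LC β := Finsupp.lmapDomain ℤ ℤ (List.map f)

theorem lm_single (f : α → β) (l : List α) (a : ℤ) : lm f (single l a) = single (l.map f) a := by
  simp [lm]

theorem lm_cns (f : α → β) (x : α) (c : LC α) : lm f (cns x c) = cns (f x) (lm f c) := by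
  refine ext_lc (L := (lm f).comp (cns x)) (L' := (cns (f x)).comp (lm f)) (fun l => ?_) c
  simp only [LinearMap.comp_apply, cns_single, lm_single, List.map_cons]

theorem D_lm (f : α → β) (c : LC α) : D (lm f c) = lm f (D c) := by
  refine ext_lc (L := D.comp (lm f)) (L' := (lm f).comp D) (fun l => ?_) c
  simp only [LinearMap.comp_apply]
  rw [lm_single, D_single, D_single]
  induction l with
  | nil => exact (map_zero _).symm
  | cons x l ih => rw [List.map_cons, dl, dl, map_sub, lm_cns, lm_single, ih]

/-- the sign involution -/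
noncomputable def Es : LC α →ₗ[ℤ] LC α :=
  Finsupp.linearCombination ℤ (fun l => ((-1 : ℤ) ^ l.length) • single l (1 : ℤ))

theorem Es_single (l : List α) : Es (single l 1) = ((-1 : ℤ) ^ l.length) • single l (1 : ℤ) := by
  simp [Es]

theorem Es_cns (x : α) (c : LC α) : Es (cns x c) = - cns x (Es c) := by
  refine ext_lc (L := Es.comp (cns x)) (L' := - (cns x).comp Es) (fun l => ?_) c
  simp only [LinearMap.comp_apply, LinearMap.neg_apply]
  rw [cns_single, Es_single, Es_single, map_smul, cns_single, List.length_cons, pow_succ]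
  simp

theorem D_Es (c : LC α) : D (Es c) = - Es (D c) := by
  refine ext_lc (L := D.comp Es) (L' := - Es.comp D) (fun l => ?_) c
  simp only [LinearMap.comp_apply, LinearMap.neg_apply]
  induction l with
  | nil =>
    rw [Es_single, D_single, dl, map_zero, neg_zero, List.length_nil, pow_zero, one_smul,
      D_single, dl]
  | cons x l ih =>
    have h1 : single (x :: l) (1 : ℤ) = cns x (single l 1) := (cns_single x l 1).symm
    rw [h1, Es_cns, map_neg, D_cns, ih, D_cns, map_sub, Es_cns, map_neg]

theorem Es_dl (l : List α) : Es (dl l) = - ((-1 : ℤ) ^ l.length) • dl l := by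
  have h := D_Es (single l (1 : ℤ))
  rw [Es_single, map_smul, D_single] at h
  rw [eq_neg_iff_add_eq_zero, add_comm, ← eq_neg_iff_add_eq_zero] at h
  rw [neg_smul, h]

section shuffle

variable (φ : β → α → γ) (tb : β) (ta : α)

noncomputable def sh : List β → List α → LC γ
  | [], m => single (m.map (φ tb)) 1
  | b :: l, [] => single ((b :: l).map (fun x => φ x ta)) 1
  | b :: l, a :: m =>
    cns (φ b a) (sh l (a :: m) - ((-1 : ℤ) ^ l.length) • sh (b :: l) m)
  termination_by l m => l.length + m.length

noncomputable def G : LC β →ₗ[ℤ] LC α →ₗ[ℤ] LC γ :=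
  Finsupp.linearCombination ℤ (fun l => (Finsupp.linearCombination ℤ (sh φ tb ta l) :
    LC α →ₗ[ℤ] LC γ))

theorem G_single (l : List β) (m : List α) :
    G φ tb ta (single l 1) (single m 1) = sh φ tb ta l m := by
  simp [G]

theorem G_nil (y : LC α) : G φ tb ta (single [] 1) y = lm (φ tb) y := by
  refine ext_lc (L := G φ tb ta (single [] 1)) (L' := lm (φ tb)) (fun m => ?_) y
  rw [G_single, lm_single, sh]

theorem G_nil_right (x : LC β) : G φ tb ta x (single [] 1) = lm (fun b => φ b ta) x := by
  refine ext_lc (L := (LinearMap.flip (G φ tb ta)) (single [] 1))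
    (L' := lm (fun b => φ b ta)) (fun l => ?_) x
  rw [LinearMap.flip_apply, G_single, lm_single]
  cases l with
  | nil => rw [sh]; rfl
  | cons b l => rw [sh]

theorem G_cns_cns (b : β) (a : α) (x : LC β) (y : LC α) :
    G φ tb ta (cns b x) (cns a y) =
      cns (φ b a) (G φ tb ta x (cns a y) - G φ tb ta (cns b (Es x)) y) := by
  have key : ∀ l m, G φ tb ta (cns b (single l 1)) (cns a (single m 1)) =
      cns (φ b a) (G φ tb ta (single l 1) (cns a (single m 1)) -
        G φ tb ta (cns b (Es (single l 1))) (single m 1)) := by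
    intro l m
    rw [cns_single, cns_single, G_single, G_single, Es_single, map_smul, cns_single, map_smul,
      LinearMap.smul_apply, G_single, sh]
  have k2 : ∀ l, G φ tb ta (cns b (single l 1)) (cns a y) =
      cns (φ b a) (G φ tb ta (single l 1) (cns a y) - G φ tb ta (cns b (Es (single l 1))) y) := by
    intro l
    exact ext_lc (L := (G φ tb ta (cns b (single l 1))).comp (cns a))
      (L' := (cns (φ b a)).comp ((G φ tb ta (single l 1)).comp (cns a) -
        G φ tb ta (cns b (Es (single l 1))))) (key l) y
  exact ext_lc (L := (LinearMap.flip (G φ tb ta) (cns a y)).comp (cns b))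
      (L' := (cns (φ b a)).comp ((LinearMap.flip (G φ tb ta)) (cns a y) -
        ((LinearMap.flip (G φ tb ta)) y).comp ((cns b).comp Es))) k2 x

theorem D_sh : ∀ (l : List β) (m : List α), D (sh φ tb ta l m) =
    G φ tb ta (dl l) (single m 1) + G φ tb ta (Es (single l 1)) (dl m)
  | [], m => by
    have h1 : sh φ tb ta ([] : List β) m = lm (φ tb) (single m 1) := by
      rw [sh, lm_single]
    rw [h1, D_lm, D_single, dl, map_zero, LinearMap.zero_apply, zero_add, Es_single,
      List.length_nil, pow_zero, one_smul, G_nil]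
  | b :: l, [] => by
    have h1 : sh φ tb ta (b :: l) [] = lm (fun x => φ x ta) (single (b :: l) 1) := by
      rw [sh, lm_single]
    rw [h1, D_lm, D_single, G_nil_right]
    change _ = _ + G φ tb ta _ 0
    rw [map_zero, add_zero]
  | b :: l, a :: m => by
    have i1 := D_sh l (a :: m)
    have i2 := D_sh (b :: l) m
    have hb : single (b :: l) (1 : ℤ) = cns b (single l 1) := (cns_single b l 1).symm
    have ha : single (a :: m) (1 : ℤ) = cns a (single m 1) := (cns_single a m 1).symm
    have e1 : dl (b :: l) = single l 1 - cns b (dl l) := rfl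
    have e2 : dl (a :: m) = single m 1 - cns a (dl m) := rfl
    have g1 := G_cns_cns φ tb ta b a (dl l) (single m 1)
    have g2 := G_cns_cns φ tb ta b a (single l 1) (dl m)
    have hs : sh φ tb ta (b :: l) (a :: m) =
        cns (φ b a) (sh φ tb ta l (a :: m) - ((-1 : ℤ) ^ l.length) • sh φ tb ta (b :: l) m) := by
      rw [sh]
    have hE : Es (single (b :: l) (1 : ℤ)) = - ((-1 : ℤ) ^ l.length) • cns b (single l 1) := by
      rw [hb, Es_cns, Es_single, map_smul, neg_smul]
    have hq : ((-1 : ℤ) ^ l.length) * ((-1 : ℤ) ^ l.length) = 1 := by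
      rw [← mul_pow]; simp
    rw [Es_dl] at g1
    rw [Es_single] at g2 i1
    rw [hE] at i2
    rw [hE, hs, D_cns, map_sub, map_smul, i1, i2, e1, e2, ha]
    have s1 : sh φ tb ta l (a :: m) = G φ tb ta (single l 1) (cns a (single m 1)) := by
      rw [← ha, G_single]
    have s2 : sh φ tb ta (b :: l) m = G φ tb ta (cns b (single l 1)) (single m 1) := by
      rw [← hb, G_single]
    rw [s1, s2]
    simp only [map_sub, map_smul, map_neg, LinearMap.sub_apply, LinearMap.smul_apply,
      LinearMap.neg_apply, map_add, neg_smul, smul_neg, smul_sub, smul_add] at g1 g2 ⊢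
    rw [g1, g2]
    simp only [smul_sub, smul_smul, hq, one_smul]
    abel
  termination_by l m => l.length + m.length

theorem D_G (x : LC β) (y : LC α) :
    D (G φ tb ta x y) = G φ tb ta (D x) y + G φ tb ta (Es x) (D y) := by
  have key : ∀ l m, D (G φ tb ta (single l 1) (single m 1)) =
      G φ tb ta (D (single l 1)) (single m 1) + G φ tb ta (Es (single l 1)) (D (single m 1)) := by
    intro l m
    rw [G_single, D_sh, D_single, D_single]
  have k2 : ∀ l, D (G φ tb ta (single l 1) y) =
      G φ tb ta (D (single l 1)) y + G φ tb ta (Es (single l 1)) (D y) := by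
    intro l
    exact ext_lc (L := D.comp (G φ tb ta (single l 1)))
      (L' := G φ tb ta (D (single l 1)) + (G φ tb ta (Es (single l 1))).comp D) (key l) y
  exact ext_lc (L := D.comp (LinearMap.flip (G φ tb ta) y))
    (L' := (LinearMap.flip (G φ tb ta) y).comp D + (LinearMap.flip (G φ tb ta) (D y)).comp Es)
    k2 x

end shuffle

end Pool.Agent.W297.Lc
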