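import Pool.Agent.W297.Lch
import Pool.Agent.Helper922.HB.Sc.Prism

/-! Supports of list chains, product cochains, comparison with tuples. -/

set_option autoImplicit false

namespace Pool.Agent.W297.Lc

open Finsupp
open Pool.Agent.Helper922.HB.Sc (tbd tcone tcone_single tbd_tcone_succ tbd_tcone_zero tbd_single)

variable {α β γ : Type}

theorem mem_supp_single {S : Type} {s : Set S} {a : S} (h : a ∈ s) :
    single a (1 : ℤ) ∈ supported ℤ ℤ s := Finsupp.single_mem_supported ℤ _ h

theorem cns_supp (x : α) {s t : Set (List α)} (h : ∀ l ∈ s, x :: l ∈ t) {c : LC α}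
    (hc : c ∈ supported ℤ ℤ s) : cns x c ∈ supported ℤ ℤ t := by
  refine supp_map s (cns x) _ (fun l hl => ?_) c hc
  rw [cns_single]
  exact mem_supp_single (h l hl)

theorem dl_supp_len (l : List α) : dl l ∈ supported ℤ ℤ {q : List α | q.length + 1 = l.length} := by
  induction l with
  | nil => exact Submodule.zero_mem _
  | cons x l ih =>
    rw [dl]
    refine Submodule.sub_mem _ (mem_supp_single rfl) (cns_supp x ?_ ih)
    intro q hq
    change (x :: q).length + 1 = (x :: l).length
    rw [List.length_cons, List.length_cons, hq]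

theorem supp_mono {S : Type} {s t : Set S} (h : s ⊆ t) {c : S →₀ ℤ}
    (hc : c ∈ supported ℤ ℤ s) : c ∈ supported ℤ ℤ t := Finsupp.supported_mono h hc

/-- evaluation -/
noncomputable def evl {M : Type} [AddCommGroup M] (p : List γ → M) : LC γ →ₗ[ℤ] M :=
  Finsupp.linearCombination ℤ p

theorem evl_single {M : Type} [AddCommGroup M] (p : List γ → M) (l : List γ) :
    evl p (single l 1) = p l := by
  simp [evl]

theorem evl_cns {M : Type} [AddCommGroup M] (p : List γ → M) (x : γ) (c : LC γ) :
    evl p (cns x c) = evl (fun l => p (x :: l)) c := by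
  refine ext_lc (L := (evl p).comp (cns x)) (L' := evl (fun l => p (x :: l))) (fun l => ?_) c
  rw [LinearMap.comp_apply, cns_single, evl_single, evl_single]

theorem evl_zero_of {M : Type} [AddCommGroup M] {p : List γ → M} {s : Set (List γ)}
    (h : ∀ l ∈ s, p l = 0) {c : LC γ} (hc : c ∈ supported ℤ ℤ s) : evl p c = 0 := by
  have := supp_map s (evl p) ⊥ (fun l hl => by
    rw [evl_single, h l hl]; exact Submodule.zero_mem _) c hc
  simpa using this

/-- product cochain -/
def pq (Gd : γ → Bool) (p q : List γ → ZMod 2) (l : List γ) : ZMod 2 :=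
  p (l.filter Gd) * q (l.filter fun x => !Gd x)

theorem zsub (a b : ZMod 2) : a - b = a + b := by
  rw [sub_eq_add_neg, ZMod.neg_eq_self_mod_two]

theorem pq_coc (Gd : γ → Bool) (p q : List γ → ZMod 2) (l : List γ) :
    evl (pq Gd p q) (dl l) = evl p (dl (l.filter Gd)) * q (l.filter fun x => !Gd x) +
      p (l.filter Gd) * evl q (dl (l.filter fun x => !Gd x)) := by
  induction l generalizing p q with
  | nil => simp [dl]
  | cons x l ih =>
    rw [dl, map_sub, evl_single, evl_cns]
    cases hx : Gd x with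
    | true =>
      have e1 : (x :: l).filter Gd = x :: l.filter Gd := List.filter_cons_of_pos (by rw [hx])
      have e2 : ((x :: l).filter fun x => !Gd x) = l.filter fun x => !Gd x :=
        List.filter_cons_of_neg (by rw [hx]; decide)
      have e3 : (fun l => pq Gd p q (x :: l)) = pq Gd (fun l => p (x :: l)) q := by
        funext l'
        unfold pq
        rw [List.filter_cons_of_pos (by rw [hx]), List.filter_cons_of_neg (by rw [hx]; decide)]
      rw [e3, ih, e1, e2, dl, map_sub, evl_single, evl_cns]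
      simp only [zsub, pq]
      ring
    | false =>
      have e1 : (x :: l).filter Gd = l.filter Gd := List.filter_cons_of_neg (by rw [hx]; decide)
      have e2 : ((x :: l).filter fun x => !Gd x) = x :: l.filter fun x => !Gd x :=
        List.filter_cons_of_pos (by rw [hx]; rfl)
      have e3 : (fun l => pq Gd p q (x :: l)) = pq Gd p (fun l => q (x :: l)) := by
        funext l'
        unfold pq
        rw [List.filter_cons_of_neg (by rw [hx]; decide), List.filter_cons_of_pos (by rw [hx]; rfl)]
      rw [e3, ih, e1, e2, dl, map_sub, evl_single, evl_cns]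
      simp only [zsub, pq]
      ring

/-- two point cochain -/
def pc (c : γ → γ → ZMod 2) : List γ → ZMod 2
  | [x, y] => c x y
  | _ => 0

theorem pc_ne {c : γ → γ → ZMod 2} {l : List γ} (h : l.length ≠ 2) : pc c l = 0 := by
  match l, h with
  | [], _ => rfl
  | [_], _ => rfl
  | [x, y], h => exact absurd rfl h
  | _ :: _ :: _ :: _, _ => rfl

theorem pc_coc (c : γ → γ → ZMod 2) (l : List γ)
    (h : ∀ x ∈ l, ∀ y ∈ l, ∀ z ∈ l, c y z + c x z + c x y = 0) : evl (pc c) (dl l) = 0 := by
  by_cases hl : l.length = 3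
  · match l, hl with
    | [x, y, z], _ =>
      have h1 := h x (by simp) y (by simp) z (by simp)
      simp only [dl, map_sub, evl_single, evl_cns, map_zero, sub_zero, pc, zsub]
      rw [← h1]
      ring
  · refine evl_zero_of (s := {q : List γ | q.length + 1 = l.length}) ?_ (dl_supp_len l)
    intro q hq
    apply pc_ne
    intro h2
    apply hl
    rw [← hq, h2]

theorem pq_ne (Gd : γ → Bool) (c c' : γ → γ → ZMod 2) {l : List γ} (h : l.length ≠ 4) :
    pq Gd (pc c) (pc c') l = 0 := by
  unfold pq
  by_cases h1 : (l.filter Gd).length = 2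
  · by_cases h2 : (l.filter fun x => !Gd x).length = 2
    · exfalso
      apply h
      rw [List.length_eq_length_filter_add Gd, h1, h2]
    · rw [pc_ne h2, mul_zero]
  · rw [pc_ne h1, zero_mul]

/-! ### tuples -/

theorem get_cons (x : α) (l : List α) {n : ℕ} (h : l.length = n + 1)
    (h' : (x :: l).length = n + 2) :
    (fun i : Fin (n + 2) => (x :: l).get (i.cast h'.symm)) =
      (Fin.cons x (fun i : Fin (n + 1) => l.get (i.cast h.symm)) : Fin (n + 2) → α) := by
  funext i
  refine Fin.cases ?_ (fun j => ?_) i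
  · rfl
  · rfl

noncomputable def toT (n : ℕ) : LC α →ₗ[ℤ] ((Fin (n + 1) → α) →₀ ℤ) :=
  Finsupp.linearCombination ℤ (fun l => if h : l.length = n + 1 then
    single (fun i : Fin (n + 1) => l.get (i.cast h.symm)) (1 : ℤ) else 0)

theorem toT_single {n : ℕ} {l : List α} (h : l.length = n + 1) :
    toT n (single l 1) = single (fun i : Fin (n + 1) => l.get (i.cast h.symm)) (1 : ℤ) := by
  rw [toT, linearCombination_single, one_smul, dif_pos h]

theorem toT_single_ne {n : ℕ} {l : List α} (h : l.length ≠ n + 1) :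
    toT n (single l (1 : ℤ)) = 0 := by
  rw [toT, linearCombination_single, one_smul, dif_neg h]

theorem toT_cns (n : ℕ) (x : α) (c : LC α) : toT (n + 1) (cns x c) = tcone n x (toT n c) := by
  refine ext_lc (L := (toT (n + 1)).comp (cns x)) (L' := (tcone n x).comp (toT n))
    (fun l => ?_) c
  rw [LinearMap.comp_apply, LinearMap.comp_apply, cns_single]
  by_cases h : l.length = n + 1
  · have h' : (x :: l).length = n + 2 := by rw [List.length_cons, h]
    rw [toT_single h, toT_single (n := n + 1) h', tcone_single, get_cons x l h h']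
  · have h' : (x :: l).length ≠ n + 1 + 1 := by
      rw [List.length_cons]
      omega
    rw [toT_single_ne h, toT_single_ne h', map_zero]

theorem toT_zero_of {n : ℕ} {s : Set (List α)} (h : ∀ l ∈ s, l.length ≠ n + 1) {c : LC α}
    (hc : c ∈ supported ℤ ℤ s) : toT n c = 0 := by
  have := supp_map s (toT n) ⊥ (fun l hl => by
    rw [toT_single_ne (h l hl)]; exact Submodule.zero_mem _) c hc
  simpa using this

theorem toT_dl (l : List α) : ∀ n : ℕ, toT n (dl l) = tbd α n (toT (n + 1) (single l 1)) := by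
  induction l with
  | nil =>
    intro n
    rw [toT_single_ne (by simp), map_zero]
    exact map_zero _
  | cons x l ih =>
    intro n
    rw [dl, map_sub, ← cns_single, toT_cns]
    cases n with
    | succ n =>
      rw [toT_cns, ih n, tbd_tcone_succ]
    | zero =>
      match l, ih with
      | [], _ =>
        have h1 : toT 0 (single ([] : List α) (1 : ℤ)) = 0 := toT_single_ne (by simp)
        rw [h1, map_zero, map_zero]
        simp [dl]
      | [y], _ =>
        have h1 : toT 0 (single [y] (1 : ℤ)) = single (fun _ => y) 1 := by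
          rw [toT_single (n := 0) rfl]
          congr 1
          funext i
          fin_cases i
          rfl
        have h2 : toT 0 (single [x] (1 : ℤ)) = single (fun _ => x) 1 := by
          rw [toT_single (n := 0) rfl]
          congr 1
          funext i
          fin_cases i
          rfl
        rw [h1, tbd_tcone_zero]
        congr 1
        simp only [dl, map_zero, sub_zero]
        rw [cns_single, h2]
      | y :: y' :: l, _ =>
        rw [toT_single_ne (by simp)]
        rw [map_zero, map_zero, zero_sub, neg_eq_zero]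
        refine toT_zero_of (s := {q : List α | 2 ≤ q.length}) (fun q hq => ?_)
          (cns_supp x ?_ (dl_supp_len _))
        · have : 2 ≤ q.length := hq
          omega
        · intro q hq
          have : q.length + 1 = (y :: y' :: l).length := hq
          simp only [List.length_cons] at this
          change 2 ≤ (x :: q).length
          rw [List.length_cons]
          omega

theorem toT_D (n : ℕ) (c : LC α) : toT n (D c) = tbd α n (toT (n + 1) c) := by
  refine ext_lc (L := (toT n).comp D) (L' := (tbd α n).comp (toT (n + 1))) (fun l => ?_) c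
  rw [LinearMap.comp_apply, LinearMap.comp_apply, D_single, toT_dl]

/-- cochains on lists give cochains on tuples -/
theorem evl_toT {M : Type} [AddCommGroup M] {n : ℕ} {p : List α → M}
    (hp : ∀ l, l.length ≠ n + 1 → p l = 0) (c : LC α) :
    evl p c = Finsupp.linearCombination ℤ (fun t : Fin (n + 1) → α => p (List.ofFn t))
      (toT n c) := by
  refine ext_lc (L := evl p) (L' := (Finsupp.linearCombination ℤ
    (fun t : Fin (n + 1) → α => p (List.ofFn t))).comp (toT n)) (fun l => ?_) c
  rw [LinearMap.comp_apply, evl_single]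
  by_cases h : l.length = n + 1
  · rw [toT_single h, linearCombination_single, one_smul]
    congr 1
    subst_vars
    have : List.ofFn (fun i : Fin (n + 1) => l.get (i.cast h.symm)) = List.ofFn l.get := by
      rw [List.ofFn_congr h.symm]
      rfl
    rw [this, List.ofFn_get]
  · rw [hp l h, toT_single_ne h, map_zero]

theorem toT_ofFn {n : ℕ} (t : Fin (n + 1) → α) : toT n (single (List.ofFn t) (1 : ℤ)) =
    single t 1 := by
  rw [toT_single (List.length_ofFn)]
  congr 1
  funext i
  rw [List.get_ofFn]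
  rfl

/-- supports of tuples -/
theorem toT_supp {n : ℕ} {P : α → Prop} {Q : α → α → Prop} {s : Set (List α)}
    (hs : ∀ l ∈ s, (∀ x ∈ l, P x) ∧ ∀ x ∈ l, ∀ y ∈ l, Q x y) {c : LC α}
    (hc : c ∈ supported ℤ ℤ s) : toT n c ∈ supported ℤ ℤ
      {t : Fin (n + 1) → α | (∀ i, P (t i)) ∧ ∀ i j, Q (t i) (t j)} := by
  refine supp_map s (toT n) _ (fun l hl => ?_) c hc
  by_cases h : l.length = n + 1
  · rw [toT_single h]
    refine mem_supp_single ⟨fun i => (hs l hl).1 _ (List.get_mem _ _), fun i j =>
      (hs l hl).2 _ (List.get_mem _ _) _ (List.get_mem _ _)⟩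
  · rw [toT_single_ne h]
    exact Submodule.zero_mem _

section shsupp

variable [Preorder β] [OrderTop β] [Preorder α] [OrderBot α] [Preorder γ]

/-- the set of values of the shuffle product -/
def Sv (φ : β → α → γ) (l : List β) (m : List α) : Set γ :=
  {x | (∃ b ∈ l, ∃ a ∈ m, x = φ b a) ∨ (∃ b ∈ l, x = φ b ⊥) ∨ ∃ a ∈ m, x = φ ⊤ a}

theorem sh_supp (φ : β → α → γ) (hφ : ∀ b b' a a', b ≤ b' → a' ≤ a → φ b a ≤ φ b' a') :
    ∀ (l : List β) (m : List α), l.Pairwise (· ≤ ·) → m.Pairwise (fun a a' => a' ≤ a) →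
      sh φ ⊤ ⊥ l m ∈ supported ℤ ℤ {q : List γ | q.Pairwise (· ≤ ·) ∧ ∀ x ∈ q, x ∈ Sv φ l m}
  | [], m, _, hm => by
    rw [sh]
    refine mem_supp_single ⟨?_, ?_⟩
    · rw [List.pairwise_map]
      exact hm.imp fun h => hφ _ _ _ _ le_rfl h
    · intro x hx
      obtain ⟨a, ha, rfl⟩ := List.mem_map.mp hx
      exact Or.inr (Or.inr ⟨a, ha, rfl⟩)
  | b :: l, [], hl, _ => by
    rw [sh]
    refine mem_supp_single ⟨?_, ?_⟩
    · rw [List.pairwise_map]
      exact hl.imp fun h => hφ _ _ _ _ h le_rfl
    · intro x hx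
      obtain ⟨a, ha, rfl⟩ := List.mem_map.mp hx
      exact Or.inr (Or.inl ⟨a, ha, rfl⟩)
  | b :: l, a :: m, hl, hm => by
    rw [sh]
    have i1 := sh_supp φ hφ l (a :: m) hl.of_cons hm
    have i2 := sh_supp φ hφ (b :: l) m hl hm.of_cons
    rw [List.pairwise_cons] at hl hm
    have hb : ∀ b' ∈ b :: l, b ≤ b' := by
      intro b' hb'
      rcases List.mem_cons.mp hb' with rfl | h
      · exact le_rfl
      · exact hl.1 b' h
    have ha : ∀ a' ∈ a :: m, a' ≤ a := by
      intro a' ha'
      rcases List.mem_cons.mp ha' with rfl | h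
      · exact le_rfl
      · exact hm.1 a' h
    have hle : ∀ x ∈ Sv φ (b :: l) (a :: m), φ b a ≤ x := by
      rintro x (⟨b', hb', a', ha', rfl⟩ | ⟨b', hb', rfl⟩ | ⟨a', ha', rfl⟩)
      · exact hφ _ _ _ _ (hb b' hb') (ha a' ha')
      · exact hφ _ _ _ _ (hb b' hb') bot_le
      · exact hφ _ _ _ _ le_top (ha a' ha')
    have s1 : Sv φ l (a :: m) ⊆ Sv φ (b :: l) (a :: m) := by
      rintro x (⟨b', hb', a', ha', rfl⟩ | ⟨b', hb', rfl⟩ | ⟨a', ha', rfl⟩)
      · exact Or.inl ⟨b', List.mem_cons_of_mem _ hb', a', ha', rfl⟩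
      · exact Or.inr (Or.inl ⟨b', List.mem_cons_of_mem _ hb', rfl⟩)
      · exact Or.inr (Or.inr ⟨a', ha', rfl⟩)
    have s2 : Sv φ (b :: l) m ⊆ Sv φ (b :: l) (a :: m) := by
      rintro x (⟨b', hb', a', ha', rfl⟩ | ⟨b', hb', rfl⟩ | ⟨a', ha', rfl⟩)
      · exact Or.inl ⟨b', hb', a', List.mem_cons_of_mem _ ha', rfl⟩
      · exact Or.inr (Or.inl ⟨b', hb', rfl⟩)
      · exact Or.inr (Or.inr ⟨a', List.mem_cons_of_mem _ ha', rfl⟩)
    have hhd : φ b a ∈ Sv φ (b :: l) (a :: m) :=
      Or.inl ⟨b, List.mem_cons_self, a, List.mem_cons_self, rfl⟩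
    refine cns_supp (φ b a) (s := {q : List γ | q.Pairwise (· ≤ ·) ∧
      ∀ x ∈ q, x ∈ Sv φ (b :: l) (a :: m)}) ?_ (Submodule.sub_mem _ ?_ (Submodule.smul_mem _ _ ?_))
    · intro q hq
      refine ⟨List.pairwise_cons.mpr ⟨fun x hx => hle x (hq.2 x hx), hq.1⟩, ?_⟩
      intro x hx
      rcases List.mem_cons.mp hx with rfl | h
      · exact hhd
      · exact hq.2 x h
    · refine supp_mono ?_ i1
      intro q hq
      exact ⟨hq.1, fun x hx => s1 (hq.2 x hx)⟩
    · refine supp_mono ?_ i2
      intro q hq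
      exact ⟨hq.1, fun x hx => s2 (hq.2 x hx)⟩
  termination_by l m => l.length + m.length

/-- support of a bilinear combination -/
theorem G_supp (φ : β → α → γ) (hφ : ∀ b b' a a', b ≤ b' → a' ≤ a → φ b a ≤ φ b' a')
    {s : Set (List β)} {t : Set (List α)} (P : γ → Prop)
    (hs : ∀ l ∈ s, l.Pairwise (· ≤ ·)) (ht : ∀ m ∈ t, m.Pairwise (fun a a' => a' ≤ a))
    (hP : ∀ l ∈ s, ∀ m ∈ t, ∀ x ∈ Sv φ l m, P x) {x : LC β} {y : LC α}
    (hx : x ∈ supported ℤ ℤ s) (hy : y ∈ supported ℤ ℤ t) :
    G φ ⊤ ⊥ x y ∈ supported ℤ ℤ {q : List γ | q.Pairwise (· ≤ ·) ∧ ∀ x ∈ q, P x} := by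
  refine supp_map s ((LinearMap.flip (G φ ⊤ ⊥)) y) _ (fun l hl => ?_) x hx
  rw [LinearMap.flip_apply]
  refine supp_map t (G φ ⊤ ⊥ (single l 1)) _ (fun m hm => ?_) y hy
  rw [G_single]
  refine supp_mono ?_ (sh_supp φ hφ l m (hs l hl) (ht m hm))
  intro q hq
  exact ⟨hq.1, fun x hx => hP l hl m hm x (hq.2 x hx)⟩

end shsupp

/-- pairwise `≤` gives comparability of all pairs -/
theorem comp_of_pairwise [Preorder γ] {q : List γ} (h : q.Pairwise (· ≤ ·)) :
    ∀ x ∈ q, ∀ y ∈ q, x ≤ y ∨ y ≤ x := by
  induction q with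
  | nil => intro x hx; exact absurd hx (List.not_mem_nil)
  | cons a q ih =>
    rw [List.pairwise_cons] at h
    intro x hx y hy
    rcases List.mem_cons.mp hx with h1 | h1
    · rcases List.mem_cons.mp hy with h2 | h2
      · rw [h1, h2]; exact Or.inl le_rfl
      · rw [h1]; exact Or.inl (h.1 y h2)
    · rcases List.mem_cons.mp hy with h2 | h2
      · rw [h2]; exact Or.inr (h.1 x h1)
      · exact ih h.2 x h1 y h2

end Pool.Agent.W297.Lc
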