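import Pool.Agent.W297.Int

/-! The subgroups attached to a group of values and an independent set. -/

set_option autoImplicit false
set_option linter.unusedSectionVars false

namespace Pool.Agent.W297

variable {V : Type} [Fintype V] [DecidableEq V] {R : V → V → Prop}
variable {T : Type} [Group T] {τ : T ≃* T}

variable (R τ) in
/-- functions with values in `D` and periods `σ` -/
def Mf (D : Subgroup T) (σ : Finset V) : Subgroup (NT R τ) where
  carrier := {f | (∀ n, f.1 n ∈ D) ∧ ∀ n, ∀ u ∈ Us R σ, f.1 (n * u) = f.1 n}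
  one_mem' := ⟨fun _ => one_mem D, fun _ _ _ => rfl⟩
  mul_mem' := fun {f g} hf hg => ⟨fun n => mul_mem (hf.1 n) (hg.1 n), fun n u hu => by
    change f.1 (n * u) * g.1 (n * u) = f.1 n * g.1 n
    rw [hf.2 n u hu, hg.2 n u hu]⟩
  inv_mem' := fun {f} hf => ⟨fun n => inv_mem (hf.1 n), fun n u hu => by
    change (f.1 (n * u))⁻¹ = (f.1 n)⁻¹
    rw [hf.2 n u hu]⟩

theorem act_Mf {D : Subgroup T} {σ : Finset V} (hσ : Ind R σ) (γ : Gm R) {f : NT R τ}
    (hf : f ∈ Mf R τ D σ) : act R τ γ f ∈ Mf R τ D σ := by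
  refine ⟨fun n => hf.1 _, fun n u hu => ?_⟩
  change f.1 (γ.1⁻¹ (n * u)) = f.1 (γ.1⁻¹ n)
  have h1 := ((γ⁻¹).2.2 σ hσ n (n * u)).mp (by rwa [inv_mul_cancel_left])
  have h2 := hf.2 ((γ⁻¹).1 n) _ h1
  rw [mul_inv_cancel_left] at h2
  exact h2

variable (R τ) in
/-- the corresponding subgroups of the big group -/
def Lf (D : Subgroup T) (σ : Finset V) : Subgroup (GG R τ) where
  carrier := {g | ∀ γ : Gm R, act R τ γ g.left ∈ Mf R τ D σ}
  one_mem' := fun γ => by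
    rw [SemidirectProduct.one_left, map_one]
    exact one_mem _
  mul_mem' := fun {g k} hg hk γ => by
    rw [SemidirectProduct.mul_left, map_mul]
    refine mul_mem (hg γ) ?_
    have := hk (γ * g.right)
    rwa [map_mul] at this
  inv_mem' := fun {g} hg γ => by
    rw [SemidirectProduct.inv_left, map_inv]
    have := hg (γ * g.right⁻¹)
    rw [map_mul] at this
    rw [map_inv]
    exact inv_mem this

theorem mem_Lf {D : Subgroup T} {σ : Finset V} (hσ : Ind R σ) {g : GG R τ} :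
    g ∈ Lf R τ D σ ↔ g.left ∈ Mf R τ D σ := by
  constructor
  · intro h
    have := h 1
    rwa [map_one] at this
  · intro h γ
    exact act_Mf hσ γ h

theorem mem_MM_Lf {D : Subgroup T} {σ : Finset V} (hσ : Ind R σ) {f : NT R τ} :
    f ∈ MM (Lf R τ D σ) ↔ f ∈ Mf R τ D σ := by
  rw [mem_MM, mem_Lf hσ, SemidirectProduct.left_inl]

theorem Lf_mono {D D' : Subgroup T} {σ σ' : Finset V} (hD : D ≤ D') (hσ : σ' ⊆ σ) :
    Lf R τ D σ ≤ Lf R τ D' σ' :=
  fun _ hg γ => ⟨fun n => hD ((hg γ).1 n), fun n u hu => (hg γ).2 n u (Us_mono hσ hu)⟩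

theorem HH_le_Lf (D : Subgroup T) (σ : Finset V) : HH R τ ≤ Lf R τ D σ := by
  rintro _ ⟨γ, rfl⟩ δ
  rw [SemidirectProduct.left_inr, map_one]
  exact one_mem _

open Classical in
variable (R τ) in
/-- bump functions -/
noncomputable def bump (σ : Finset V) (y : T) (n : NN R) : T :=
  if n ∈ Us R σ then y else if zz R * n ∈ Us R σ then τ y else 1

theorem zz_mul_not_Us {σ : Finset V} (hσ : Ind R σ) {n : NN R} (hn : n ∈ Us R σ) :
    zz R * n ∉ Us R σ := by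
  intro h
  have := Us_mul hσ h (Us_inv hσ hn)
  rw [mul_inv_cancel_right] at this
  exact zz_not_Us σ this

theorem zz_zz_mul (n : NN R) : zz R * (zz R * n) = n := by
  rw [← mul_assoc, zz_sq, one_mul]

theorem bump_mem_NT (hτ2 : ∀ t, τ (τ t) = t) {σ : Finset V} (hσ : Ind R σ) (y : T) :
    bump R τ σ y ∈ NT R τ := by
  intro n
  unfold bump
  by_cases h1 : n ∈ Us R σ
  · rw [if_pos h1, if_neg (zz_mul_not_Us hσ h1), zz_zz_mul, if_pos h1]
  · by_cases h2 : zz R * n ∈ Us R σ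
    · rw [if_pos h2, if_neg h1, if_pos h2, hτ2]
    · rw [if_neg h2, zz_zz_mul, if_neg h1, if_neg h1, if_neg h2, map_one]

theorem mul_mem_Us_iff {σ : Finset V} (hσ : Ind R σ) {n u : NN R} (hu : u ∈ Us R σ) :
    n * u ∈ Us R σ ↔ n ∈ Us R σ := by
  constructor
  · intro h
    have := Us_mul hσ h (Us_inv hσ hu)
    rwa [mul_inv_cancel_right] at this
  · intro h
    exact Us_mul hσ h hu

/-- the bump function as an element -/
noncomputable def bumpE (hτ2 : ∀ t, τ (τ t) = t) {σ : Finset V} (hσ : Ind R σ) (y : T) :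
    NT R τ := ⟨bump R τ σ y, bump_mem_NT hτ2 hσ y⟩

theorem bumpE_mem (hτ2 : ∀ t, τ (τ t) = t) {σ : Finset V} (hσ : Ind R σ) {y : T}
    {D : Subgroup T} (hD : ∀ t ∈ D, τ t ∈ D) (hy : y ∈ D) :
    bumpE hτ2 hσ y ∈ Mf R τ D σ := by
  constructor
  · intro n
    change bump R τ σ y n ∈ D
    unfold bump
    split_ifs
    · exact hy
    · exact hD _ hy
    · exact one_mem D
  · intro n u hu
    change bump R τ σ y (n * u) = bump R τ σ y n
    unfold bump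
    have e1 : (n * u ∈ Us R σ) ↔ (n ∈ Us R σ) := mul_mem_Us_iff hσ hu
    have e2 : (zz R * (n * u) ∈ Us R σ) ↔ (zz R * n ∈ Us R σ) := by
      rw [← mul_assoc]
      exact mul_mem_Us_iff hσ hu
    by_cases h1 : n ∈ Us R σ
    · rw [if_pos (e1.mpr h1), if_pos h1]
    · rw [if_neg (fun h => h1 (e1.mp h)), if_neg h1]
      by_cases h2 : zz R * n ∈ Us R σ
      · rw [if_pos (e2.mpr h2), if_pos h2]
      · rw [if_neg (fun h => h2 (e2.mp h)), if_neg h2]

theorem bumpE_one (hτ2 : ∀ t, τ (τ t) = t) {σ : Finset V} (hσ : Ind R σ) (y : T) :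
    (bumpE hτ2 hσ y).1 1 = y := by
  change bump R τ σ y 1 = y
  unfold bump
  rw [if_pos (Us_one σ)]

theorem Dv_Lf (hτ2 : ∀ t, τ (τ t) = t) {σ : Finset V} (hσ : Ind R σ)
    {D : Subgroup T} (hD : ∀ t ∈ D, τ t ∈ D) : Dv (Lf R τ D σ) = D := by
  apply le_antisymm
  · rintro _ ⟨f, hf, rfl⟩
    rw [mem_MM_Lf hσ] at hf
    exact hf.1 1
  · intro y hy
    refine ⟨bumpE hτ2 hσ y, ?_, bumpE_one hτ2 hσ y⟩
    rw [mem_MM_Lf hσ]
    exact bumpE_mem hτ2 hσ hD hy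

theorem HH_lt_Lf (hτ2 : ∀ t, τ (τ t) = t) {σ : Finset V} (hσ : Ind R σ)
    {D : Subgroup T} (hD : ∀ t ∈ D, τ t ∈ D) (hD0 : D ≠ ⊥) : HH R τ < Lf R τ D σ := by
  refine lt_of_le_of_ne (HH_le_Lf D σ) ?_
  intro he
  apply hD0
  rw [← Dv_Lf hτ2 hσ hD, ← he, eq_bot_iff]
  rintro _ ⟨f, hf, rfl⟩
  obtain ⟨γ, hγ⟩ := hf
  have h1 : f = 1 := by
    have := congrArg SemidirectProduct.left hγ
    rw [SemidirectProduct.left_inr, SemidirectProduct.left_inl] at this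
    exact this.symm
  rw [h1]
  exact Subgroup.mem_bot.mpr rfl

/-- elements of `Us` give periods -/
theorem Us_sub_Un {σ : Finset V} (hσ : Ind R σ) {D : Subgroup T} {u : NN R}
    (hu : u ∈ Us R σ) : u ∈ Un (Lf R τ D σ) := by
  intro f hf n
  rw [mem_MM_Lf hσ] at hf
  exact hf.2 n u hu

theorem Un_Lf_top (hτ2 : ∀ t, τ (τ t) = t) (hτ : ∃ t, τ t ≠ t) {σ : Finset V}
    (hσ : Ind R σ) {u : NN R} (hu : u ∈ Un (Lf R τ ⊤ σ)) : u ∈ Us R σ := by
  obtain ⟨y, hy⟩ := hτ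
  have hy1 : y ≠ 1 := by
    rintro rfl
    exact hy (map_one τ)
  by_contra hno
  have h1 := hu (bumpE hτ2 hσ y) (by
    rw [mem_MM_Lf hσ]
    exact bumpE_mem hτ2 hσ (fun _ _ => trivial) trivial) 1
  rw [one_mul, bumpE_one] at h1
  change bump R τ σ y u = y at h1
  unfold bump at h1
  rw [if_neg hno] at h1
  split_ifs at h1 with h2
  · exact hy h1
  · exact hy1 h1.symm

/-- elements with support one point -/
noncomputable def ptel (R : V → V → Prop) (v : V) : NN R := ⟨Pi.single v (fun _ => (1, 0)), 0⟩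

theorem ptel_mem {σ : Finset V} {v : V} (hv : v ∈ σ) : ptel R v ∈ Us R σ := by
  refine ⟨rfl, ?_⟩
  intro w hw
  change (Pi.single v (fun _ => (1, 0)) : UA V) w = 0
  rw [Pi.single_eq_of_ne]
  rintro rfl
  exact hw hv

theorem ptel_ne (v : V) : (ptel R v).a v 0 ≠ 0 := by
  change (Pi.single v (fun _ => (1, 0)) : UA V) v 0 ≠ 0
  rw [Pi.single_eq_same]
  decide

theorem Lf_lt_top (hτ2 : ∀ t, τ (τ t) = t) (hτ : ∃ t, τ t ≠ t) {σ : Finset V}
    (hσ : Ind R σ) {D : Subgroup T} (hD : ∀ t ∈ D, τ t ∈ D) (h : D ≠ ⊤ ∨ σ.Nonempty) :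
    Lf R τ D σ < ⊤ := by
  refine lt_of_le_of_ne le_top ?_
  intro he
  have h0 : Ind R (∅ : Finset V) := fun a ha => absurd ha (Finset.notMem_empty a)
  have he' : Lf R τ D σ = Lf R τ ⊤ ∅ := by
    apply le_antisymm (Lf_mono le_top (Finset.empty_subset σ))
    rw [he]
    exact le_top
  rcases h with h | ⟨v, hv⟩
  · apply h
    rw [← Dv_Lf (σ := σ) hτ2 hσ hD, he', Dv_Lf (D := ⊤) hτ2 h0 (fun _ _ => trivial)]
  · have h1 : ptel R v ∈ Un (Lf R τ D σ) := Us_sub_Un hσ (ptel_mem hv)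
    rw [he'] at h1
    have h2 := Un_Lf_top hτ2 hτ h0 h1
    have h3 := h2.2 v (Finset.notMem_empty v)
    exact ptel_ne v (by rw [h3]; rfl)

open Classical in
/-- the support of the periods -/
noncomputable def Sf (L : Subgroup (GG R τ)) : Finset V :=
  Finset.univ.filter fun v => ∃ u ∈ Un L, ∃ x, u.a v x ≠ 0

theorem mem_Sf {L : Subgroup (GG R τ)} {v : V} :
    v ∈ Sf L ↔ ∃ u ∈ Un L, ∃ x, u.a v x ≠ 0 := by
  unfold Sf
  simp only [Finset.mem_filter, Finset.mem_univ, true_and]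

theorem Sf_anti {L L' : Subgroup (GG R τ)} (h : L ≤ L') : Sf L' ⊆ Sf L := by
  intro v hv
  rw [mem_Sf] at *
  obtain ⟨u, hu, hx⟩ := hv
  exact ⟨u, Un_anti h hu, hx⟩

theorem Sf_Lf (hτ2 : ∀ t, τ (τ t) = t) (hτ : ∃ t, τ t ≠ t) {σ : Finset V}
    (hσ : Ind R σ) : Sf (Lf R τ ⊤ σ) = σ := by
  ext v
  rw [mem_Sf]
  constructor
  · rintro ⟨u, hu, x, hx⟩
    by_contra hv
    exact hx (by rw [(Un_Lf_top hτ2 hτ hσ hu).2 v hv]; rfl)
  · intro hv
    exact ⟨ptel R v, Us_sub_Un hσ (ptel_mem hv), 0, ptel_ne v⟩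

theorem Sf_ind (hτ : ∃ t, τ t ≠ t) {L : Subgroup (GG R τ)} (h : HH R τ ≤ L)
    (hD : Dv L = ⊤) : Ind R (Sf L) := by
  intro a ha b hb hab
  rw [mem_Sf] at ha hb
  obtain ⟨u, hu, x, hx⟩ := ha
  obtain ⟨w, hw, y, hy⟩ := hb
  exact period_ind hτ h hD hu hw hab hx hy

theorem Sf_nonempty [IsSimpleGroup T] (hnc : ∃ a b : T, a * b ≠ b * a)
    (hτ : ∃ t, τ t ≠ t) {L : Subgroup (GG R τ)} (h : HH R τ ≤ L) (hD : Dv L = ⊤)
    (hL : L ≠ ⊤) : (Sf L).Nonempty := by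
  obtain ⟨u, hu, v, x, hx⟩ := exists_period hnc hτ h hD hL
  exact ⟨v, mem_Sf.mpr ⟨u, hu, x, hx⟩⟩

end Pool.Agent.W297
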