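import Mathlib

/-! Class two groups from biadditive maps, and the particular group built from a relation. -/

set_option autoImplicit false

namespace Pool.Agent.W297

/-- the group `A × B` twisted by a biadditive map -/
@[ext] structure Tw {A B : Type} [AddCommGroup A] [AddCommGroup B] (β : A →+ A →+ B) : Type where
  a : A
  b : B

namespace Tw

variable {A B : Type} [AddCommGroup A] [AddCommGroup B] {β : A →+ A →+ B}

instance : Mul (Tw β) := ⟨fun x y => ⟨x.a + y.a, x.b + y.b + β x.a y.a⟩⟩
instance : One (Tw β) := ⟨⟨0, 0⟩⟩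
instance : Inv (Tw β) := ⟨fun x => ⟨-x.a, -x.b + β x.a x.a⟩⟩

theorem mul_a (x y : Tw β) : (x * y).a = x.a + y.a := rfl
theorem mul_b (x y : Tw β) : (x * y).b = x.b + y.b + β x.a y.a := rfl
theorem one_a : (1 : Tw β).a = 0 := rfl
theorem one_b : (1 : Tw β).b = 0 := rfl
theorem inv_a (x : Tw β) : (x⁻¹).a = -x.a := rfl
theorem inv_b (x : Tw β) : (x⁻¹).b = -x.b + β x.a x.a := rfl

instance : Group (Tw β) := Group.ofLeftAxioms
  (by
    intro x y z
    ext1
    · simp only [mul_a]; abel
    · simp only [mul_a, mul_b, map_add, AddMonoidHom.add_apply]; abel)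
  (by
    intro x
    ext1
    · simp only [mul_a, one_a, zero_add]
    · simp only [mul_b, one_a, one_b, map_zero, AddMonoidHom.zero_apply, zero_add, add_zero])
  (by
    intro x
    ext1
    · simp only [mul_a, one_a, inv_a, neg_add_cancel]
    · simp only [mul_b, inv_a, inv_b, one_b, map_neg, AddMonoidHom.neg_apply]; abel)

/-- the commutator lies in `B` -/
theorem comm_eq (x y : Tw β) :
    x * y * x⁻¹ * y⁻¹ = ⟨0, β x.a y.a - β y.a x.a⟩ := by
  rw [mul_inv_eq_iff_eq_mul, mul_inv_eq_iff_eq_mul]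
  ext1
  · simp only [mul_a]; abel
  · simp only [mul_a, mul_b, map_add, map_zero, AddMonoidHom.add_apply, AddMonoidHom.zero_apply]
    abel

/-- automorphisms from compatible pairs -/
def aut (f : A ≃+ A) (g : B ≃+ B) (h : ∀ u w, g (β u w) = β (f u) (f w)) : Tw β ≃* Tw β where
  toFun x := ⟨f x.a, g x.b⟩
  invFun x := ⟨f.symm x.a, g.symm x.b⟩
  left_inv x := by simp
  right_inv x := by simp
  map_mul' x y := by
    ext1
    · simp only [mul_a, map_add]
    · simp only [mul_b, map_add, h]

def equiv : Tw β ≃ A × B where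
  toFun x := (x.a, x.b)
  invFun p := ⟨p.1, p.2⟩
  left_inv _ := rfl
  right_inv _ := rfl

instance [Finite A] [Finite B] : Finite (Tw β) := Finite.of_equiv _ equiv.symm

end Tw

/-! ### the field with four elements, additively -/

abbrev E4 : Type := ZMod 2 × ZMod 2

def Cm (e : E4) : E4 := (e.2, e.1 + e.2)

def om (e f : E4) : ZMod 2 := e.1 * f.2 + e.2 * f.1

theorem om_add_left : ∀ e e' f : E4, om (e + e') f = om e f + om e' f := by decide
theorem om_add_right : ∀ e f f' : E4, om e (f + f') = om e f + om e f' := by decide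
theorem om_Cm : ∀ e f : E4, om (Cm e) (Cm f) = om e f := by decide
theorem Cm_add : ∀ e f : E4, Cm (e + f) = Cm e + Cm f := by decide
theorem Cm_three : ∀ e : E4, Cm (Cm (Cm e)) = e := by decide
theorem Cm_sub_ne : ∀ e : E4, e ≠ 0 → Cm e - e ≠ 0 := by decide

/-- `C ^ s` for a bit `s` -/
def Cs (s : Bool) (e : E4) : E4 := if s then Cm e else e

theorem Cs_add : ∀ (s : Bool) (e f : E4), Cs s (e + f) = Cs s e + Cs s f := by decide
theorem Cs_Cm : ∀ (s : Bool) (e : E4), Cs s (Cm e) = Cm (Cs s e) := by decide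

/-- the additive automorphism `C` -/
def CmE : E4 ≃+ E4 where
  toFun := Cm
  invFun e := Cm (Cm e)
  left_inv := Cm_three
  right_inv := Cm_three
  map_add' := Cm_add

theorem om_sep : ∀ ea eb' ea' eb : E4, ea ≠ 0 → eb' ≠ 0 →
    (∀ s : Bool, om (Cs s ea) eb' = om (Cs s ea') eb) →
    (∀ s : Bool, om (Cs s ea) (Cm eb') = om (Cs s (Cm ea')) eb) →
    (∀ s : Bool, om (Cs s ea) (Cm (Cm eb')) = om (Cs s (Cm (Cm ea'))) eb) → False := by
  decide +kernel

end Pool.Agent.W297
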